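import Mathlib
import Pool.Agent.T2h38.JM.Avg

set_option autoImplicit false

namespace Pool.Agent.T2h38.OG

open Finset Pool.Agent.T2h38.JM

open Classical in
theorem avg2 (n k : ℕ) (hn : 2 ≤ n) (L ε Q : ℝ) (hL : 1 < L) (hQ : 0 < Q) {ι : Type} [Fintype ι]
    (pr : ι → ℝ) (h1 : ∑ c, pr c = 1)
    (bad : ι → (Fin k → (Fin n → Fin n)) × (Fin k → (Fin n → Fin n)) → Fin k × Fin k → Prop)
    (hbad : ∀ z e, ∑ c, (if bad c z e then pr c else 0) ≤ 1 / (200000 * Q)) :
    (Fintype.card ((Fin k → (Fin n → Fin n)) × (Fin k → (Fin n → Fin n))) : ℕ) *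
      ((k : ℝ) ^ 2 * (Real.log L / 4 - (Real.log L + Real.log 2) / 200000 - Q * ε)) ≤
    ∑ c, pr c * ∑ z : (Fin k → (Fin n → Fin n)) × (Fin k → (Fin n → Fin n)),
      ∑ e : Fin k × Fin k, ((if dj (z.1 e.1) (z.2 e.2) = true then Real.log L else 0) -
        Q * ((if bad c z e then Real.log L + Real.log 2 else 0) + ε)) := by
  set Zc : ℝ := ((Fintype.card ((Fin k → (Fin n → Fin n)) × (Fin k → (Fin n → Fin n))) : ℕ) : ℝ)
    with hZc
  have hl : 0 < Real.log L := Real.log_pos hL
  have hl2 : 0 < Real.log 2 := Real.log_pos (by norm_num)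
  have hrew : ∑ c, pr c * ∑ z : (Fin k → (Fin n → Fin n)) × (Fin k → (Fin n → Fin n)),
      ∑ e : Fin k × Fin k, ((if dj (z.1 e.1) (z.2 e.2) = true then Real.log L else 0) -
        Q * ((if bad c z e then Real.log L + Real.log 2 else 0) + ε)) =
      ∑ e : Fin k × Fin k, ∑ z : (Fin k → (Fin n → Fin n)) × (Fin k → (Fin n → Fin n)),
        (Real.log L * (if dj (z.1 e.1) (z.2 e.2) = true then (1 : ℝ) else 0) -
          Q * (Real.log L + Real.log 2) * (∑ c, (if bad c z e then pr c else 0)) - Q * ε) := by
    have h2 : ∀ c, pr c * ∑ z : (Fin k → (Fin n → Fin n)) × (Fin k → (Fin n → Fin n)),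
        ∑ e : Fin k × Fin k, ((if dj (z.1 e.1) (z.2 e.2) = true then Real.log L else 0) -
        Q * ((if bad c z e then Real.log L + Real.log 2 else 0) + ε)) =
        ∑ e : Fin k × Fin k, ∑ z : (Fin k → (Fin n → Fin n)) × (Fin k → (Fin n → Fin n)),
        pr c * ((if dj (z.1 e.1) (z.2 e.2) = true then Real.log L else 0) -
        Q * ((if bad c z e then Real.log L + Real.log 2 else 0) + ε)) := by
      intro c
      rw [Finset.mul_sum, Finset.sum_comm]
      refine Finset.sum_congr rfl fun z _ => ?_
      rw [Finset.mul_sum]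
    simp_rw [h2]
    rw [Finset.sum_comm]
    refine Finset.sum_congr rfl fun e _ => ?_
    rw [Finset.sum_comm]
    refine Finset.sum_congr rfl fun z _ => ?_
    have h3 : ∀ c, pr c * ((if dj (z.1 e.1) (z.2 e.2) = true then Real.log L else 0) -
        Q * ((if bad c z e then Real.log L + Real.log 2 else 0) + ε)) =
        pr c * (Real.log L * (if dj (z.1 e.1) (z.2 e.2) = true then (1 : ℝ) else 0) - Q * ε) -
        Q * (Real.log L + Real.log 2) * (if bad c z e then pr c else 0) := by
      intro c
      by_cases hd : dj (z.1 e.1) (z.2 e.2) = true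
      · by_cases hb : bad c z e
        · simp only [hd, hb, if_true]
          ring
        · simp only [hd, hb, if_true, if_false]
          ring
      · by_cases hb : bad c z e
        · simp only [hd, hb, if_true, if_false, Bool.false_eq_true]
          ring
        · simp only [hd, hb, if_false, Bool.false_eq_true]
          ring
    simp_rw [h3]
    rw [Finset.sum_sub_distrib, ← Finset.sum_mul, h1, ← Finset.mul_sum]
    ring
  rw [hrew]
  have hone : ∀ e : Fin k × Fin k,
      Zc * (Real.log L / 4 - (Real.log L + Real.log 2) / 200000 - Q * ε) ≤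
      ∑ z : (Fin k → (Fin n → Fin n)) × (Fin k → (Fin n → Fin n)),
        (Real.log L * (if dj (z.1 e.1) (z.2 e.2) = true then (1 : ℝ) else 0) -
          Q * (Real.log L + Real.log 2) * (∑ c, (if bad c z e then pr c else 0)) - Q * ε) := by
    intro e
    have h2 : ∑ z : (Fin k → (Fin n → Fin n)) × (Fin k → (Fin n → Fin n)),
        (Real.log L * (if dj (z.1 e.1) (z.2 e.2) = true then (1 : ℝ) else 0) -
          (Real.log L + Real.log 2) * (1 / 200000) - Q * ε) ≤
        ∑ z : (Fin k → (Fin n → Fin n)) × (Fin k → (Fin n → Fin n)),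
        (Real.log L * (if dj (z.1 e.1) (z.2 e.2) = true then (1 : ℝ) else 0) -
          Q * (Real.log L + Real.log 2) * (∑ c, (if bad c z e then pr c else 0)) - Q * ε) := by
      refine Finset.sum_le_sum fun z _ => ?_
      have := mul_le_mul_of_nonneg_left (hbad z e) (mul_pos hQ (add_pos hl hl2)).le
      have h5 : Q * (Real.log L + Real.log 2) * (1 / (200000 * Q)) =
          (Real.log L + Real.log 2) * (1 / 200000) := by
        field_simp
      rw [h5] at this
      linarith
    refine le_trans ?_ h2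
    have h3 := sum_disj1 n k hn e.1 e.2
    rw [← hZc] at h3
    rw [Finset.sum_sub_distrib, Finset.sum_sub_distrib, ← Finset.mul_sum, Finset.sum_const,
      Finset.sum_const, Finset.card_univ, nsmul_eq_mul, nsmul_eq_mul, ← hZc]
    have h4 := mul_le_mul_of_nonneg_left h3 hl.le
    linarith
  calc Zc * ((k : ℝ) ^ 2 * (Real.log L / 4 - (Real.log L + Real.log 2) / 200000 - Q * ε)) =
      ∑ _e : Fin k × Fin k, Zc * (Real.log L / 4 - (Real.log L + Real.log 2) / 200000 - Q * ε) := by
        rw [Finset.sum_const, Finset.card_univ, Fintype.card_prod, Fintype.card_fin, nsmul_eq_mul]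
        push_cast
        ring
    _ ≤ _ := Finset.sum_le_sum fun e _ => hone e

end Pool.Agent.T2h38.OG
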