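import Mathlib
import Pool.Agent.T2h38.JM.Coin
import Pool.Agent.T2h38.JM.Fin2

/-!
# Project OG (helper38, MP_f326ae_lc): t fully adaptive joint probes, every b

Goal (replaces OP, in which `t = 1`): structures for set intersection (emptiness) with an unlimited separate
memory for each single set (`b` bits are read), `r` free joint bits and `S` joint cells of `w` bits, at most `t`
of which are read, adaptively: `N ≤ C_t r` or `N^(t+1) ≤ (C_t S w)^t D²` for every `D ≥ max (100 b) (C_t (l + w + 1))`.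
(`ProbesToJointMemory` needs `D ≥ N^(1/3)`.)

The input `z` is fixed at first; `o e` is the set of the at most `t` cells read by the query of the pair
`e = (i, j)`. Rate `2^(-u)` with `k ≤ Λ 2^(u t) ≤ 2^t k`. A *block* is a set `B` of cells with a label: `none` (global
sample, `B` a singleton), a row, or a column. Its load is the number of pairs of the row (column) which read all of
`B`; its scale is the least `a` with load `≤ Λ 2^(u (t - |B|) + a)`. The block is chosen if `u |B| - a` random bits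
vanish. A pair `e` survives if `o e` is a disjoint union of chosen blocks (labels: global, its row, its column)
and (sum of the scales) `+ u (t - |o e|)` bits of `e` vanish. So for a fixed decomposition the probability is
exactly `2^(-u t)`. For the decomposition with the largest sum of the scales the expected number of survivors in the
row and in the column, given that `e` survives, is `O_t(Λ)`.
-/

set_option autoImplicit false

namespace Pool.Agent.T2h38.OG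

open Finset Pool.Agent.T2h38.JM

section comb

variable {k S : ℕ}

/-- labels -/
abbrev Lab (k : ℕ) : Type := Option (Fin k ⊕ Fin k)

/-- blocks -/
abbrev Blk (k S : ℕ) : Type := Lab k × Finset (Fin S)

/-- coordinates (random bits) -/
abbrev Crd (k S M : ℕ) : Type := (Blk k S × Fin M) ⊕ ((Fin k × Fin k) × Fin M)

/-- sample space -/
abbrev Om (k S M : ℕ) : Type := Crd k S M → Fin 2

/-- load of a block -/
def load (o : Fin k × Fin k → Finset (Fin S)) : Blk k S → ℕ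
  | (none, _) => 0
  | (some (Sum.inl i), B) => (univ.filter fun j => B ⊆ o (i, j)).card
  | (some (Sum.inr j), B) => (univ.filter fun i => B ⊆ o (i, j)).card

/-- scale of a block -/
noncomputable def sca (t u Λ : ℕ) (o : Fin k × Fin k → Finset (Fin S)) (x : Blk k S) : ℕ :=
  sInf {a | load o x ≤ Λ * 2 ^ (u * (t - x.2.card) + a)}

/-- `π` is an admissible decomposition of `o e` -/
def Adm (t u Λ : ℕ) (o : Fin k × Fin k → Finset (Fin S)) (e : Fin k × Fin k)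
    (π : Finset (Blk k S)) : Prop :=
  (∀ x ∈ π, (x.1 = none ∧ x.2.card = 1) ∨
    ((x.1 = some (Sum.inl e.1) ∨ x.1 = some (Sum.inr e.2)) ∧ x.2.Nonempty ∧ 0 < sca t u Λ o x)) ∧
  (∀ x ∈ π, ∀ y ∈ π, x ≠ y → Disjoint x.2 y.2) ∧ π.biUnion Prod.snd = o e

/-- sum of the scales -/
noncomputable def tot (t u Λ : ℕ) (o : Fin k × Fin k → Finset (Fin S)) (π : Finset (Blk k S)) : ℕ :=
  ∑ x ∈ π, sca t u Λ o x

/-- an admissible decomposition with the largest sum of the scales -/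
def Mx (t u Λ : ℕ) (o : Fin k × Fin k → Finset (Fin S)) (e : Fin k × Fin k)
    (π : Finset (Blk k S)) : Prop :=
  Adm t u Λ o e π ∧ ∀ π', Adm t u Λ o e π' → tot t u Λ o π' ≤ tot t u Λ o π

open Classical in
/-- the set of the admissible decompositions -/
noncomputable def adm (t u Λ : ℕ) (o : Fin k × Fin k → Finset (Fin S)) (e : Fin k × Fin k) :
    Finset (Finset (Blk k S)) := univ.filter fun π => Adm t u Λ o e π

/-- the bits of a block -/
noncomputable def bcr (t u Λ : ℕ) (o : Fin k × Fin k → Finset (Fin S)) (x : Blk k S) :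
    Finset (Crd k S (u * t)) :=
  (univ.filter fun b : Fin (u * t) => b.1 < u * x.2.card - sca t u Λ o x).image
    fun b => Sum.inl (x, b)

/-- the bits of a pair and a decomposition -/
noncomputable def crd (t u Λ : ℕ) (o : Fin k × Fin k → Finset (Fin S)) (e : Fin k × Fin k)
    (π : Finset (Blk k S)) : Finset (Crd k S (u * t)) :=
  π.biUnion (bcr t u Λ o) ∪
    (univ.filter fun b : Fin (u * t) => b.1 < tot t u Λ o π + u * (t - (o e).card)).image
      fun b => Sum.inr (e, b)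

/-- `ω` vanishes on `s` -/
def zer {U : Type} (s : Finset U) (ω : U → Fin 2) : Prop := ∀ y ∈ s, ω y = 0

/-- the pair `e` survives -/
def Sv (t u Λ : ℕ) (o : Fin k × Fin k → Finset (Fin S)) (ω : Om k S (u * t))
    (e : Fin k × Fin k) : Prop := ∃ π, Adm t u Λ o e π ∧ zer (crd t u Λ o e π) ω

open Classical in
/-- the heavy blocks with label `v` -/
noncomputable def hv (t u Λ : ℕ) (o : Fin k × Fin k → Finset (Fin S)) (v : Fin k ⊕ Fin k) :
    Finset (Blk k S) := univ.filter fun x => x.1 = some v ∧ x.2.Nonempty ∧ 0 < sca t u Λ o x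

open Classical in
/-- the chosen heavy blocks with label `v` -/
noncomputable def chs (t u Λ : ℕ) (o : Fin k × Fin k → Finset (Fin S)) (ω : Om k S (u * t))
    (v : Fin k ⊕ Fin k) : Finset (Blk k S) := (hv t u Λ o v).filter fun x => zer (bcr t u Λ o x) ω

open Classical in
/-- the survivors of a row (`inl i`) or a column (`inr j`) -/
noncomputable def sur (t u Λ : ℕ) (o : Fin k × Fin k → Finset (Fin S)) (ω : Om k S (u * t)) :
    Fin k ⊕ Fin k → Finset (Fin k × Fin k)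
  | Sum.inl i => univ.filter fun e => e.1 = i ∧ Sv t u Λ o ω e
  | Sum.inr j => univ.filter fun e => e.2 = j ∧ Sv t u Λ o ω e

/-- a row or a column is good for `ω` -/
def Gd (t u Λ D h0 : ℕ) (o : Fin k × Fin k → Finset (Fin S)) (ω : Om k S (u * t))
    (v : Fin k ⊕ Fin k) : Prop :=
  (chs t u Λ o ω v).card ≤ h0 ∧ (sur t u Λ o ω v).card ≤ D

open Classical in
/-- survivors by the decompositions `π e` -/
noncomputable def sup (t u Λ : ℕ) (o : Fin k × Fin k → Finset (Fin S)) (ω : Om k S (u * t))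
    (π : Fin k × Fin k → Finset (Blk k S)) : Finset (Fin k × Fin k) :=
  univ.filter fun e => zer (crd t u Λ o e (π e)) ω

open Classical in
/-- all survivors -/
noncomputable def sal (t u Λ : ℕ) (o : Fin k × Fin k → Finset (Fin S)) (ω : Om k S (u * t)) :
    Finset (Fin k × Fin k) := univ.filter fun e => Sv t u Λ o ω e

open Classical in
/-- the pairs of `sup` in a bad row or a bad column -/
noncomputable def los (t u Λ D h0 : ℕ) (o : Fin k × Fin k → Finset (Fin S)) (ω : Om k S (u * t))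
    (π : Fin k × Fin k → Finset (Blk k S)) : Finset (Fin k × Fin k) :=
  (sup t u Λ o ω π).filter fun e =>
    ¬ (Gd t u Λ D h0 o ω (Sum.inl e.1) ∧ Gd t u Λ D h0 o ω (Sum.inr e.2))

end comb

/-- SCA: properties of the scale. (1) and (2): `Nat.sInf_mem`, `Nat.notMem_of_lt_sInf`; the set is nonempty by
`a = load`, `Λ > 0`. (3): the load is at most `k ≤ Λ 2^(u t)` (0 for `none`), and `u (t - |B|) + u |B| = u t`. -/
def S_SCA : Prop := ∀ (k S t u Λ : ℕ), 0 < Λ → k ≤ Λ * 2 ^ (u * t) →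
  ∀ (o : Fin k × Fin k → Finset (Fin S)) (x : Blk k S),
  (load o x ≤ Λ * 2 ^ (u * (t - x.2.card) + sca t u Λ o x)) ∧
  (0 < sca t u Λ o x → Λ * 2 ^ (u * (t - x.2.card) + sca t u Λ o x) ≤ 2 * load o x) ∧
  (x.2.card ≤ t → sca t u Λ o x ≤ u * x.2.card) ∧ (x.1 = none → sca t u Λ o x = 0)

/-- EXM: there is a largest admissible decomposition. The decomposition into the singletons with label `none`
is admissible; `Finset.exists_max_image` on `adm`. -/
def S_EXM : Prop := ∀ (k S t u Λ : ℕ) (o : Fin k × Fin k → Finset (Fin S)) (e : Fin k × Fin k),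
  ∃ π, Mx t u Λ o e π

/-- CRD: the number of the bits. `|π.biUnion bcr| = ∑ (u |B| - a)` (different blocks have different bits;
`u |B| - a ≤ u t`), the second part has `∑ a + u (t - |o e|) ≤ u t` bits, `∑ |B| = |o e|`, `a ≤ u |B|`. -/
def S_CRD : Prop := S_SCA → ∀ (k S t u Λ : ℕ), 0 < Λ → k ≤ Λ * 2 ^ (u * t) →
  ∀ (o : Fin k × Fin k → Finset (Fin S)), (∀ e, (o e).card ≤ t) →
  ∀ e π, Adm t u Λ o e π → (crd t u Λ o e π).card = u * t

/-- NPI: the number of the admissible decompositions. Injective map to the functions `o e → Fin 3 × o e`: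
cell `c` of the block `x` goes to (kind of the label of `x`, the least cell of `x.2`); `(3 m)^m ≤ (3 t)^t`. (The block
of `c` is recovered as the set of all `c'` with the same value; the label from the kind and `e`.) -/
def S_NPI : Prop := ∀ (k S t u Λ : ℕ), 1 ≤ t →
  ∀ (o : Fin k × Fin k → Finset (Fin S)), (∀ e, (o e).card ≤ t) →
  ∀ e, (adm t u Λ o e).card ≤ (3 * t) ^ t

/-- INR: intersections in the row. Proof. `e' ≠ e` in the row of `e`, `π' ∈ adm e'`, `s = π ∩ π'`: its labels are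
`none` or the row. `crd e π ∩ crd e' π'` consists of the bits of the blocks of `s`, so it has
`∑_{x ∈ s} (u |x.2| - sca x) = u |K| - ∑_s sca` elements, `K = s.biUnion snd`. For fixed `s ⊆ π` (at most `2^t` sets,
`|π| ≤ |o e| ≤ t`) the number of the pairs `(e', π')` is at most `(number of e' in the row with K ⊆ o e') (3 t)^t`,
and `number ≤ load (row, K) ≤ Λ 2^(u (t - |K|) + sca (row, K))`, `sca (row, K) ≤ ∑_s sca`: otherwise replace in `π`
the blocks of `s` by the one block `(row, K)`, which contradicts the maximality (`K` is nonempty if `s` is). For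
`s = ∅`: at most `k ≤ Λ 2^(u t)` pairs `e'`. -/
def S_INR : Prop := S_SCA → S_NPI → ∀ (k S t u Λ : ℕ), 1 ≤ t → 0 < Λ → k ≤ Λ * 2 ^ (u * t) →
  ∀ (o : Fin k × Fin k → Finset (Fin S)), (∀ e, (o e).card ≤ t) → ∀ e π, Mx t u Λ o e π →
  ∑ e' ∈ univ.filter (fun e' : Fin k × Fin k => e'.1 = e.1 ∧ e' ≠ e), ∑ π' ∈ adm t u Λ o e',
    2 ^ (crd t u Λ o e π ∩ crd t u Λ o e' π').card ≤ 2 ^ t * (3 * t) ^ t * Λ * 2 ^ (u * t)

/-- INC: the same for the column. -/
def S_INC : Prop := S_SCA → S_NPI → ∀ (k S t u Λ : ℕ), 1 ≤ t → 0 < Λ → k ≤ Λ * 2 ^ (u * t) →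
  ∀ (o : Fin k × Fin k → Finset (Fin S)), (∀ e, (o e).card ≤ t) → ∀ e π, Mx t u Λ o e π →
  ∑ e' ∈ univ.filter (fun e' : Fin k × Fin k => e'.2 = e.2 ∧ e' ≠ e), ∑ π' ∈ adm t u Λ o e',
    2 ^ (crd t u Λ o e π ∩ crd t u Λ o e' π').card ≤ 2 ^ t * (3 * t) ^ t * Λ * 2 ^ (u * t)

/-- BLK: the heavy blocks of a row or column. Proof: `Λ 2^(u (t - |B|) + sca) ≤ 2 load` (SCA (2)), and the sum of the
loads of all sets `B` in the row is `∑_j 2^|o (i, j)| ≤ k 2^t`; `k ≤ Λ 2^(u t)`; divide by `Λ`. -/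
def S_BLK : Prop := S_SCA → ∀ (k S t u Λ : ℕ), 0 < Λ → k ≤ Λ * 2 ^ (u * t) →
  ∀ (o : Fin k × Fin k → Finset (Fin S)), (∀ e, (o e).card ≤ t) → ∀ v : Fin k ⊕ Fin k,
  ∑ x ∈ hv t u Λ o v, 2 ^ (u * (t - x.2.card) + sca t u Λ o x) ≤ 2 ^ (t + 1) * 2 ^ (u * t)

/-- LSB: loss by too many chosen blocks, for one pair. Proof: `h0 [h0 < |chs|] ≤ |chs|`; for `x ∈ π`
`P(crd) = 2^(-u t)` (at most `t` blocks), for `x ∉ π` the bits of `x` are disjoint from `crd`, so the probability is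
`2^(-u t - (u |x.2| - sca x))`, sum by BLK (`sca x ≤ u |x.2|`, as `x.2 ⊆ o e'` for some `e'` because the load is
positive). `JM.count_zero` with `m = 1`. -/
def S_LSB : Prop := S_SCA → S_CRD → S_BLK → ∀ (k S t u Λ h0 : ℕ), 0 < Λ → k ≤ Λ * 2 ^ (u * t) →
  ∀ (o : Fin k × Fin k → Finset (Fin S)), (∀ e, (o e).card ≤ t) → ∀ e π, Adm t u Λ o e π →
  ∀ v : Fin k ⊕ Fin k, (h0 : ℝ) *
  (open Classical in ∑ ω : Om k S (u * t),
    (if zer (crd t u Λ o e π) ω ∧ h0 < (chs t u Λ o ω v).card then (1 : ℝ) else 0)) ≤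
    (Fintype.card (Om k S (u * t)) : ℕ) * (((t + 2 ^ (t + 1) : ℕ) : ℝ) / 2 ^ (u * t))

/-- LSD: loss by too many survivors in the row or in the column of `e`, for one pair. Proof:
`D [D < |sur|] ≤ |sur|`, and the number of `(ω, e')` with `zer (crd e π) ω` and `Sv ω e'` is for `e' = e` at most
`|Ω| 2^(-u t)`, and for `e' ≠ e` at most the sum over `π' ∈ adm e'` of `|Ω| 2^(-|crd e π ∪ crd e' π'|)`, with
`|∪| = 2 u t - |∩|` (CRD); then INR or INC. -/
def S_LSD : Prop := S_SCA → S_NPI → S_CRD → S_INR → S_INC →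
  ∀ (k S t u Λ D : ℕ), 1 ≤ t → 0 < Λ → k ≤ Λ * 2 ^ (u * t) →
  ∀ (o : Fin k × Fin k → Finset (Fin S)), (∀ e, (o e).card ≤ t) → ∀ e π, Mx t u Λ o e π →
  ∀ v : Fin k ⊕ Fin k, (v = Sum.inl e.1 ∨ v = Sum.inr e.2) → (D : ℝ) *
  (open Classical in ∑ ω : Om k S (u * t),
    (if zer (crd t u Λ o e π) ω ∧ D < (sur t u Λ o ω v).card then (1 : ℝ) else 0)) ≤
    (Fintype.card (Om k S (u * t)) : ℕ) * (((1 + 2 ^ t * (3 * t) ^ t * Λ : ℕ) : ℝ) / 2 ^ (u * t))

/-- LOS: the expected loss: LSB and LSD for the row and the column of every pair,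
`2 (t + 2^(t+1)) / h0 + 2 (1 + 2^t (3t)^t Λ) / D ≤ 4 / 512`. -/
def S_LOS : Prop := S_SCA → S_NPI → S_CRD → S_INR → S_INC → S_BLK → S_LSB → S_LSD →
  ∀ (k S t u Λ D h0 : ℕ), 1 ≤ t → 0 < Λ → k ≤ Λ * 2 ^ (u * t) → 512 * (t + 2 ^ (t + 1)) ≤ h0 →
  512 * (1 + 2 ^ t * (3 * t) ^ t * Λ) ≤ D →
  ∀ (o : Fin k × Fin k → Finset (Fin S)), (∀ e, (o e).card ≤ t) →
  ∀ π : Fin k × Fin k → Finset (Blk k S), (∀ e, Mx t u Λ o e (π e)) →
  ∑ ω : Om k S (u * t), (((los t u Λ D h0 o ω π).card : ℕ) : ℝ) ≤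
    (Fintype.card (Om k S (u * t)) : ℕ) * ((k : ℝ) ^ 2 / 128 / 2 ^ (u * t))

/-- GAI: the expected gain (CRD and `JM.count_zero` with `m = 1`, or `JM.sum_sv`). -/
def S_GAI : Prop := S_SCA → S_CRD → ∀ (k S t u Λ : ℕ), 0 < Λ → k ≤ Λ * 2 ^ (u * t) →
  ∀ (o : Fin k × Fin k → Finset (Fin S)), (∀ e, (o e).card ≤ t) →
  ∀ π : Fin k × Fin k → Finset (Blk k S), (∀ e, Adm t u Λ o e (π e)) → ∀ x : Fin k × Fin k → ℝ,
  ∑ ω : Om k S (u * t), ∑ e ∈ sup t u Λ o ω π, x e =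
    (Fintype.card (Om k S (u * t)) : ℕ) * ((∑ e, x e) / 2 ^ (u * t))

/-- WRO: all survivors: union bound over the decompositions (CRD, NPI, `JM.count_zero`). -/
def S_WRO : Prop := S_SCA → S_NPI → S_CRD → ∀ (k S t u Λ : ℕ), 1 ≤ t → 0 < Λ →
  k ≤ Λ * 2 ^ (u * t) → ∀ (o : Fin k × Fin k → Finset (Fin S)), (∀ e, (o e).card ≤ t) →
  ∀ x : Fin k × Fin k → ℝ, (∀ e, 0 ≤ x e) →
  ∑ ω : Om k S (u * t), ∑ e ∈ sal t u Λ o ω, x e ≤
    (Fintype.card (Om k S (u * t)) : ℕ) * ((3 * (t : ℝ)) ^ t * (∑ e, x e) / 2 ^ (u * t))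

open Classical in
/-- COD: the number of advices. Code: the contents on `G` (`V^|G|`), for every row and every column a list of `h0`
entries in `Option ((Fin t → Option (Fin S × Fin V)) × Fin (M + 1))` (a block with contents and scale), two sets.
Compare `OP/T_CNR.lean`, `OP/T_CNL.lean`, `JM.decode_surj`. -/
def S_COD : Prop := ∀ (Z : Type) [Fintype Z] (k S V h0 t M : ℕ) (v0 : Fin V) (J : Z → Fin S → Fin V)
  (G : Finset (Fin S)) (A A' : Z → Fin k → Finset (Finset (Fin S) × ℕ)),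
  (∀ z i, (A z i).card ≤ h0) → (∀ z i, (A' z i).card ≤ h0) →
  (∀ z i, ∀ x ∈ A z i, x.1.card ≤ t ∧ x.2 ≤ M) → (∀ z i, ∀ x ∈ A' z i, x.1.card ≤ t ∧ x.2 ≤ M) →
  ∀ (R R' : Z → Finset (Fin k)),
  (univ.image fun z => ((fun c => if c ∈ G ∨ (∃ i, ∃ x ∈ A z i, c ∈ x.1) ∨
      (∃ i, ∃ x ∈ A' z i, c ∈ x.1) then J z c else v0 : Fin S → Fin V), (A z, A' z), R z,
    R' z)).card ≤ V ^ G.card * ((((S * V + 1) ^ t * (M + 1) + 1) ^ (k * h0)) *
      (((S * V + 1) ^ t * (M + 1) + 1) ^ (k * h0))) * (2 ^ k * 2 ^ k)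

section runs

variable {α A : Type} {k S V W r : ℕ}

/-- the run of the query `e` with at most `t` joint probes -/
def oo (t : ℕ) (q : Fin r → Fin k → Fin k → QAlg A S V W) (a a' : Fin r → Fin k → α → A → Fin W)
    (φ : (Fin k → α) × (Fin k → α) → Fin r) (T : ℕ) (J : (Fin k → α) × (Fin k → α) → Fin S → Fin V)
    (z : (Fin k → α) × (Fin k → α)) (e : Fin k × Fin k) : Option Bool × Finset (Fin S) :=
  (q (φ z) e.1 e.2).run (J z) (a (φ z) e.1 (z.1 e.1)) (a' (φ z) e.2 (z.2 e.2)) T t ∅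

/-- the cells read by the query -/
def cc (t : ℕ) (q : Fin r → Fin k → Fin k → QAlg A S V W) (a a' : Fin r → Fin k → α → A → Fin W)
    (φ : (Fin k → α) × (Fin k → α) → Fin r) (T : ℕ) (J : (Fin k → α) × (Fin k → α) → Fin S → Fin V)
    (z : (Fin k → α) × (Fin k → α)) (e : Fin k × Fin k) : Finset (Fin S) :=
  (oo t q a a' φ T J z e).2

/-- the bound for the restricted sums -/
def HSC (t : ℕ) [Fintype α] (L ε : ℝ) (d : α → α → Bool)
    (q : Fin r → Fin k → Fin k → QAlg A S V W)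
    (a a' : Fin r → Fin k → α → A → Fin W) (T D : ℕ) : Prop :=
  ∀ (P : Fin k × Fin k → Finset (Fin S) → Finset (Fin S) → Bool) (x : Fin r)
    (ρ : Fin S → Fin V) (H' : Finset (Fin S)) (E : Finset (Fin k × Fin k)),
    SC D (sg (q x) (a x) (a' x) T t P ρ H') (kg L ε d (q x) (a x) (a' x) T t P ρ H') E ≤
      2 * (Fintype.card ((Fin k → α) × (Fin k → α)) : ℕ)

end runs

open Classical in
/-- ADV: copy of `OP/T_ADV.lean` with `t` probes instead of 1. -/
def S_ADV : Prop := ∀ (α A Γ : Type) [Fintype α] [Nonempty α] (k S V W r : ℕ) (L ε : ℝ), 1 ≤ L →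
  ∀ (d : α → α → Bool) (q : Fin r → Fin k → Fin k → QAlg A S V W)
    (a a' : Fin r → Fin k → α → A → Fin W) (φ : (Fin k → α) × (Fin k → α) → Fin r)
    (T t D : ℕ) (J : (Fin k → α) × (Fin k → α) → Fin S → Fin V), HSC t L ε d q a a' T D →
  ∀ (P : Γ → Fin k × Fin k → Finset (Fin S) → Bool)
    (g : (Fin k → α) × (Fin k → α) → (Fin S → Fin V) × Γ × Finset (Fin k) × Finset (Fin k))
    (N : ℕ), (univ.image g).card ≤ N →
  (∀ z e acc, P (g z).2.1 e acc = true → ∀ c ∈ acc, (g z).1 c = J z c) →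
  (∀ z, ∀ i ∈ (g z).2.2.1, (((g z).2.2.1 ×ˢ (g z).2.2.2).filter fun e : Fin k × Fin k =>
    e.1 = i ∧ P (g z).2.1 e (cc t q a a' φ T J z e) = true).card ≤ D) →
  (∀ z, ∀ j ∈ (g z).2.2.2, (((g z).2.2.1 ×ˢ (g z).2.2.2).filter fun e : Fin k × Fin k =>
    e.2 = j ∧ P (g z).2.1 e (cc t q a a' φ T J z e) = true).card ≤ D) →
  ∑ z, ∑ e ∈ ((g z).2.2.1 ×ˢ (g z).2.2.2).filter
      (fun e => P (g z).2.1 e (cc t q a a' φ T J z e) = true),
      Real.log (Real.exp (-ε) * kk L (1 / 2) d (oo t q a a' φ T J z e).1 (z.1 e.1) (z.2 e.2)) ≤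
    (Fintype.card ((Fin k → α) × (Fin k → α)) : ℕ) * Real.log (2 * ((N : ℝ) * r))

open Classical in
/-- WGT: `(if disjoint then log L else 0) - (if bad then log L + log 2 else 0) - ε ≤ log (exp (-ε) kk)`.
See `OP/T_WGT.lean` and `hwlog` in `JM.coin_ineq`. -/
def S_WGT : Prop := ∀ (α : Type) (L ε : ℝ), 1 < L → 0 ≤ ε →
  ∀ (d : α → α → Bool) (x y : α) (b : Option Bool),
  (if d x y = true then Real.log L else 0) -
    ((if b ≠ some (!(d x y)) then Real.log L + Real.log 2 else 0) + ε) ≤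
    Real.log (Real.exp (-ε) * kk L (1 / 2) d b x y)

open Classical in
/-- SMP: the inequality for one `ω` (as `hsample` in `JM.coin_ineq`, `OP/T_LIG.lean`).
Proof. `o z = cc z`. `G = {c | zer (bits b < u of (none, {c})) ω}`; `A z i` = image of `chs ω (inl i)` by
`x ↦ (x.2, sca x)`, replaced by `∅` if it has more than `h0` elements; `A' z j` with `inr j`. `R z` = good rows (`Gd`), `R' z` = good
columns. `Γ = (Fin k → Finset (Finset (Fin S) × ℕ))²`; `P (γ, γ') e acc` = there are `π : Finset (Blk k S)` and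
`s : Blk k S → ℕ` such that every `x ∈ π` has (label `none`, one cell which is in `G`, `s x = 0`) or (label `inl e.1`,
nonempty, `(x.2, s x) ∈ γ e.1`, `0 < s x`) or (label `inr e.2`, nonempty, `(x.2, s x) ∈ γ' e.2`, `0 < s x`), different blocks are disjoint,
the union is `acc`, and the bits `b < ∑ s + u (t - |acc|)` of `e` vanish. For `e ∈ R z × R' z`: `P` holds iff `Sv ω e`
(`sca = 0` for the label `none`). ADV, COD (`M = u t`), WGT. With `x e = [disjoint] log L`, `v e = [bad] (log L + log 2) + ε`: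
`∑_{R × R', Sv} (x - v) ≥ ∑_{sup} x - log L |los| - ∑_{sal} v`. -/
def S_SMP : Prop := S_SCA → S_ADV → S_COD → S_WGT →
  ∀ (α A : Type) [Fintype α] [Nonempty α] (k S V W r : ℕ) (L ε : ℝ), 1 < L → 0 ≤ ε →
  ∀ (d : α → α → Bool) (q : Fin r → Fin k → Fin k → QAlg A S V W)
    (a a' : Fin r → Fin k → α → A → Fin W) (φ : (Fin k → α) × (Fin k → α) → Fin r)
    (T t D : ℕ) (_ : Fin V) (J : (Fin k → α) × (Fin k → α) → Fin S → Fin V),
  HSC t L ε d q a a' T D →
  ∀ (u Λ h0 : ℕ), 1 ≤ t → 0 < Λ → k ≤ Λ * 2 ^ (u * t) → 1 ≤ k →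
  ∀ (π : (Fin k → α) × (Fin k → α) → Fin k × Fin k → Finset (Blk k S)),
    (∀ z e, Adm t u Λ (cc t q a a' φ T J z) e (π z e)) →
  ∀ ω : Om k S (u * t),
  ∑ z : (Fin k → α) × (Fin k → α),
    (∑ e ∈ sup t u Λ (cc t q a a' φ T J z) ω (π z),
      (if d (z.1 e.1) (z.2 e.2) = true then Real.log L else 0) -
    Real.log L * (((los t u Λ D h0 (cc t q a a' φ T J z) ω (π z)).card : ℕ) : ℝ) -
    ∑ e ∈ sal t u Λ (cc t q a a' φ T J z) ω,
      ((if (oo t q a a' φ T J z e).1 ≠ some (!(d (z.1 e.1) (z.2 e.2))) then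
        Real.log L + Real.log 2 else 0) + ε)) ≤
    (Fintype.card ((Fin k → α) × (Fin k → α)) : ℕ) *
      (Real.log 2 + ((univ.filter fun c : Fin S => ∀ b : Fin (u * t), b.1 < u →
          ω (Sum.inl ((none, {c}), b)) = 0).card : ℕ) * Real.log V +
        2 * (k * h0 * Real.log (((S : ℝ) * V + 1) ^ t * ((u : ℝ) * t + 1) + 1)) +
        2 * k * Real.log 2 + Real.log r)

open Classical in
/-- ONE: the inequality for fixed coins. Proof: sum of SMP over `ω` (`π` by EXM), GAI, WRO, LOS; the sum over `ω` of the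
number of the `c` in the sample is `|Ω| S 2^(-u)` (`JM.count_zero`; `u ≤ u t`). Multiply by `2^(u t) / |Ω|`. -/
def S_ONE : Prop := S_SMP → S_GAI → S_WRO → S_LOS → S_EXM → S_SCA → S_NPI → S_CRD → S_INR →
  S_INC → S_BLK → S_LSB → S_LSD → S_ADV → S_COD → S_WGT →
  ∀ (α A : Type) [Fintype α] [Nonempty α] (k S V W r : ℕ) (L ε : ℝ), 1 < L → 0 ≤ ε →
  ∀ (d : α → α → Bool) (q : Fin r → Fin k → Fin k → QAlg A S V W)
    (a a' : Fin r → Fin k → α → A → Fin W) (φ : (Fin k → α) × (Fin k → α) → Fin r)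
    (T t D : ℕ) (_ : Fin V) (J : (Fin k → α) × (Fin k → α) → Fin S → Fin V),
  HSC t L ε d q a a' T D →
  ∀ (u Λ h0 : ℕ), 1 ≤ t → 0 < Λ → k ≤ Λ * 2 ^ (u * t) → 1 ≤ k → 512 * (t + 2 ^ (t + 1)) ≤ h0 →
  512 * (1 + 2 ^ t * (3 * t) ^ t * Λ) ≤ D →
  ∑ z : (Fin k → α) × (Fin k → α), ∑ e : Fin k × Fin k,
    ((if d (z.1 e.1) (z.2 e.2) = true then Real.log L else 0) - (3 * (t : ℝ)) ^ t *
      ((if (oo t q a a' φ T J z e).1 ≠ some (!(d (z.1 e.1) (z.2 e.2))) then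
        Real.log L + Real.log 2 else 0) + ε)) ≤
    (Fintype.card ((Fin k → α) × (Fin k → α)) : ℕ) *
      (Real.log L / 128 * (k : ℝ) ^ 2 + 2 ^ (u * (t - 1)) * (S * Real.log V) +
        2 ^ (u * t) * (Real.log 2 +
          2 * (k * h0 * Real.log (((S : ℝ) * V + 1) ^ t * ((u : ℝ) * t + 1) + 1)) +
          2 * k * Real.log 2 + Real.log r))

/-- SCQ: copy of `JM.sc_all` (file `JM/Fin2.lean`, lines 12 to 193) with `ε = 1 / (4000 Q)`. -/
def S_SCQ : Prop := ∀ (A : Type) (k S V W Q n T t D b : ℕ), 1 ≤ Q → 1 ≤ n → 1 ≤ W → W ^ T ≤ 2 ^ b →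
  20000 * Q * b ≤ n → 200 * Q * D ≤ n → 1 ≤ k → 8000 * (Q : ℝ) * Real.log (2 * (k : ℝ) ^ 2) ≤ n →
  ∀ (q : Fin k → Fin k → QAlg A S V W) (a a' : Fin k → (Fin n → Fin n) → A → Fin W)
    (P : Fin k × Fin k → Finset (Fin S) → Finset (Fin S) → Bool)
    (ρ : Fin S → Fin V) (H' : Finset (Fin S)) (E : Finset (Fin k × Fin k)),
    SC D (sg q a a' T t P ρ H') (kg (1 + 1 / 160) (1 / (4000 * Q)) dj q a a' T t P ρ H') E ≤
      2 * (Fintype.card ((Fin k → (Fin n → Fin n)) × (Fin k → (Fin n → Fin n))) : ℕ)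

/-- NUM: the numbers. `log L ≥ 1/161`, so the left side is at least `0.0012 k²`. On the right `2^(u t) ≤ 2^t k / Λ`,
`log (...) ≤ (t (l + w + 1) + (u t + 1) + 1) log 2 ≤ 4 t (l + w + 1) log 2` (`u t ≤ t + l`), so by the lower bound for `Λ` the
terms without `r` and `S w` are at most `0.0002 k²`. Hence `0.0005 k² ≤ 2^(u t) r log 2`, which gives the first case, or
`0.0005 k² ≤ 2^(u (t - 1)) S w log 2`; raise this to the power `t` and use `2^(u t) ≤ 2^t k / Λ` again. -/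
def S_NUM : Prop := ∀ (k w l S r Λ t u : ℕ), 1 ≤ t → 1 ≤ k → k ≤ 2 ^ l → S ≤ 2 ^ l →
  2 ^ 28 * t * 4 ^ t * (l + w + 1) ≤ Λ → Λ * 2 ^ (u * t) ≤ 2 ^ t * k →
  (k : ℝ) ^ 2 * (Real.log (1 + 1 / 160) / 4 - (Real.log (1 + 1 / 160) + Real.log 2) / 200000 -
      1 / 4000) ≤
    Real.log (1 + 1 / 160) / 128 * (k : ℝ) ^ 2 +
      2 ^ (u * (t - 1)) * (S * Real.log ((2 ^ w : ℕ) : ℝ)) +
      2 ^ (u * t) * (Real.log 2 +
        2 * (k * (512 * (t + 2 ^ (t + 1)) : ℕ) *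
          Real.log (((S : ℝ) * ((2 ^ w : ℕ) : ℝ) + 1) ^ t * ((u : ℝ) * t + 1) + 1)) +
        2 * k * Real.log 2 + Real.log ((2 ^ r : ℕ) : ℝ)) →
  k * Λ ≤ 1400 * 2 ^ t * r ∨ k ^ (t + 1) * Λ ^ (t - 1) ≤ (1400 * 2 ^ t * (S * w)) ^ t

/-- FNR: arithmetic of the end, first case. -/
def S_FNR : Prop := ∀ (N k D Λ t r : ℕ), 1 ≤ t → N ≤ 800 * (3 * t) ^ t * (k * D) →
  D ≤ 2048 * (6 * t) ^ t * Λ → k * Λ ≤ 1400 * 2 ^ t * r → N ≤ 2 ^ 32 * (6 * t) ^ (2 * t) * r

/-- FNS: arithmetic of the end, second case: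
`N^(t+1) ≤ (800 (3t)^t)^(t+1) k^(t+1) D^(t-1) D²`, `D^(t-1) ≤ (2048 (6t)^t)^(t-1) Λ^(t-1)`, so
`N^(t+1) ≤ ((800 (3t)^t)² 2048 (6t)^t 1400 2^t S w)^t D²`, and `800² 2048 1400 ≤ 2^42`, `(108 t³)^t ≤ (5 t)^(3t)`. -/
def S_FNS : Prop := ∀ (N k D Λ t s : ℕ), 1 ≤ t → N ≤ 800 * (3 * t) ^ t * (k * D) →
  D ≤ 2048 * (6 * t) ^ t * Λ → k ^ (t + 1) * Λ ^ (t - 1) ≤ (1400 * 2 ^ t * s) ^ t →
  N ^ (t + 1) ≤ (2 ^ 42 * (5 * t) ^ (3 * t) * s) ^ t * D ^ 2

/-- PAR: choice of `Λ` and `u`: `Λ = D / (1024 (6t)^t)`, `u` minimal with `k ≤ Λ 2^(u t)` (`u ≥ 1` as `Λ < D ≤ k`). -/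
def S_PAR : Prop := ∀ (k D t l w : ℕ), 1 ≤ t → D ≤ k → 2 ^ 42 * (5 * t) ^ (3 * t) * (l + w + 1) ≤ D →
  ∃ Λ u : ℕ, 0 < Λ ∧ k ≤ Λ * 2 ^ (u * t) ∧ Λ * 2 ^ (u * t) ≤ 2 ^ t * k ∧
    D ≤ 2048 * (6 * t) ^ t * Λ ∧ 512 * (1 + 2 ^ t * (3 * t) ^ t * Λ) ≤ D ∧
    2 ^ 28 * t * 4 ^ t * (l + w + 1) ≤ Λ

end Pool.Agent.T2h38.OG
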