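import Mathlib
import Pool.Agent.T2h38.OG.Stm
import Pool.Agent.T2h38.JM.Adv

/-!
# Project OG: task ADV (the main inequality with general advice)
-/

set_option autoImplicit false

namespace Pool.Agent.T2h38.OG

open Finset Pool.Agent.T2h38.JM

open Classical in
theorem t_ADV : S_ADV := by
  intro α A Γ _ _ k S V W r L ε hL d q a a' φ T t D J hSC P g N hN hag0 hR hC
  set Zc : ℝ := ((Fintype.card ((Fin k → α) × (Fin k → α)) : ℕ) : ℝ) with hZc
  have hZ0 : 0 < Zc := by
    rw [hZc]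
    exact_mod_cast Fintype.card_pos
  set PP : Γ → Fin k × Fin k → Finset (Fin S) → Finset (Fin S) → Bool :=
    fun γ' e _ acc => P γ' e acc with hPP
  set F : Fin r × (Fin S → Fin V) × Γ × Finset (Fin k) × Finset (Fin k) →
      (Fin k → α) × (Fin k → α) → ℝ := fun γ z =>
    (∏ e ∈ γ.2.2.2.1 ×ˢ γ.2.2.2.2, kg L ε d (q γ.1) (a γ.1) (a' γ.1) T t (PP γ.2.2.1) γ.2.1 ∅ e.1 e.2
      (z.1 e.1) (z.2 e.2)) *
      JM.ind (Cap D (sg (q γ.1) (a γ.1) (a' γ.1) T t (PP γ.2.2.1) γ.2.1 ∅)
        (γ.2.2.2.1 ×ˢ γ.2.2.2.2) z.1 z.2) with hF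
  have hkk : ∀ (o : Option Bool) (x y : α), 0 < kk L (1 / 2) d o x y := by
    intro o x y
    unfold kk
    split_ifs <;> linarith
  have hkg : ∀ x0 ρ (P' : Fin k × Fin k → Finset (Fin S) → Finset (Fin S) → Bool) i j x y,
      0 < kg L ε d (q x0) (a x0) (a' x0) T t P' ρ ∅ i j x y := by
    intro x0 ρ P' i j x y
    unfold kg
    split_ifs
    · exact mul_pos (Real.exp_pos _) (hkk _ _ _)
    · exact one_pos
  have hF0 : ∀ γ z, 0 ≤ F γ z := fun γ z =>
    mul_nonneg (Finset.prod_nonneg fun e _ => (hkg _ _ _ _ _ _ _).le) (ind_nonneg _)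
  have hFsum : ∀ γ, ∑ z, F γ z ≤ 2 * Zc := by
    intro γ
    rw [Fintype.sum_prod_type]
    exact hSC (PP γ.2.2.1) γ.1 γ.2.1 ∅ (γ.2.2.2.1 ×ˢ γ.2.2.2.2)
  set γ : (Fin k → α) × (Fin k → α) →
      Fin r × (Fin S → Fin V) × Γ × Finset (Fin k) × Finset (Fin k) :=
    fun z => (φ z, g z) with hγ
  -- the simulation agrees with the real run
  have hagree : ∀ z (e : Fin k × Fin k),
      sg (q (φ z)) (a (φ z)) (a' (φ z)) T t (PP (g z).2.1) (g z).1 ∅ e.1 e.2
        (z.1 e.1) (z.2 e.2) = P (g z).2.1 e (cc t q a a' φ T J z e) ∧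
      (P (g z).2.1 e (cc t q a a' φ T J z e) = true →
        ((q (φ z) e.1 e.2).run (g z).1 (a (φ z) e.1 (z.1 e.1))
          (a' (φ z) e.2 (z.2 e.2)) T t ∅).1 = (oo t q a a' φ T J z e).1) := by
    intro z e
    have hag := run_agree (g z).1 (J z) (univ.filter fun c => (g z).1 c = J z c) (fun c hc => by
      rw [mem_filter] at hc
      exact hc.2) (a (φ z) e.1 (z.1 e.1)) (a' (φ z) e.2 (z.2 e.2)) (q (φ z) e.1 e.2) T t ∅
    unfold cc oo sg
    rcases hag with h1 | ⟨c, hc, h1, h2⟩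
    · rw [h1]
      exact ⟨rfl, fun _ => rfl⟩
    · have hc' : ¬ (g z).1 c = J z c := fun h => hc (mem_filter.mpr ⟨mem_univ _, h⟩)
      have h3 : ∀ acc : Finset (Fin S), c ∈ acc → P (g z).2.1 e acc = false := by
        intro acc hacc
        by_contra hcon
        rw [Bool.not_eq_false] at hcon
        exact hc' (hag0 z e acc hcon c hacc)
      have h4 := h3 _ h1
      have h5 := h3 _ h2
      refine ⟨?_, fun h6 => ?_⟩
      · show P (g z).2.1 e _ = P (g z).2.1 e _
        rw [h4, h5]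
      · rw [h5] at h6
        exact absurd h6 (by simp)
  -- the cap holds
  have hcap : ∀ z, Cap D (sg (q (φ z)) (a (φ z)) (a' (φ z)) T t (PP (g z).2.1) (g z).1 ∅)
      ((g z).2.2.1 ×ˢ (g z).2.2.2) z.1 z.2 := by
    intro z
    refine ⟨fun i => ?_, fun j => ?_⟩
    · unfold rowc
      by_cases hi : i ∈ (g z).2.2.1
      · refine (Finset.card_le_card ?_).trans (hR z i hi)
        intro e he
        rw [mem_filter] at he ⊢
        refine ⟨he.1, he.2.1, ?_⟩
        rw [← (hagree z e).1]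
        exact he.2.2
      · have : (((g z).2.2.1 ×ˢ (g z).2.2.2).filter fun e => e.1 = i ∧
            sg (q (φ z)) (a (φ z)) (a' (φ z)) T t (PP (g z).2.1) (g z).1 ∅ e.1 e.2
              (z.1 e.1) (z.2 e.2) = true) = ∅ := by
          rw [Finset.filter_eq_empty_iff]
          rintro e he ⟨h1, _⟩
          rw [mem_product] at he
          exact hi (h1 ▸ he.1)
        rw [this]
        simp
    · unfold colc
      by_cases hi : j ∈ (g z).2.2.2
      · refine (Finset.card_le_card ?_).trans (hC z j hi)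
        intro e he
        rw [mem_filter] at he ⊢
        refine ⟨he.1, he.2.1, ?_⟩
        rw [← (hagree z e).1]
        exact he.2.2
      · have : (((g z).2.2.1 ×ˢ (g z).2.2.2).filter fun e => e.2 = j ∧
            sg (q (φ z)) (a (φ z)) (a' (φ z)) T t (PP (g z).2.1) (g z).1 ∅ e.1 e.2
              (z.1 e.1) (z.2 e.2) = true) = ∅ := by
          rw [Finset.filter_eq_empty_iff]
          rintro e he ⟨h1, _⟩
          rw [mem_product] at he
          exact hi (h1 ▸ he.2)
        rw [this]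
        simp
  have hFpos : ∀ z, 0 < F (γ z) z := by
    intro z
    have h1 : F (γ z) z = (∏ e ∈ (g z).2.2.1 ×ˢ (g z).2.2.2,
        kg L ε d (q (φ z)) (a (φ z)) (a' (φ z)) T t (PP (g z).2.1) (g z).1 ∅ e.1 e.2
          (z.1 e.1) (z.2 e.2)) *
        JM.ind (Cap D (sg (q (φ z)) (a (φ z)) (a' (φ z)) T t (PP (g z).2.1) (g z).1 ∅)
          ((g z).2.2.1 ×ˢ (g z).2.2.2) z.1 z.2) := rfl
    rw [h1, ind_true (hcap z), mul_one]
    exact Finset.prod_pos fun e _ => hkg _ _ _ _ _ _ _
  -- the logarithm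
  have hlog : ∀ z, Real.log (F (γ z) z) = ∑ e ∈ ((g z).2.2.1 ×ˢ (g z).2.2.2).filter
      (fun e => P (g z).2.1 e (cc t q a a' φ T J z e) = true),
      Real.log (Real.exp (-ε) * kk L (1 / 2) d (oo t q a a' φ T J z e).1 (z.1 e.1) (z.2 e.2)) := by
    intro z
    have h1 : F (γ z) z = (∏ e ∈ (g z).2.2.1 ×ˢ (g z).2.2.2,
        kg L ε d (q (φ z)) (a (φ z)) (a' (φ z)) T t (PP (g z).2.1) (g z).1 ∅ e.1 e.2
          (z.1 e.1) (z.2 e.2)) *
        JM.ind (Cap D (sg (q (φ z)) (a (φ z)) (a' (φ z)) T t (PP (g z).2.1) (g z).1 ∅)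
          ((g z).2.2.1 ×ˢ (g z).2.2.2) z.1 z.2) := rfl
    rw [h1, ind_true (hcap z), mul_one, Real.log_prod (fun e _ => (hkg _ _ _ _ _ _ _).ne'),
      Finset.sum_filter]
    refine Finset.sum_congr rfl fun e _ => ?_
    unfold kg
    rw [(hagree z e).1]
    split_ifs with h1
    · rw [(hagree z e).2 h1]
    · exact Real.log_one
  -- the number of advices
  have himg : ((univ.image γ).card : ℝ) ≤ (N : ℝ) * ((r : ℕ) : ℝ) := by
    have h1 : (univ.image γ) ⊆ (univ : Finset (Fin r)) ×ˢ (univ.image g) := by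
      intro y hy
      rw [mem_image] at hy
      obtain ⟨z, _, hz⟩ := hy
      rw [mem_product]
      refine ⟨mem_univ _, ?_⟩
      rw [← hz]
      exact mem_image_of_mem g (mem_univ z)
    have h2 := Finset.card_le_card h1
    rw [Finset.card_product, Finset.card_univ, Fintype.card_fin] at h2
    have h3 : (univ.image γ).card ≤ N * r := by
      refine h2.trans ?_
      rw [mul_comm]
      exact Nat.mul_le_mul_right r (by convert hN)
    exact_mod_cast h3
  have hcode : (1 : ℝ) ≤ (N : ℝ) * ((r : ℕ) : ℝ) := by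
    refine le_trans ?_ himg
    have : 0 < (univ.image γ).card := by
      rw [Finset.card_pos]
      exact Finset.Nonempty.image Finset.univ_nonempty γ
    exact_mod_cast this
  have htot : ∑ z, F (γ z) z ≤ (2 * ((N : ℝ) * ((r : ℕ) : ℝ))) * Zc := by
    calc ∑ z, F (γ z) z ≤ ∑ z, ∑ y ∈ univ.image γ, F y z := by
          refine Finset.sum_le_sum fun z _ => ?_
          exact Finset.single_le_sum (f := fun y => F y z) (fun y _ => hF0 y z)
            (Finset.mem_image_of_mem γ (Finset.mem_univ z))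
      _ = ∑ y ∈ univ.image γ, ∑ z, F y z := Finset.sum_comm
      _ ≤ ∑ _y ∈ univ.image γ, 2 * Zc := Finset.sum_le_sum fun y _ => hFsum y
      _ = ((univ.image γ).card : ℝ) * (2 * Zc) := by rw [Finset.sum_const, nsmul_eq_mul]
      _ ≤ (N : ℝ) * ((r : ℕ) : ℝ) * (2 * Zc) :=
          mul_le_mul_of_nonneg_right himg (by positivity)
      _ = _ := by ring
  set c : ℝ := 2 * ((N : ℝ) * ((r : ℕ) : ℝ)) with hc
  have hc0 : 0 < c := by linarith
  have hpt : ∀ z, Real.log (F (γ z) z) ≤ F (γ z) z / c - 1 + Real.log c := by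
    intro z
    have h1 := Real.log_le_sub_one_of_pos (div_pos (hFpos z) hc0)
    rw [Real.log_div (hFpos z).ne' hc0.ne'] at h1
    linarith
  calc _ = ∑ z, Real.log (F (γ z) z) := Finset.sum_congr rfl fun z _ => (hlog z).symm
    _ ≤ ∑ z, (F (γ z) z / c - 1 + Real.log c) := Finset.sum_le_sum fun z _ => hpt z
    _ = (∑ z, F (γ z) z) / c + Zc * (Real.log c - 1) := by
        rw [Finset.sum_add_distrib, Finset.sum_sub_distrib, ← Finset.sum_div, Finset.sum_const,
          Finset.sum_const, Finset.card_univ, nsmul_eq_mul, nsmul_eq_mul]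
        ring
    _ ≤ Zc + Zc * (Real.log c - 1) := by
        have : (∑ z, F (γ z) z) / c ≤ Zc := by
          rw [div_le_iff₀ hc0, mul_comm]
          exact htot
        linarith
    _ = Zc * Real.log c := by ring

end Pool.Agent.T2h38.OG
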