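import Pool.Agent.T2h38.OG.Stm

/-! Arithmetic of the end. -/

set_option autoImplicit false

namespace Pool.Agent.T2h38.OG

theorem t_FNR : S_FNR := by
  intro N k D Λ t r ht hN hD hk
  have e1 : (6 * t) ^ t = 2 ^ t * (3 * t) ^ t := by
    rw [← mul_pow]
    congr 1
    ring
  calc N ≤ 800 * (3 * t) ^ t * (k * D) := hN
    _ ≤ 800 * (3 * t) ^ t * (k * (2048 * (6 * t) ^ t * Λ)) :=
        Nat.mul_le_mul_left _ (Nat.mul_le_mul_left _ hD)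
    _ = 800 * (3 * t) ^ t * (2048 * (6 * t) ^ t) * (k * Λ) := by ring
    _ ≤ 800 * (3 * t) ^ t * (2048 * (6 * t) ^ t) * (1400 * 2 ^ t * r) :=
        Nat.mul_le_mul_left _ hk
    _ = 2293760000 * ((2 ^ t * (3 * t) ^ t) * (6 * t) ^ t * r) := by ring
    _ = 2293760000 * ((6 * t) ^ (2 * t) * r) := by
        rw [← e1, two_mul, pow_add]
    _ ≤ 2 ^ 32 * ((6 * t) ^ (2 * t) * r) := Nat.mul_le_mul_right _ (by norm_num)
    _ = 2 ^ 32 * (6 * t) ^ (2 * t) * r := by ring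

theorem cub (t : ℕ) : ((3 * t) ^ t) ^ 2 * (6 * t) ^ t * 2 ^ t ≤ (5 * t) ^ (3 * t) := by
  have e1 : ((3 * t) ^ t) ^ 2 * (6 * t) ^ t * 2 ^ t = (108 * t ^ 3) ^ t := by
    rw [← pow_mul, mul_comm t 2, pow_mul, ← mul_pow, ← mul_pow]
    congr 1
    ring
  have e2 : (5 * t) ^ (3 * t) = (125 * t ^ 3) ^ t := by
    rw [pow_mul]
    congr 1
    ring
  rw [e1, e2]
  exact Nat.pow_le_pow_left (Nat.mul_le_mul_right _ (by norm_num)) t

theorem t_FNS : S_FNS := by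
  intro N k D Λ t s ht hN hD hk
  obtain ⟨j, rfl⟩ : ∃ j, t = j + 1 := ⟨t - 1, by omega⟩
  rw [Nat.add_sub_cancel] at hk
  obtain ⟨a, ha⟩ : ∃ a : ℕ, a = 800 * (3 * (j + 1)) ^ (j + 1) := ⟨_, rfl⟩
  obtain ⟨b, hb⟩ : ∃ b : ℕ, b = 2048 * (6 * (j + 1)) ^ (j + 1) := ⟨_, rfl⟩
  obtain ⟨c, hc⟩ : ∃ c : ℕ, c = 1400 * 2 ^ (j + 1) * s := ⟨_, rfl⟩
  rw [← ha] at hN
  rw [← hb] at hD
  rw [← hc] at hk
  have ha1 : 1 ≤ a := by
    rw [ha]
    exact Nat.succ_le_of_lt (by positivity)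
  have hb1 : 1 ≤ b := by
    rw [hb]
    exact Nat.succ_le_of_lt (by positivity)
  have h1 : N ^ (j + 1 + 1) ≤ (a * (k * D)) ^ (j + 1 + 1) := Nat.pow_le_pow_left hN _
  have h2 : (a * (k * D)) ^ (j + 1 + 1) = a ^ (j + 1 + 1) * (k ^ (j + 1 + 1) * D ^ j) * D ^ 2 := by
    ring
  have h3 : k ^ (j + 1 + 1) * D ^ j ≤ k ^ (j + 1 + 1) * (b * Λ) ^ j :=
    Nat.mul_le_mul_left _ (Nat.pow_le_pow_left hD _)
  have h4 : k ^ (j + 1 + 1) * (b * Λ) ^ j = b ^ j * (k ^ (j + 1 + 1) * Λ ^ j) := by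
    rw [mul_pow]
    ring
  have h5 : b ^ j * (k ^ (j + 1 + 1) * Λ ^ j) ≤ b ^ (j + 1) * c ^ (j + 1) :=
    Nat.mul_le_mul (Nat.pow_le_pow_right hb1 (by omega)) hk
  have h6 : a ^ (j + 1 + 1) ≤ (a ^ 2) ^ (j + 1) := by
    rw [← pow_mul]
    exact Nat.pow_le_pow_right ha1 (by omega)
  have h7 : a ^ 2 * b * c ≤ 2 ^ 42 * (5 * (j + 1)) ^ (3 * (j + 1)) * s := by
    rw [ha, hb, hc]
    calc (800 * (3 * (j + 1)) ^ (j + 1)) ^ 2 * (2048 * (6 * (j + 1)) ^ (j + 1)) *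
          (1400 * 2 ^ (j + 1) * s) = 1835008000000 *
          ((((3 * (j + 1)) ^ (j + 1)) ^ 2 * (6 * (j + 1)) ^ (j + 1) * 2 ^ (j + 1)) * s) := by ring
      _ ≤ 1835008000000 * ((5 * (j + 1)) ^ (3 * (j + 1)) * s) :=
          Nat.mul_le_mul_left _ (Nat.mul_le_mul_right _ (cub (j + 1)))
      _ ≤ 2 ^ 42 * ((5 * (j + 1)) ^ (3 * (j + 1)) * s) := Nat.mul_le_mul_right _ (by norm_num)
      _ = 2 ^ 42 * (5 * (j + 1)) ^ (3 * (j + 1)) * s := by ring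
  calc N ^ (j + 1 + 1) ≤ a ^ (j + 1 + 1) * (k ^ (j + 1 + 1) * D ^ j) * D ^ 2 := by
        rw [← h2]
        exact h1
    _ ≤ (a ^ 2) ^ (j + 1) * (b ^ (j + 1) * c ^ (j + 1)) * D ^ 2 :=
        Nat.mul_le_mul_right _ (Nat.mul_le_mul h6 ((h3.trans h4.le).trans h5))
    _ = (a ^ 2 * b * c) ^ (j + 1) * D ^ 2 := by
        rw [mul_pow, mul_pow]
        ring
    _ ≤ (2 ^ 42 * (5 * (j + 1)) ^ (3 * (j + 1)) * s) ^ (j + 1) * D ^ 2 :=
        Nat.mul_le_mul_right _ (Nat.pow_le_pow_left h7 _)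

theorem big (t : ℕ) (ht : 1 ≤ t) : t * (4 ^ t * (6 * t) ^ t) ≤ (5 * t) ^ (3 * t) := by
  have e2 : (5 * t) ^ (3 * t) = (125 * t ^ 3) ^ t := by
    rw [pow_mul]
    congr 1
    ring
  have e3 : 4 ^ t * (6 * t) ^ t = (24 * t) ^ t := by
    rw [← mul_pow]
    congr 1
    ring
  rw [e2, e3]
  have h1 : t ≤ (5 * t ^ 2) ^ t := by
    have h2 : 5 * t ^ 2 ≤ (5 * t ^ 2) ^ t := Nat.le_self_pow (by omega) _
    nlinarith
  calc t * (24 * t) ^ t ≤ (5 * t ^ 2) ^ t * (24 * t) ^ t := Nat.mul_le_mul_right _ h1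
    _ = (120 * t ^ 3) ^ t := by
        rw [← mul_pow]
        congr 1
        ring
    _ ≤ (125 * t ^ 3) ^ t :=
        Nat.pow_le_pow_left (Nat.mul_le_mul_right _ (by norm_num)) t

theorem t_PAR : S_PAR := by
  intro k D t l w ht hDk hD
  obtain ⟨q, hq⟩ : ∃ q : ℕ, q = (6 * t) ^ t := ⟨_, rfl⟩
  have hq1 : 1 ≤ q := by
    rw [hq]
    exact Nat.one_le_pow _ _ (by omega)
  have hqt : 2 ^ t * (3 * t) ^ t = q := by
    rw [hq, ← mul_pow]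
    congr 1
    ring
  obtain ⟨Λ, hΛ⟩ : ∃ Λ : ℕ, Λ = D / (1024 * q) := ⟨_, rfl⟩
  have hX : 2 ^ 28 * t * 4 ^ t * (l + w + 1) ≤ Λ := by
    rw [hΛ, Nat.le_div_iff_mul_le (by positivity)]
    refine le_trans ?_ hD
    have h1 := big t ht
    rw [← hq] at h1
    calc 2 ^ 28 * t * 4 ^ t * (l + w + 1) * (1024 * q) =
          2 ^ 38 * ((t * (4 ^ t * q)) * (l + w + 1)) := by ring
      _ ≤ 2 ^ 38 * ((5 * t) ^ (3 * t) * (l + w + 1)) :=
          Nat.mul_le_mul_left _ (Nat.mul_le_mul_right _ h1)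
      _ ≤ 2 ^ 42 * ((5 * t) ^ (3 * t) * (l + w + 1)) := Nat.mul_le_mul_right _ (by norm_num)
      _ = 2 ^ 42 * (5 * t) ^ (3 * t) * (l + w + 1) := by ring
  have hΛ0 : 0 < Λ := by
    refine lt_of_lt_of_le ?_ hX
    positivity
  have hA : Λ * (1024 * q) ≤ D := by
    rw [hΛ]
    exact Nat.div_mul_le_self _ _
  have hB : D < (Λ + 1) * (1024 * q) := by
    rw [hΛ]
    exact Nat.lt_mul_of_div_lt (Nat.lt_succ_self _) (by positivity)
  have hΛk : Λ < k := by nlinarith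
  have hex : ∃ u : ℕ, k ≤ Λ * 2 ^ (u * t) := by
    refine ⟨k, ?_⟩
    have h1 : k ≤ 2 ^ (k * t) := by
      have h2 : k ≤ k * t := Nat.le_mul_of_pos_right _ ht
      exact (Nat.lt_two_pow_self.le).trans (Nat.pow_le_pow_right (by norm_num) h2)
    exact h1.trans (Nat.le_mul_of_pos_left _ hΛ0)
  classical
  refine ⟨Λ, Nat.find hex, hΛ0, Nat.find_spec hex, ?_, ?_, ?_, hX⟩
  · have hu : 1 ≤ Nat.find hex := by
      by_contra hc
      have h0 : Nat.find hex = 0 := by omega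
      have h1 := Nat.find_spec hex
      rw [h0] at h1
      simp at h1
      omega
    have h2 := Nat.find_min hex (m := Nat.find hex - 1) (by omega)
    rw [not_le] at h2
    have h3 : Nat.find hex * t = t + (Nat.find hex - 1) * t := by
      obtain ⟨v, hv⟩ : ∃ v, Nat.find hex = v + 1 := ⟨Nat.find hex - 1, by omega⟩
      rw [hv, Nat.add_sub_cancel]
      ring
    rw [h3, pow_add]
    calc Λ * (2 ^ t * 2 ^ ((Nat.find hex - 1) * t)) =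
          2 ^ t * (Λ * 2 ^ ((Nat.find hex - 1) * t)) := by ring
      _ ≤ 2 ^ t * k := Nat.mul_le_mul_left _ h2.le
  · rw [← hq]
    nlinarith
  · have h1 : 512 * (1 + 2 ^ t * (3 * t) ^ t * Λ) = 512 + 512 * (q * Λ) := by
      rw [hqt]
      ring
    rw [h1]
    have h2 : 1 ≤ q * Λ := Nat.succ_le_of_lt (Nat.mul_pos (by omega) hΛ0)
    have h3 : Λ * (1024 * q) = 1024 * (q * Λ) := by ring
    omega

end Pool.Agent.T2h38.OG
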