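import Pool.Agent.T2h38.OG.Stm

/-! Task BLK: the heavy blocks of a row or a column. -/

set_option autoImplicit false

namespace Pool.Agent.T2h38.OG

open Finset Pool.Agent.T2h38.JM

theorem blk_aux {k S t : ℕ} (f : Fin k → Finset (Fin S)) (hf : ∀ j, (f j).card ≤ t)
    (v : Fin k ⊕ Fin k) (H : Finset (Blk k S)) (hH : ∀ x ∈ H, x.1 = some v) :
    ∑ x ∈ H, (univ.filter fun j => x.2 ⊆ f j).card ≤ k * 2 ^ t := by
  have h1 := Finset.sum_card_bipartiteAbove_eq_sum_card_bipartiteBelow (s := H)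
    (t := (univ : Finset (Fin k))) (fun (x : Blk k S) j => x.2 ⊆ f j)
  have h2 : ∑ x ∈ H, (univ.filter fun j => x.2 ⊆ f j).card =
      ∑ x ∈ H, ((univ : Finset (Fin k)).bipartiteAbove (fun (x : Blk k S) j => x.2 ⊆ f j) x).card :=
    rfl
  rw [h2, h1]
  have h3 : ∀ j ∈ (univ : Finset (Fin k)),
      (H.bipartiteBelow (fun (x : Blk k S) j => x.2 ⊆ f j) j).card ≤ 2 ^ t := by
    intro j _
    have h4 : (H.bipartiteBelow (fun (x : Blk k S) j => x.2 ⊆ f j) j).card ≤
        (f j).powerset.card := by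
      refine Finset.card_le_card_of_injOn (fun x => x.2) ?_ ?_
      · intro x hx
        simp only [Finset.bipartiteBelow, Finset.coe_filter, Set.mem_ofPred_eq] at hx
        simp only [Finset.coe_powerset, Set.mem_preimage, Set.mem_powerset_iff, Finset.coe_subset]
        exact hx.2
      · intro x hx y hy hxy
        simp only [Finset.bipartiteBelow, Finset.coe_filter, Set.mem_ofPred_eq] at hx hy
        exact Prod.ext ((hH x hx.1).trans (hH y hy.1).symm) hxy
    rw [Finset.card_powerset] at h4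
    exact h4.trans (Nat.pow_le_pow_right (by norm_num) (hf j))
  refine (Finset.sum_le_sum h3).trans ?_
  simp

theorem t_BLK : S_BLK := by
  intro hSCA k S t u Λ hΛ hk o ho v
  have hv1 : ∀ x ∈ hv t u Λ o v, x.1 = some v ∧ x.2.Nonempty ∧ 0 < sca t u Λ o x := by
    intro x hx
    simpa [hv] using hx
  have h1 : ∑ x ∈ hv t u Λ o v, load o x ≤ k * 2 ^ t := by
    cases v with
    | inl i =>
      have h := blk_aux (fun j => o (i, j)) (fun j => ho _) (Sum.inl i) (hv t u Λ o (Sum.inl i))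
        (fun x hx => (hv1 x hx).1)
      refine le_trans (le_of_eq ?_) h
      refine Finset.sum_congr rfl fun x hx => ?_
      have hx1 := (hv1 x hx).1
      obtain ⟨x1, x2⟩ := x
      simp only at hx1
      subst hx1
      rfl
    | inr j =>
      have h := blk_aux (fun i => o (i, j)) (fun i => ho _) (Sum.inr j) (hv t u Λ o (Sum.inr j))
        (fun x hx => (hv1 x hx).1)
      refine le_trans (le_of_eq ?_) h
      refine Finset.sum_congr rfl fun x hx => ?_
      have hx1 := (hv1 x hx).1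
      obtain ⟨x1, x2⟩ := x
      simp only at hx1
      subst hx1
      rfl
  have h2 : Λ * ∑ x ∈ hv t u Λ o v, 2 ^ (u * (t - x.2.card) + sca t u Λ o x) ≤
      Λ * (2 ^ (t + 1) * 2 ^ (u * t)) := by
    calc Λ * ∑ x ∈ hv t u Λ o v, 2 ^ (u * (t - x.2.card) + sca t u Λ o x)
        = ∑ x ∈ hv t u Λ o v, Λ * 2 ^ (u * (t - x.2.card) + sca t u Λ o x) := Finset.mul_sum _ _ _
      _ ≤ ∑ x ∈ hv t u Λ o v, 2 * load o x := Finset.sum_le_sum fun x hx =>
          (hSCA k S t u Λ hΛ hk o x).2.1 (hv1 x hx).2.2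
      _ = 2 * ∑ x ∈ hv t u Λ o v, load o x := (Finset.mul_sum _ _ _).symm
      _ ≤ 2 * (k * 2 ^ t) := Nat.mul_le_mul_left _ h1
      _ ≤ 2 * ((Λ * 2 ^ (u * t)) * 2 ^ t) :=
          Nat.mul_le_mul_left _ (Nat.mul_le_mul_right _ hk)
      _ = Λ * (2 ^ (t + 1) * 2 ^ (u * t)) := by ring
  exact Nat.le_of_mul_le_mul_left h2 hΛ

end Pool.Agent.T2h38.OG
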