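import Pool.Agent.T2h38.OG.Stm

/-! # S_CRD: the number of the bits of a pair and an admissible decomposition is `u t` -/

set_option autoImplicit false

namespace Pool.Agent.T2h38.OG

open Finset

namespace CRD

theorem card_lt {n m : ℕ} (h : m ≤ n) : (univ.filter fun b : Fin n => b.1 < m).card = m := by
  have h1 : (univ.filter fun b : Fin n => b.1 < m) =
      (univ : Finset (Fin m)).map (Fin.castLEEmb h) := by
    ext b
    simp only [mem_filter, mem_univ, true_and, mem_map]
    constructor
    · intro hb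
      exact ⟨⟨b.1, hb⟩, rfl⟩
    · rintro ⟨c, rfl⟩
      exact c.2
  rw [h1, card_map, card_univ, Fintype.card_fin]

end CRD

theorem t_CRD : S_CRD := by
  intro hSCA k S t u Λ hΛ hk o ho e π hπ
  obtain ⟨h1, h2, h3⟩ := hπ
  have hsub : ∀ x ∈ π, x.2 ⊆ o e := fun x hx => by
    rw [← h3]
    exact subset_biUnion_of_mem Prod.snd hx
  have hle : ∀ x ∈ π, x.2.card ≤ t := fun x hx => (card_le_card (hsub x hx)).trans (ho e)
  have hsca : ∀ x ∈ π, sca t u Λ o x ≤ u * x.2.card := fun x hx =>
    (hSCA k S t u Λ hΛ hk o x).2.2.1 (hle x hx)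
  have hcard : (o e).card = ∑ x ∈ π, x.2.card := by
    rw [← h3]
    exact card_biUnion fun x hx y hy hxy => h2 x hx y hy hxy
  have hb : ∀ x ∈ π, (bcr t u Λ o x).card = u * x.2.card - sca t u Λ o x := by
    intro x hx
    unfold bcr
    rw [card_image_of_injective, CRD.card_lt]
    · have := Nat.mul_le_mul_left u (hle x hx)
      omega
    · intro b b' hbb
      simpa using hbb
  have hdis : ∀ x ∈ π, ∀ y ∈ π, x ≠ y → Disjoint (bcr t u Λ o x) (bcr t u Λ o y) := by
    intro x _ y _ hxy
    rw [Finset.disjoint_left]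
    intro c hc hc'
    obtain ⟨b, -, rfl⟩ := mem_image.1 hc
    obtain ⟨b', -, hbb⟩ := mem_image.1 hc'
    have := Sum.inl_injective hbb
    exact hxy (congrArg Prod.fst this).symm
  have hbi : (π.biUnion (bcr t u Λ o)).card = ∑ x ∈ π, (u * x.2.card - sca t u Λ o x) := by
    rw [card_biUnion hdis]
    exact sum_congr rfl hb
  have hsum : ∑ x ∈ π, (u * x.2.card - sca t u Λ o x) + tot t u Λ o π = u * (o e).card := by
    unfold tot
    rw [← sum_add_distrib, hcard, mul_sum]
    exact sum_congr rfl fun x hx => Nat.sub_add_cancel (hsca x hx)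
  have hoe := ho e
  have hmul : u * (t - (o e).card) + u * (o e).card = u * t := by
    rw [← mul_add, Nat.sub_add_cancel hoe]
  unfold crd
  rw [card_union_of_disjoint, hbi, card_image_of_injective, CRD.card_lt]
  · omega
  · omega
  · intro b b' hbb
    simpa using hbb
  · rw [Finset.disjoint_left]
    intro c hc hc'
    obtain ⟨x, -, hx⟩ := mem_biUnion.1 hc
    obtain ⟨b, -, rfl⟩ := mem_image.1 hx
    obtain ⟨b', -, hbb⟩ := mem_image.1 hc'
    exact absurd hbb (by simp)

end Pool.Agent.T2h38.OG
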