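import Pool.Agent.T2h38.OG.Stm

/-! # EXM: there is a largest admissible decomposition -/

set_option autoImplicit false

namespace Pool.Agent.T2h38.OG

open Finset Pool.Agent.T2h38.JM

theorem t_EXM : S_EXM := by
  classical
  intro k S t u Λ o e
  obtain ⟨π0, hπ0⟩ : ∃ π0 : Finset (Blk k S),
      π0 = (o e).image fun c => ((none : Lab k), ({c} : Finset (Fin S))) := ⟨_, rfl⟩
  have hadm : Adm t u Λ o e π0 := by
    refine ⟨?_, ?_, ?_⟩
    · intro x hx
      rw [hπ0, mem_image] at hx
      obtain ⟨c, -, rfl⟩ := hx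
      exact Or.inl ⟨rfl, card_singleton c⟩
    · intro x hx y hy hxy
      rw [hπ0, mem_image] at hx hy
      obtain ⟨c, -, rfl⟩ := hx
      obtain ⟨c', -, rfl⟩ := hy
      show Disjoint ({c} : Finset (Fin S)) {c'}
      rw [disjoint_singleton]
      intro h
      exact hxy (by rw [h])
    · rw [hπ0]
      ext c
      simp only [mem_biUnion, mem_image]
      constructor
      · rintro ⟨x, ⟨c', hc', rfl⟩, hc⟩
        have h1 : c = c' := by simpa using hc
        rw [h1]
        exact hc'
      · intro hc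
        exact ⟨(none, {c}), ⟨c, hc, rfl⟩, by simp⟩
  have hne : (adm t u Λ o e).Nonempty := by
    refine ⟨π0, ?_⟩
    unfold adm
    rw [mem_filter]
    exact ⟨mem_univ _, hadm⟩
  obtain ⟨π, hπ, hmax⟩ := exists_max_image (adm t u Λ o e) (tot t u Λ o) hne
  refine ⟨π, ?_, ?_⟩
  · unfold adm at hπ
    rw [mem_filter] at hπ
    exact hπ.2
  · intro π' hπ'
    refine hmax π' ?_
    unfold adm
    rw [mem_filter]
    exact ⟨mem_univ _, hπ'⟩

end Pool.Agent.T2h38.OG
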