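import Pool.Agent.T2h38.OG.Stm
import Pool.Agent.T2h38.JM.Samp

/-!
# Project OG: task WRO (all survivors)
-/

set_option autoImplicit false

namespace Pool.Agent.T2h38.OG

open Finset Pool.Agent.T2h38.JM

theorem WRO_cz {U : Type} [Fintype U] [I : Fintype (U → Fin 2)] (B : Finset U) (n : ℕ)
    (hB : B.card = n) (P : (U → Fin 2) → Prop) [hd : DecidablePred P]
    (hP : ∀ ω, P ω ↔ ∀ y ∈ B, ω y = 0) :
    ∑ ω : U → Fin 2, (if P ω then (1 : ℝ) else 0) =
      ((Fintype.card (U → Fin 2) : ℕ) : ℝ) / 2 ^ n := by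
  classical
  have h := count_zero 1 B
  rw [hB] at h
  have e2 : ((1 : ℕ) : ℝ) + 1 = 2 := by norm_num
  rw [e2] at h
  rw [eq_div_iff (by positivity), mul_comm]
  have e3 : I = Pi.instFintype := Subsingleton.elim _ _
  subst e3
  rw [← h]
  congr 1
  refine Finset.sum_congr rfl fun ω _ => ?_
  by_cases h1 : P ω
  · rw [if_pos h1, if_pos ((hP ω).1 h1)]
  · rw [if_neg h1, if_neg (fun h2 => h1 ((hP ω).2 h2))]

open Classical in
theorem t_WRO : S_WRO := by
  intro hSCA hNPI hCRD k S t u Λ ht hΛ hk o ho x hx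
  have hC := hCRD hSCA k S t u Λ hΛ hk o ho
  have hN := hNPI k S t u Λ ht o ho
  set NΩ : ℝ := ((Fintype.card (Om k S (u * t)) : ℕ) : ℝ) with hNΩ
  have hN0 : 0 ≤ NΩ := Nat.cast_nonneg _
  have hp : (0 : ℝ) < 2 ^ (u * t) := by positivity
  -- one decomposition
  have h1 : ∀ e, ∀ π ∈ adm t u Λ o e, ∑ ω : Om k S (u * t),
      (if zer (crd t u Λ o e π) ω then (1 : ℝ) else 0) = NΩ / 2 ^ (u * t) := by
    intro e π hπ
    have hA : Adm t u Λ o e π := (mem_filter.1 hπ).2
    exact WRO_cz (crd t u Λ o e π) (u * t) (hC e π hA) (fun ω => zer (crd t u Λ o e π) ω)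
      (fun ω => Iff.rfl)
  -- one pair
  have h3 : ∀ e, ∑ ω : Om k S (u * t), (if Sv t u Λ o ω e then (1 : ℝ) else 0) ≤
      (3 * (t : ℝ)) ^ t * (NΩ / 2 ^ (u * t)) := by
    intro e
    calc ∑ ω : Om k S (u * t), (if Sv t u Λ o ω e then (1 : ℝ) else 0)
        ≤ ∑ ω : Om k S (u * t), ∑ π ∈ adm t u Λ o e,
            (if zer (crd t u Λ o e π) ω then (1 : ℝ) else 0) := by
          refine Finset.sum_le_sum fun ω _ => ?_
          split_ifs with h
          · obtain ⟨π, hA, hz⟩ := h
            have hm : π ∈ adm t u Λ o e := mem_filter.2 ⟨mem_univ _, hA⟩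
            have h4 := Finset.single_le_sum (f := fun π =>
              (if zer (crd t u Λ o e π) ω then (1 : ℝ) else 0))
              (fun π' _ => by split_ifs <;> norm_num) hm
            refine le_trans ?_ h4
            show (1 : ℝ) ≤ if zer (crd t u Λ o e π) ω then (1 : ℝ) else 0
            rw [if_pos hz]
          · exact Finset.sum_nonneg fun π' _ => by split_ifs <;> norm_num
      _ = ∑ π ∈ adm t u Λ o e, ∑ ω : Om k S (u * t),
            (if zer (crd t u Λ o e π) ω then (1 : ℝ) else 0) := Finset.sum_comm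
      _ = ∑ _π ∈ adm t u Λ o e, NΩ / 2 ^ (u * t) := Finset.sum_congr rfl fun π hπ => h1 e π hπ
      _ = ((adm t u Λ o e).card : ℝ) * (NΩ / 2 ^ (u * t)) := by
          rw [Finset.sum_const, nsmul_eq_mul]
      _ ≤ _ := by
          refine mul_le_mul_of_nonneg_right ?_ (by positivity)
          have h5 := hN e
          exact_mod_cast h5
  -- sum
  have h6 : ∑ ω : Om k S (u * t), ∑ e ∈ sal t u Λ o ω, x e =
      ∑ e, x e * ∑ ω : Om k S (u * t), (if Sv t u Λ o ω e then (1 : ℝ) else 0) := by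
    calc ∑ ω : Om k S (u * t), ∑ e ∈ sal t u Λ o ω, x e
        = ∑ ω : Om k S (u * t), ∑ e, (if Sv t u Λ o ω e then x e else 0) := by
          refine Finset.sum_congr rfl fun ω _ => ?_
          unfold sal
          rw [Finset.sum_filter]
      _ = ∑ e, ∑ ω : Om k S (u * t), (if Sv t u Λ o ω e then x e else 0) := Finset.sum_comm
      _ = _ := by
          refine Finset.sum_congr rfl fun e _ => ?_
          rw [Finset.mul_sum]
          refine Finset.sum_congr rfl fun ω _ => ?_
          split_ifs <;> simp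
  rw [h6]
  calc ∑ e, x e * ∑ ω : Om k S (u * t), (if Sv t u Λ o ω e then (1 : ℝ) else 0)
      ≤ ∑ e, x e * ((3 * (t : ℝ)) ^ t * (NΩ / 2 ^ (u * t))) :=
        Finset.sum_le_sum fun e _ => mul_le_mul_of_nonneg_left (h3 e) (hx e)
    _ = _ := by
        rw [← Finset.sum_mul]
        ring

end Pool.Agent.T2h38.OG
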