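import Mathlib
import Pool.Agent.T2h38.OG.Stm
import Pool.Agent.T2h38.OG.T_WRO

set_option autoImplicit false

namespace Pool.Agent.T2h38.OG

open Finset Pool.Agent.T2h38.JM

theorem t_GAI : S_GAI := by
  classical
  intro hSCA hCRD k S t u Λ hΛ hk o ho π hπ x
  have hC := hCRD hSCA k S t u Λ hΛ hk o ho
  have h1 : ∀ e, ∑ ω : Om k S (u * t),
      (if zer (crd t u Λ o e (π e)) ω then (1 : ℝ) else 0) =
      ((Fintype.card (Om k S (u * t)) : ℕ) : ℝ) / 2 ^ (u * t) := by
    intro e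
    exact WRO_cz (crd t u Λ o e (π e)) (u * t) (hC e (π e) (hπ e))
      (fun ω => zer (crd t u Λ o e (π e)) ω) (fun ω => Iff.rfl)
  have h2 : ∀ ω : Om k S (u * t), ∑ e ∈ sup t u Λ o ω π, x e =
      ∑ e, x e * (if zer (crd t u Λ o e (π e)) ω then (1 : ℝ) else 0) := by
    intro ω
    unfold sup
    rw [Finset.sum_filter]
    refine Finset.sum_congr rfl fun e _ => ?_
    by_cases h : zer (crd t u Λ o e (π e)) ω
    · rw [if_pos h, if_pos h, mul_one]
    · rw [if_neg h, if_neg h, mul_zero]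
  rw [Finset.sum_congr rfl fun ω _ => h2 ω, Finset.sum_comm]
  have h3 : ∀ e, ∑ ω : Om k S (u * t), x e *
      (if zer (crd t u Λ o e (π e)) ω then (1 : ℝ) else 0) =
      ((Fintype.card (Om k S (u * t)) : ℕ) : ℝ) * (x e / 2 ^ (u * t)) := by
    intro e
    rw [← Finset.mul_sum, h1 e]
    ring
  rw [Finset.sum_congr rfl fun e _ => h3 e, ← Finset.mul_sum, Finset.sum_div]

end Pool.Agent.T2h38.OG
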