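import Pool.Agent.T2h38.OG.Stm

/-!
# Project OG, tasks INC: intersections in a column (with a core lemma for rows and columns)
-/

set_option autoImplicit false

namespace Pool.Agent.T2h38.OG

open Finset Pool.Agent.T2h38.JM

namespace Inc

variable {k S : ℕ}

theorem adm_nonempty {t u Λ : ℕ} {o : Fin k × Fin k → Finset (Fin S)} {e : Fin k × Fin k}
    {π : Finset (Blk k S)} (hA : Adm t u Λ o e π) {x : Blk k S} (hx : x ∈ π) : x.2.Nonempty := by
  rcases hA.1 x hx with ⟨-, h⟩ | ⟨-, h, -⟩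
  · rw [← Finset.card_pos, h]
    exact Nat.one_pos
  · exact h

theorem adm_sub {t u Λ : ℕ} {o : Fin k × Fin k → Finset (Fin S)} {e : Fin k × Fin k}
    {π : Finset (Blk k S)} (hA : Adm t u Λ o e π) {x : Blk k S} (hx : x ∈ π) : x.2 ⊆ o e := by
  rw [← hA.2.2]
  exact Finset.subset_biUnion_of_mem Prod.snd hx

theorem adm_union {t u Λ : ℕ} {o : Fin k × Fin k → Finset (Fin S)} {e : Fin k × Fin k}
    {π : Finset (Blk k S)} (hA : Adm t u Λ o e π) {s : Finset (Blk k S)} (hs : s ⊆ π) :
    s.biUnion Prod.snd ⊆ o e := by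
  rw [← hA.2.2]
  exact Finset.biUnion_subset_biUnion_of_subset_left _ hs

theorem adm_card {t u Λ : ℕ} {o : Fin k × Fin k → Finset (Fin S)} {e : Fin k × Fin k}
    {π : Finset (Blk k S)} (hA : Adm t u Λ o e π) {s : Finset (Blk k S)} (hs : s ⊆ π) :
    (s.biUnion Prod.snd).card = ∑ x ∈ s, x.2.card := by
  apply Finset.card_biUnion
  intro x hx y hy hxy
  exact hA.2.1 x (hs hx) y (hs hy) hxy

theorem adm_len {t u Λ : ℕ} {o : Fin k × Fin k → Finset (Fin S)} {e : Fin k × Fin k}
    {π : Finset (Blk k S)} (hA : Adm t u Λ o e π) : π.card ≤ (o e).card := by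
  rw [← hA.2.2, adm_card hA (Finset.Subset.refl π), Finset.card_eq_sum_ones]
  apply Finset.sum_le_sum
  intro x hx
  exact Finset.card_pos.2 (adm_nonempty hA hx)

/-- the weight of a set of blocks -/
noncomputable def wt (t u Λ : ℕ) (o : Fin k × Fin k → Finset (Fin S)) (s : Finset (Blk k S)) : ℕ :=
  ∑ x ∈ s, (u * x.2.card - sca t u Λ o x)

theorem bcr_card (t u Λ : ℕ) (o : Fin k × Fin k → Finset (Fin S)) (x : Blk k S) :
    (bcr t u Λ o x).card ≤ u * x.2.card - sca t u Λ o x := by
  unfold bcr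
  refine Finset.card_image_le.trans ?_
  have h1 : (univ.filter fun b : Fin (u * t) => b.1 < u * x.2.card - sca t u Λ o x).card =
      ((univ.filter fun b : Fin (u * t) => b.1 < u * x.2.card - sca t u Λ o x).image Fin.val).card :=
    (Finset.card_image_of_injective _ Fin.val_injective).symm
  rw [h1]
  calc _ ≤ (Finset.range (u * x.2.card - sca t u Λ o x)).card := by
        apply Finset.card_le_card
        intro y hy
        obtain ⟨b, hb, rfl⟩ := Finset.mem_image.1 hy
        exact Finset.mem_range.2 (Finset.mem_filter.1 hb).2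
    _ = _ := Finset.card_range _

theorem inter_card (t u Λ : ℕ) (o : Fin k × Fin k → Finset (Fin S)) (e e' : Fin k × Fin k)
    (hne : e ≠ e') (π π' : Finset (Blk k S)) :
    (crd t u Λ o e π ∩ crd t u Λ o e' π').card ≤ wt t u Λ o (π ∩ π') := by
  have h1 : crd t u Λ o e π ∩ crd t u Λ o e' π' ⊆ (π ∩ π').biUnion (bcr t u Λ o) := by
    intro c hc
    obtain ⟨hc1, hc2⟩ := Finset.mem_inter.1 hc
    unfold crd at hc1 hc2
    rcases Finset.mem_union.1 hc1 with h1 | h1
    · obtain ⟨x, hx, hxc⟩ := Finset.mem_biUnion.1 h1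
      obtain ⟨b, -, hb⟩ := Finset.mem_image.1 hxc
      rcases Finset.mem_union.1 hc2 with h2 | h2
      · obtain ⟨x', hx', hxc'⟩ := Finset.mem_biUnion.1 h2
        obtain ⟨b', -, hb'⟩ := Finset.mem_image.1 hxc'
        have h3 : x = x' := by
          rw [← hb'] at hb
          have := Sum.inl.inj hb
          exact congrArg Prod.fst this
        subst h3
        exact Finset.mem_biUnion.2 ⟨x, Finset.mem_inter.2 ⟨hx, hx'⟩, hxc⟩
      · obtain ⟨b', -, hb'⟩ := Finset.mem_image.1 h2
        rw [← hb'] at hb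
        exact absurd hb (by simp)
    · obtain ⟨b, -, hb⟩ := Finset.mem_image.1 h1
      rcases Finset.mem_union.1 hc2 with h2 | h2
      · obtain ⟨x', hx', hxc'⟩ := Finset.mem_biUnion.1 h2
        obtain ⟨b', -, hb'⟩ := Finset.mem_image.1 hxc'
        rw [← hb'] at hb
        exact absurd hb (by simp)
      · obtain ⟨b', -, hb'⟩ := Finset.mem_image.1 h2
        rw [← hb'] at hb
        have := Sum.inr.inj hb
        exact absurd (congrArg Prod.fst this) hne
  refine (Finset.card_le_card h1).trans (Finset.card_biUnion_le.trans ?_)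
  unfold wt
  exact Finset.sum_le_sum fun x _ => bcr_card t u Λ o x

/-- the scale of the union -/
theorem sca_union {t u Λ : ℕ} {o : Fin k × Fin k → Finset (Fin S)} {e : Fin k × Fin k}
    {π : Finset (Blk k S)} (hM : Mx t u Λ o e π) {s : Finset (Blk k S)} (hs : s ⊆ π)
    (hs0 : s.Nonempty) (v : Fin k ⊕ Fin k) (hv : v = Sum.inl e.1 ∨ v = Sum.inr e.2) :
    sca t u Λ o (some v, s.biUnion Prod.snd) ≤ ∑ x ∈ s, sca t u Λ o x := by
  by_contra hcon
  push Not at hcon
  have hA := hM.1
  set K := s.biUnion Prod.snd with hK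
  have hKne : K.Nonempty := by
    obtain ⟨x, hx⟩ := hs0
    obtain ⟨c, hc⟩ := adm_nonempty hA (hs hx)
    exact ⟨c, Finset.mem_biUnion.2 ⟨x, hx, hc⟩⟩
  obtain ⟨R, hR1, hR2, hR3, hR4⟩ : ∃ R : Finset (Blk k S), (∀ x ∈ R, x ∈ π) ∧ (∀ x ∈ R, x ∉ s) ∧
      s.biUnion Prod.snd ∪ R.biUnion Prod.snd = π.biUnion Prod.snd ∧
      ∑ x ∈ R, sca t u Λ o x + ∑ x ∈ s, sca t u Λ o x = ∑ x ∈ π, sca t u Λ o x := by
    refine ⟨π \ s, fun x hx => (Finset.mem_sdiff.1 hx).1, fun x hx => (Finset.mem_sdiff.1 hx).2, ?_,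
      Finset.sum_sdiff hs⟩
    rw [← Finset.union_biUnion, Finset.union_sdiff_of_subset hs]
  have hdis : ∀ x ∈ R, Disjoint x.2 K := by
    intro x hx
    rw [hK, Finset.disjoint_biUnion_right]
    intro y hy
    have hx1 := hR1 x hx
    have hx2 := hR2 x hx
    exact hA.2.1 x hx1 y (hs hy) (fun h => hx2 (h ▸ hy))
  have hnot : ((some v, K) : Blk k S) ∉ R := by
    intro h
    have h1 := hdis _ h
    have h2 : K = ∅ := disjoint_self.1 h1
    rw [h2] at hKne
    exact Finset.not_nonempty_empty hKne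
  have hadm : Adm t u Λ o e (insert ((some v, K) : Blk k S) R) := by
    refine ⟨?_, ?_, ?_⟩
    · intro x hx
      rcases Finset.mem_insert.1 hx with rfl | hx
      · right
        refine ⟨?_, hKne, by omega⟩
        rcases hv with h | h
        · left
          rw [h]
        · right
          rw [h]
      · exact hA.1 x (hR1 x hx)
    · intro x hx y hy hxy
      rcases Finset.mem_insert.1 hx with rfl | hx
      · rcases Finset.mem_insert.1 hy with rfl | hy
        · exact absurd rfl hxy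
        · exact (hdis y hy).symm
      · rcases Finset.mem_insert.1 hy with rfl | hy
        · exact hdis x hx
        · exact hA.2.1 x (hR1 x hx) y (hR1 y hy) hxy
    · rw [Finset.biUnion_insert, ← hA.2.2]
      exact hR3
  have hmax := hM.2 _ hadm
  unfold tot at hmax
  rw [Finset.sum_insert hnot] at hmax
  have h5 : sca t u Λ o (some v, K) + ∑ x ∈ R, sca t u Λ o x ≤
      ∑ x ∈ R, sca t u Λ o x + ∑ x ∈ s, sca t u Λ o x := hmax.trans hR4.ge
  clear hmax hR4
  omega

/-- the core: intersections in a row or a column -/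
theorem core (hSCA : S_SCA) (hNPI : S_NPI) (t u Λ : ℕ) (ht : 1 ≤ t) (hΛ : 0 < Λ)
    (hk : k ≤ Λ * 2 ^ (u * t)) (o : Fin k × Fin k → Finset (Fin S)) (ho : ∀ e, (o e).card ≤ t)
    (e : Fin k × Fin k) (π : Finset (Blk k S)) (hM : Mx t u Λ o e π) (Q : Finset (Fin k × Fin k))
    (v : Fin k ⊕ Fin k) (hv : v = Sum.inl e.1 ∨ v = Sum.inr e.2)
    (hQ1 : ∀ K : Finset (Fin S), (Q.filter (fun e' => K ⊆ o e')).card ≤ load o (some v, K))
    (hQ2 : Q.card ≤ k) (hQ3 : e ∉ Q) :
    ∑ e' ∈ Q, ∑ π' ∈ adm t u Λ o e', 2 ^ (crd t u Λ o e π ∩ crd t u Λ o e' π').card ≤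
      2 ^ t * (3 * t) ^ t * Λ * 2 ^ (u * t) := by
  have hA := hM.1
  -- one pair
  have h1 : ∀ e' ∈ Q, ∀ π' ∈ adm t u Λ o e', 2 ^ (crd t u Λ o e π ∩ crd t u Λ o e' π').card ≤
      ∑ s ∈ π.powerset, (if s.biUnion Prod.snd ⊆ o e' then 2 ^ wt t u Λ o s else 0) := by
    intro e' he' π' hπ'
    have hne : e ≠ e' := fun h => hQ3 (h ▸ he')
    have hA' : Adm t u Λ o e' π' := by
      simpa only [adm, Finset.mem_filter, Finset.mem_univ, true_and] using hπ'
    have h2 : (if (π ∩ π').biUnion Prod.snd ⊆ o e' then 2 ^ wt t u Λ o (π ∩ π') else 0) ≤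
        ∑ s ∈ π.powerset, (if s.biUnion Prod.snd ⊆ o e' then 2 ^ wt t u Λ o s else 0) :=
      Finset.single_le_sum (f := fun s : Finset (Blk k S) =>
        (if s.biUnion Prod.snd ⊆ o e' then 2 ^ wt t u Λ o s else 0))
        (fun _ _ => Nat.zero_le _) (Finset.mem_powerset.2 Finset.inter_subset_left)
    rw [if_pos (adm_union hA' Finset.inter_subset_right)] at h2
    exact (Nat.pow_le_pow_right (by norm_num) (inter_card t u Λ o e e' hne π π')).trans h2
  -- sum over the decompositions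
  have h2 : ∀ e' ∈ Q, ∑ π' ∈ adm t u Λ o e', 2 ^ (crd t u Λ o e π ∩ crd t u Λ o e' π').card ≤
      (3 * t) ^ t * ∑ s ∈ π.powerset, (if s.biUnion Prod.snd ⊆ o e' then 2 ^ wt t u Λ o s else 0) := by
    intro e' he'
    refine (Finset.sum_le_card_nsmul _ _ _ (h1 e' he')).trans ?_
    rw [smul_eq_mul]
    exact Nat.mul_le_mul_right _ (hNPI k S t u Λ ht o ho e')
  refine (Finset.sum_le_sum h2).trans ?_
  rw [← Finset.mul_sum, Finset.sum_comm]
  -- one set of blocks
  have h3 : ∀ s ∈ π.powerset, ∑ e' ∈ Q, (if s.biUnion Prod.snd ⊆ o e' then 2 ^ wt t u Λ o s else 0) ≤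
      Λ * 2 ^ (u * t) := by
    intro s hs
    have hs' := Finset.mem_powerset.1 hs
    rw [← Finset.sum_filter, Finset.sum_const, smul_eq_mul]
    rcases s.eq_empty_or_nonempty with rfl | hs0
    · have h4 : (Q.filter (fun e' => (∅ : Finset (Blk k S)).biUnion Prod.snd ⊆ o e')).card ≤ k :=
        (Finset.card_filter_le _ _).trans hQ2
      have h5 : wt t u Λ o (∅ : Finset (Blk k S)) = 0 := by
        unfold wt
        exact Finset.sum_empty
      rw [h5, pow_zero, mul_one]
      exact h4.trans hk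
    · have hKt : (s.biUnion Prod.snd).card ≤ t := (Finset.card_le_card (adm_union hA hs')).trans (ho e)
      have h4 := hQ1 (s.biUnion Prod.snd)
      have h5 := (hSCA k S t u Λ hΛ hk o (some v, s.biUnion Prod.snd)).1
      have h6 := sca_union hM hs' hs0 v hv
      have h7 : wt t u Λ o s + ∑ x ∈ s, sca t u Λ o x = u * (s.biUnion Prod.snd).card := by
        rw [adm_card hA hs', Finset.mul_sum]
        unfold wt
        rw [← Finset.sum_add_distrib]
        apply Finset.sum_congr rfl
        intro x hx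
        have h8 : x.2.card ≤ t := (Finset.card_le_card (adm_sub hA (hs' hx))).trans (ho e)
        have h9 := (hSCA k S t u Λ hΛ hk o x).2.2.1 h8
        omega
      calc (Q.filter (fun e' => s.biUnion Prod.snd ⊆ o e')).card * 2 ^ wt t u Λ o s
          ≤ (Λ * 2 ^ (u * (t - (s.biUnion Prod.snd).card) + ∑ x ∈ s, sca t u Λ o x)) *
            2 ^ wt t u Λ o s := by
            apply Nat.mul_le_mul_right
            refine h4.trans (h5.trans (Nat.mul_le_mul_left _ ?_))
            exact Nat.pow_le_pow_right (by norm_num) (Nat.add_le_add_left h6 _)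
        _ = Λ * 2 ^ (u * (t - (s.biUnion Prod.snd).card) +
              (wt t u Λ o s + ∑ x ∈ s, sca t u Λ o x)) := by
            rw [mul_assoc, ← pow_add]
            congr 2
            omega
        _ = Λ * 2 ^ (u * t) := by
            rw [h7, ← mul_add]
            congr 3
            omega
  refine (Nat.mul_le_mul_left _ (Finset.sum_le_card_nsmul _ _ _ h3)).trans ?_
  rw [smul_eq_mul, Finset.card_powerset]
  have h4 : 2 ^ π.card ≤ 2 ^ t := Nat.pow_le_pow_right (by norm_num) ((adm_len hA).trans (ho e))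
  calc (3 * t) ^ t * (2 ^ π.card * (Λ * 2 ^ (u * t))) ≤ (3 * t) ^ t * (2 ^ t * (Λ * 2 ^ (u * t))) := by
        gcongr
    _ = 2 ^ t * (3 * t) ^ t * Λ * 2 ^ (u * t) := by ring

end Inc

theorem t_INC : S_INC := by
  intro hSCA hNPI k S t u Λ ht hΛ hk o ho e π hM
  refine Inc.core hSCA hNPI t u Λ ht hΛ hk o ho e π hM _ (Sum.inr e.2) (Or.inr rfl) ?_ ?_ ?_
  · intro K
    have h1 : (((univ.filter (fun e' : Fin k × Fin k => e'.2 = e.2 ∧ e' ≠ e)).filter
        (fun e' => K ⊆ o e')).image Prod.fst).card =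
        ((univ.filter (fun e' : Fin k × Fin k => e'.2 = e.2 ∧ e' ≠ e)).filter
        (fun e' => K ⊆ o e')).card := by
      apply Finset.card_image_of_injOn
      intro a ha b hb hab
      have ha' := (Finset.mem_filter.1 (Finset.mem_filter.1 (Finset.mem_coe.1 ha)).1).2.1
      have hb' := (Finset.mem_filter.1 (Finset.mem_filter.1 (Finset.mem_coe.1 hb)).1).2.1
      exact Prod.ext hab (ha'.trans hb'.symm)
    rw [← h1]
    apply Finset.card_le_card
    intro i hi
    obtain ⟨a, ha, rfl⟩ := Finset.mem_image.1 hi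
    obtain ⟨ha1, ha2⟩ := Finset.mem_filter.1 ha
    have ha3 := (Finset.mem_filter.1 ha1).2.1
    refine Finset.mem_filter.2 ⟨Finset.mem_univ _, ?_⟩
    rw [← ha3]
    exact ha2
  · calc (univ.filter (fun e' : Fin k × Fin k => e'.2 = e.2 ∧ e' ≠ e)).card
        = ((univ.filter (fun e' : Fin k × Fin k => e'.2 = e.2 ∧ e' ≠ e)).image Prod.fst).card := by
          symm
          apply Finset.card_image_of_injOn
          intro a ha b hb hab
          have ha' := (Finset.mem_filter.1 (Finset.mem_coe.1 ha)).2.1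
          have hb' := (Finset.mem_filter.1 (Finset.mem_coe.1 hb)).2.1
          exact Prod.ext hab (ha'.trans hb'.symm)
      _ ≤ Fintype.card (Fin k) := Finset.card_le_univ _
      _ = k := Fintype.card_fin k
  · intro h
    exact (Finset.mem_filter.1 h).2.2 rfl

end Pool.Agent.T2h38.OG
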