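import Pool.Agent.T2h38.OG.Stm

/-!
# OG, task INR (helper94): intersections in the row
-/

set_option autoImplicit false

namespace Pool.Agent.T2h38.OG

open Finset Pool.Agent.T2h38.JM

namespace INR

variable {k S : ℕ}

/-- the number of the bits of a block -/
theorem bcr_card_le (t u Λ : ℕ) (o : Fin k × Fin k → Finset (Fin S)) (x : Blk k S) :
    (bcr t u Λ o x).card ≤ u * x.2.card - sca t u Λ o x := by
  rw [bcr]
  refine Finset.card_image_le.trans ?_
  calc (univ.filter fun b : Fin (u * t) => b.1 < u * x.2.card - sca t u Λ o x).card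
      ≤ (Finset.range (u * x.2.card - sca t u Λ o x)).card := by
        refine Finset.card_le_card_of_injOn (fun b => b.1) ?_ ?_
        · intro b hb
          rw [Finset.coe_range, Set.mem_Iio]
          exact (Finset.mem_filter.1 (Finset.mem_coe.1 hb)).2
        · intro a _ b _ hab
          exact Fin.ext hab
    _ = _ := Finset.card_range _

theorem mem_bcr {t u Λ : ℕ} {o : Fin k × Fin k → Finset (Fin S)} {x : Blk k S} {y : Crd k S (u * t)}
    (h : y ∈ bcr t u Λ o x) : ∃ b, y = Sum.inl (x, b) := by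
  rw [bcr, Finset.mem_image] at h
  obtain ⟨b, -, hb⟩ := h
  exact ⟨b, hb.symm⟩

open Classical in
/-- the common bits of two pairs -/
theorem inter_card (t u Λ : ℕ) (o : Fin k × Fin k → Finset (Fin S)) {e e' : Fin k × Fin k} (hne : e' ≠ e)
    (π π' : Finset (Blk k S)) :
    (crd t u Λ o e π ∩ crd t u Λ o e' π').card ≤ ∑ x ∈ π ∩ π', (u * x.2.card - sca t u Λ o x) := by
  have hsub : crd t u Λ o e π ∩ crd t u Λ o e' π' ⊆ (π ∩ π').biUnion (bcr t u Λ o) := by
    intro y hy
    rw [Finset.mem_inter] at hy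
    obtain ⟨h1, h2⟩ := hy
    rw [crd, Finset.mem_union] at h1 h2
    rcases h1 with h1 | h1 <;> rcases h2 with h2 | h2
    · rw [Finset.mem_biUnion] at h1 h2 ⊢
      obtain ⟨x, hx, hy1⟩ := h1
      obtain ⟨x', hx', hy2⟩ := h2
      obtain ⟨b, hb⟩ := mem_bcr hy1
      obtain ⟨b', hb'⟩ := mem_bcr hy2
      rw [hb] at hb'
      have h3 := congrArg Prod.fst (Sum.inl.inj hb')
      have h4 : x = x' := h3
      subst h4
      exact ⟨x, Finset.mem_inter.2 ⟨hx, hx'⟩, hy1⟩
    · exfalso
      rw [Finset.mem_biUnion] at h1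
      obtain ⟨x, -, hy1⟩ := h1
      obtain ⟨b, hb⟩ := mem_bcr hy1
      rw [Finset.mem_image] at h2
      obtain ⟨c, -, hc⟩ := h2
      rw [hb] at hc
      exact Sum.inr_ne_inl hc
    · exfalso
      rw [Finset.mem_biUnion] at h2
      obtain ⟨x, -, hy1⟩ := h2
      obtain ⟨b, hb⟩ := mem_bcr hy1
      rw [Finset.mem_image] at h1
      obtain ⟨c, -, hc⟩ := h1
      rw [hb] at hc
      exact Sum.inr_ne_inl hc
    · exfalso
      rw [Finset.mem_image] at h1 h2
      obtain ⟨b, -, hb⟩ := h1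
      obtain ⟨b', -, hb'⟩ := h2
      rw [← hb'] at hb
      have h3 := congrArg Prod.fst (Sum.inr.inj hb)
      exact hne h3.symm
  refine (Finset.card_le_card hsub).trans ?_
  refine Finset.card_biUnion_le.trans ?_
  exact Finset.sum_le_sum fun x _ => bcr_card_le t u Λ o x

theorem nonempty {t u Λ : ℕ} {o : Fin k × Fin k → Finset (Fin S)} {e : Fin k × Fin k}
    {π : Finset (Blk k S)} (h : Adm t u Λ o e π) {x : Blk k S} (hx : x ∈ π) : x.2.Nonempty := by
  rcases h.1 x hx with h1 | ⟨-, h1, -⟩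
  · exact Finset.card_pos.1 (by rw [h1.2]; exact one_pos)
  · exact h1

theorem sub_o {t u Λ : ℕ} {o : Fin k × Fin k → Finset (Fin S)} {e : Fin k × Fin k}
    {π : Finset (Blk k S)} (h : Adm t u Λ o e π) {x : Blk k S} (hx : x ∈ π) : x.2 ⊆ o e := by
  rw [← h.2.2]
  exact Finset.subset_biUnion_of_mem Prod.snd hx

theorem card_union {t u Λ : ℕ} {o : Fin k × Fin k → Finset (Fin S)} {e : Fin k × Fin k}
    {π : Finset (Blk k S)} (h : Adm t u Λ o e π) {s : Finset (Blk k S)} (hs : s ⊆ π) :
    (s.biUnion Prod.snd).card = ∑ x ∈ s, x.2.card :=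
  Finset.card_biUnion fun x hx y hy hxy => h.2.1 x (hs hx) y (hs hy) hxy

theorem card_le {t u Λ : ℕ} {o : Fin k × Fin k → Finset (Fin S)} {e : Fin k × Fin k}
    {π : Finset (Blk k S)} (h : Adm t u Λ o e π) : π.card ≤ (o e).card := by
  have h1 := card_union h (Finset.Subset.refl π)
  rw [h.2.2] at h1
  rw [h1, Finset.card_eq_sum_ones]
  exact Finset.sum_le_sum fun x hx => Finset.card_pos.2 (nonempty h hx)

/-- the merged block is not heavier than its parts -/
theorem merge {t u Λ : ℕ} {o : Fin k × Fin k → Finset (Fin S)} {e : Fin k × Fin k}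
    {π : Finset (Blk k S)} (h : Mx t u Λ o e π) {s : Finset (Blk k S)} (hs : s ⊆ π) (hne : s.Nonempty) :
    sca t u Λ o ((some (Sum.inl e.1), s.biUnion Prod.snd) : Blk k S) ≤ ∑ x ∈ s, sca t u Λ o x := by
  classical
  set y : Blk k S := (some (Sum.inl e.1), s.biUnion Prod.snd) with hy
  rcases Nat.eq_zero_or_pos (sca t u Λ o y) with h0 | h0
  · rw [h0]
    exact Nat.zero_le _
  obtain ⟨x₀, hx₀⟩ := hne
  have hyne : y.2.Nonempty := by
    obtain ⟨c, hc⟩ := nonempty h.1 (hs hx₀)
    exact ⟨c, Finset.mem_biUnion.2 ⟨x₀, hx₀, hc⟩⟩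
  -- `y` is disjoint from the other blocks
  have hdis : ∀ x ∈ π \ s, Disjoint y.2 x.2 := by
    intro x hx
    rw [Finset.mem_sdiff] at hx
    rw [hy, Finset.disjoint_biUnion_left]
    intro z hz
    exact h.1.2.1 z (hs hz) x hx.1 (fun hzx => hx.2 (hzx ▸ hz))
  have hynot : y ∉ π \ s := by
    intro hmem
    obtain ⟨c, hc⟩ := hyne
    exact Finset.disjoint_left.1 (hdis y hmem) hc hc
  have hadm : Adm t u Λ o e (insert y (π \ s)) := by
    refine ⟨?_, ?_, ?_⟩
    · intro x hx
      rw [Finset.mem_insert] at hx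
      rcases hx with rfl | hx
      · exact Or.inr ⟨Or.inl rfl, hyne, h0⟩
      · exact h.1.1 x (Finset.mem_sdiff.1 hx).1
    · intro x hx z hz hxz
      rw [Finset.mem_insert] at hx hz
      rcases hx with rfl | hx <;> rcases hz with rfl | hz
      · exact absurd rfl hxz
      · exact hdis z hz
      · exact (hdis x hx).symm
      · exact h.1.2.1 x (Finset.mem_sdiff.1 hx).1 z (Finset.mem_sdiff.1 hz).1 hxz
    · rw [Finset.biUnion_insert]
      have h1 : y.2 ∪ (π \ s).biUnion Prod.snd = (s ∪ (π \ s)).biUnion Prod.snd := by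
        rw [Finset.union_biUnion]
      rw [h1, Finset.union_sdiff_of_subset hs, h.1.2.2]
  have h2 := h.2 _ hadm
  rw [tot, tot, Finset.sum_insert hynot, ← Finset.sum_sdiff hs] at h2
  omega

/-- the contribution of one set of common blocks -/
theorem one_s (hS : S_SCA) {t u Λ : ℕ} (hΛ : 0 < Λ) (hk : k ≤ Λ * 2 ^ (u * t))
    {o : Fin k × Fin k → Finset (Fin S)} (ho : ∀ e, (o e).card ≤ t) {e : Fin k × Fin k}
    {π : Finset (Blk k S)} (h : Mx t u Λ o e π) {s : Finset (Blk k S)} (hs : s ⊆ π) :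
    2 ^ (∑ x ∈ s, (u * x.2.card - sca t u Λ o x)) *
      (univ.filter fun e' : Fin k × Fin k => e'.1 = e.1 ∧ s.biUnion Prod.snd ⊆ o e').card ≤
      Λ * 2 ^ (u * t) := by
  classical
  -- the number of the pairs is the load of the merged block
  have hcard : (univ.filter fun e' : Fin k × Fin k => e'.1 = e.1 ∧ s.biUnion Prod.snd ⊆ o e').card ≤
      (univ.filter fun j : Fin k => s.biUnion Prod.snd ⊆ o (e.1, j)).card := by
    refine Finset.card_le_card_of_injOn Prod.snd ?_ ?_
    · intro e' he'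
      have h1 := (Finset.mem_filter.1 (Finset.mem_coe.1 he')).2
      rw [Finset.mem_coe, Finset.mem_filter]
      refine ⟨Finset.mem_univ _, ?_⟩
      have h2 : (e.1, e'.2) = e' := Prod.ext h1.1.symm rfl
      rw [h2]
      exact h1.2
    · intro a ha b hb hab
      have h1 := (Finset.mem_filter.1 (Finset.mem_coe.1 ha)).2.1
      have h2 := (Finset.mem_filter.1 (Finset.mem_coe.1 hb)).2.1
      exact Prod.ext (h1.trans h2.symm) hab
  rcases s.eq_empty_or_nonempty with rfl | hne
  · rw [Finset.sum_empty, pow_zero, one_mul]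
    refine hcard.trans ((Finset.card_filter_le _ _).trans ?_)
    rw [Finset.card_univ, Fintype.card_fin]
    exact hk
  · have hm := merge h hs hne
    have hK : (s.biUnion Prod.snd).card ≤ t := by
      refine le_trans (Finset.card_le_card ?_) (ho e)
      rw [← h.1.2.2]
      exact Finset.biUnion_subset_biUnion_of_subset_left _ hs
    have hload := (hS k S t u Λ hΛ hk o ((some (Sum.inl e.1), s.biUnion Prod.snd) : Blk k S)).1
    have hsum : ∑ x ∈ s, (u * x.2.card - sca t u Λ o x) + ∑ x ∈ s, sca t u Λ o x =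
        u * (s.biUnion Prod.snd).card := by
      rw [← Finset.sum_add_distrib, card_union h.1 hs, Finset.mul_sum]
      refine Finset.sum_congr rfl fun x hx => ?_
      have h1 : x.2.card ≤ t := (Finset.card_le_card (sub_o h.1 (hs hx))).trans (ho e)
      have h2 := (hS k S t u Λ hΛ hk o x).2.2.1 h1
      omega
    have hut : u * (s.biUnion Prod.snd).card + u * (t - (s.biUnion Prod.snd).card) = u * t := by
      rw [← mul_add]
      congr 1
      omega
    calc 2 ^ (∑ x ∈ s, (u * x.2.card - sca t u Λ o x)) *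
        (univ.filter fun e' : Fin k × Fin k => e'.1 = e.1 ∧ s.biUnion Prod.snd ⊆ o e').card
        ≤ 2 ^ (∑ x ∈ s, (u * x.2.card - sca t u Λ o x)) *
          (Λ * 2 ^ (u * (t - (s.biUnion Prod.snd).card) +
            sca t u Λ o ((some (Sum.inl e.1), s.biUnion Prod.snd) : Blk k S))) :=
          Nat.mul_le_mul_left _ (hcard.trans hload)
      _ ≤ 2 ^ (∑ x ∈ s, (u * x.2.card - sca t u Λ o x)) *
          (Λ * 2 ^ (u * (t - (s.biUnion Prod.snd).card) + ∑ x ∈ s, sca t u Λ o x)) :=
          Nat.mul_le_mul_left _ (Nat.mul_le_mul_left _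
            (Nat.pow_le_pow_right (by norm_num) (Nat.add_le_add_left hm _)))
      _ = Λ * 2 ^ (∑ x ∈ s, (u * x.2.card - sca t u Λ o x) +
          (u * (t - (s.biUnion Prod.snd).card) + ∑ x ∈ s, sca t u Λ o x)) := by
          rw [pow_add 2 (∑ x ∈ s, (u * x.2.card - sca t u Λ o x))]
          ring
      _ = Λ * 2 ^ (u * t) := by
          congr 2
          omega

end INR

theorem t_INR : S_INR := by
  intro hS hN k S t u Λ ht hΛ hk o ho e π hπ
  classical
  set w : Finset (Blk k S) → ℕ := fun s => ∑ x ∈ s, (u * x.2.card - sca t u Λ o x) with hw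
  set E' := univ.filter (fun e' : Fin k × Fin k => e'.1 = e.1 ∧ e' ≠ e) with hE'
  have h1 : ∑ e' ∈ E', ∑ π' ∈ adm t u Λ o e', 2 ^ (crd t u Λ o e π ∩ crd t u Λ o e' π').card ≤
      ∑ e' ∈ E', ∑ π' ∈ adm t u Λ o e', ∑ s ∈ π.powerset, (if s = π ∩ π' then 2 ^ w s else 0) := by
    refine Finset.sum_le_sum fun e' he' => Finset.sum_le_sum fun π' _ => ?_
    have hne : e' ≠ e := (Finset.mem_filter.1 he').2.2
    rw [Finset.sum_ite_eq' π.powerset (π ∩ π') (fun s => 2 ^ w s),
      if_pos (Finset.mem_powerset.2 Finset.inter_subset_left)]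
    exact Nat.pow_le_pow_right (by norm_num) (INR.inter_card t u Λ o hne π π')
  have h2 : ∑ e' ∈ E', ∑ π' ∈ adm t u Λ o e', ∑ s ∈ π.powerset, (if s = π ∩ π' then 2 ^ w s else 0) =
      ∑ s ∈ π.powerset, ∑ e' ∈ E', ∑ π' ∈ adm t u Λ o e', (if s = π ∩ π' then 2 ^ w s else 0) := by
    rw [Finset.sum_comm' (s := π.powerset) (t := fun _ => E') (t' := E') (s' := fun _ => π.powerset)
      (by intro x y; tauto)]
    exact Finset.sum_congr rfl fun e' _ => Finset.sum_comm
  have h3 : ∀ s ∈ π.powerset, ∑ e' ∈ E', ∑ π' ∈ adm t u Λ o e', (if s = π ∩ π' then 2 ^ w s else 0) ≤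
      (3 * t) ^ t * (Λ * 2 ^ (u * t)) := by
    intro s hs
    rw [Finset.mem_powerset] at hs
    have h4 : ∀ e' ∈ E', ∑ π' ∈ adm t u Λ o e', (if s = π ∩ π' then 2 ^ w s else 0) ≤
        if s.biUnion Prod.snd ⊆ o e' then (3 * t) ^ t * 2 ^ w s else 0 := by
      intro e' _
      by_cases hK : s.biUnion Prod.snd ⊆ o e'
      · rw [if_pos hK]
        calc ∑ π' ∈ adm t u Λ o e', (if s = π ∩ π' then 2 ^ w s else 0)
            ≤ ∑ _π' ∈ adm t u Λ o e', 2 ^ w s := by
              refine Finset.sum_le_sum fun π' _ => ?_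
              split_ifs
              · exact le_rfl
              · exact Nat.zero_le _
          _ = (adm t u Λ o e').card * 2 ^ w s := by rw [Finset.sum_const, smul_eq_mul]
          _ ≤ (3 * t) ^ t * 2 ^ w s := Nat.mul_le_mul_right _ (hN k S t u Λ ht o ho e')
      · rw [if_neg hK]
        refine le_of_eq (Finset.sum_eq_zero fun π' hπ' => ?_)
        rw [if_neg]
        intro hsπ
        apply hK
        have hA : Adm t u Λ o e' π' := (Finset.mem_filter.1 hπ').2
        rw [← hA.2.2]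
        refine Finset.biUnion_subset_biUnion_of_subset_left _ ?_
        rw [hsπ]
        exact Finset.inter_subset_right
    calc ∑ e' ∈ E', ∑ π' ∈ adm t u Λ o e', (if s = π ∩ π' then 2 ^ w s else 0)
        ≤ ∑ e' ∈ E', (if s.biUnion Prod.snd ⊆ o e' then (3 * t) ^ t * 2 ^ w s else 0) :=
          Finset.sum_le_sum h4
      _ = (E'.filter fun e' => s.biUnion Prod.snd ⊆ o e').card * ((3 * t) ^ t * 2 ^ w s) := by
          rw [← Finset.sum_filter, Finset.sum_const, smul_eq_mul]
      _ ≤ (univ.filter fun e' : Fin k × Fin k => e'.1 = e.1 ∧ s.biUnion Prod.snd ⊆ o e').card *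
            ((3 * t) ^ t * 2 ^ w s) := by
          refine Nat.mul_le_mul_right _ (Finset.card_le_card ?_)
          intro e' he'
          rw [hE', Finset.filter_filter, Finset.mem_filter] at he'
          exact Finset.mem_filter.2 ⟨Finset.mem_univ _, he'.2.1.1, he'.2.2⟩
      _ = (3 * t) ^ t * (2 ^ w s *
            (univ.filter fun e' : Fin k × Fin k => e'.1 = e.1 ∧ s.biUnion Prod.snd ⊆ o e').card) := by
          ring
      _ ≤ (3 * t) ^ t * (Λ * 2 ^ (u * t)) :=
          Nat.mul_le_mul_left _ (INR.one_s hS hΛ hk ho hπ hs)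
  refine h1.trans (h2.le.trans ((Finset.sum_le_sum h3).trans ?_))
  rw [Finset.sum_const, Finset.card_powerset, smul_eq_mul]
  have h5 : π.card ≤ t := (INR.card_le hπ.1).trans (ho e)
  calc 2 ^ π.card * ((3 * t) ^ t * (Λ * 2 ^ (u * t))) ≤ 2 ^ t * ((3 * t) ^ t * (Λ * 2 ^ (u * t))) :=
        Nat.mul_le_mul_right _ (Nat.pow_le_pow_right (by norm_num) h5)
    _ = 2 ^ t * (3 * t) ^ t * Λ * 2 ^ (u * t) := by ring

end Pool.Agent.T2h38.OG
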