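import Pool.Agent.T2h38.OG.Stm

/-!
# Project OG: task LOS
-/

set_option autoImplicit false

namespace Pool.Agent.T2h38.OG

open Finset Pool.Agent.T2h38.JM

namespace LOS

theorem div_step {X c H n P : ℝ} (hX : 0 ≤ X) (hc : 0 < c) (hH : 512 * c ≤ H) (hP : 0 < P)
    (h : H * X ≤ n * (c / P)) : X ≤ n * (1 / 512 / P) := by
  have h1 : 512 * c * X ≤ n * (c / P) := (mul_le_mul_of_nonneg_right hH hX).trans h
  have h2 : c * (512 * X) ≤ c * (n / P) := by
    calc c * (512 * X) = 512 * c * X := by ring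
      _ ≤ n * (c / P) := h1
      _ = c * (n / P) := by ring
  have h3 : 512 * X ≤ n / P := le_of_mul_le_mul_left h2 hc
  have h4 : n * (1 / 512 / P) = n / P / 512 := by ring
  rw [h4]
  linarith

end LOS

open LOS in
open Classical in
theorem t_LOS : S_LOS := by
  intro hSCA hNPI hCRD hINR hINC hBLK hLSB hLSD k S t u Λ D h0 ht hΛ hk hh0 hD o ho π hπ
  obtain ⟨n, hn⟩ : ∃ n : ℝ, n = ((Fintype.card (Om k S (u * t)) : ℕ) : ℝ) := ⟨_, rfl⟩
  obtain ⟨P, hP⟩ : ∃ P : ℝ, P = (2 : ℝ) ^ (u * t) := ⟨_, rfl⟩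
  have hP0 : 0 < P := by rw [hP]; positivity
  obtain ⟨A, hA⟩ : ∃ A : Fin k × Fin k → Fin k ⊕ Fin k → Om k S (u * t) → ℝ, A = fun e v ω =>
    if zer (crd t u Λ o e (π e)) ω ∧ h0 < (chs t u Λ o ω v).card then (1 : ℝ) else 0 := ⟨_, rfl⟩
  obtain ⟨B, hB⟩ : ∃ B : Fin k × Fin k → Fin k ⊕ Fin k → Om k S (u * t) → ℝ, B = fun e v ω =>
    if zer (crd t u Λ o e (π e)) ω ∧ D < (sur t u Λ o ω v).card then (1 : ℝ) else 0 := ⟨_, rfl⟩
  have hA0 : ∀ e v ω, 0 ≤ A e v ω := by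
    intro e v ω
    rw [hA]
    dsimp only
    split_ifs <;> norm_num
  have hB0 : ∀ e v ω, 0 ≤ B e v ω := by
    intro e v ω
    rw [hB]
    dsimp only
    split_ifs <;> norm_num
  have hAs : ∀ e v, ∑ ω, A e v ω ≤ n * (1 / 512 / P) := by
    intro e v
    have h1 := hLSB hSCA hCRD hBLK k S t u Λ h0 hΛ hk o ho e (π e) (hπ e).1 v
    rw [← hn, ← hP] at h1
    have h2 : (512 : ℝ) * ((t + 2 ^ (t + 1) : ℕ) : ℝ) ≤ h0 := by exact_mod_cast hh0
    have h3 : (0 : ℝ) < ((t + 2 ^ (t + 1) : ℕ) : ℝ) := by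
      have : 0 < t + 2 ^ (t + 1) := by positivity
      exact_mod_cast this
    refine div_step (Finset.sum_nonneg fun ω _ => hA0 e v ω) h3 h2 hP0 ?_
    rw [hA]
    exact h1
  have hBs : ∀ e v, (v = Sum.inl e.1 ∨ v = Sum.inr e.2) → ∑ ω, B e v ω ≤ n * (1 / 512 / P) := by
    intro e v hv
    have h1 := hLSD hSCA hNPI hCRD hINR hINC k S t u Λ D ht hΛ hk o ho e (π e) (hπ e) v hv
    rw [← hn, ← hP] at h1
    have h2 : (512 : ℝ) * ((1 + 2 ^ t * (3 * t) ^ t * Λ : ℕ) : ℝ) ≤ D := by exact_mod_cast hD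
    have h3 : (0 : ℝ) < ((1 + 2 ^ t * (3 * t) ^ t * Λ : ℕ) : ℝ) := by
      have : 0 < 1 + 2 ^ t * (3 * t) ^ t * Λ := by positivity
      exact_mod_cast this
    refine div_step (Finset.sum_nonneg fun ω _ => hB0 e v ω) h3 h2 hP0 ?_
    rw [hB]
    exact h1
  have hlos : ∀ ω : Om k S (u * t), (((los t u Λ D h0 o ω π).card : ℕ) : ℝ) ≤
      ∑ e : Fin k × Fin k, (A e (Sum.inl e.1) ω + B e (Sum.inl e.1) ω +
        (A e (Sum.inr e.2) ω + B e (Sum.inr e.2) ω)) := by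
    intro ω
    have e1 : (((los t u Λ D h0 o ω π).card : ℕ) : ℝ) = ∑ e : Fin k × Fin k,
        if (zer (crd t u Λ o e (π e)) ω ∧ ¬ (Gd t u Λ D h0 o ω (Sum.inl e.1) ∧
          Gd t u Λ D h0 o ω (Sum.inr e.2))) then (1 : ℝ) else 0 := by
      unfold los sup
      rw [Finset.filter_filter, Finset.card_filter]
      push_cast
      rfl
    rw [e1]
    refine Finset.sum_le_sum fun e _ => ?_
    have n1 := hA0 e (Sum.inl e.1) ω
    have n2 := hB0 e (Sum.inl e.1) ω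
    have n3 := hA0 e (Sum.inr e.2) ω
    have n4 := hB0 e (Sum.inr e.2) ω
    split_ifs with h
    · obtain ⟨h1, h2⟩ := h
      unfold Gd at h2
      rw [not_and_or, not_and_or, not_and_or, not_le, not_le, not_le, not_le] at h2
      rcases h2 with (h2 | h2) | (h2 | h2)
      · have : A e (Sum.inl e.1) ω = 1 := by rw [hA]; exact if_pos ⟨h1, h2⟩
        linarith
      · have : B e (Sum.inl e.1) ω = 1 := by rw [hB]; exact if_pos ⟨h1, h2⟩
        linarith
      · have : A e (Sum.inr e.2) ω = 1 := by rw [hA]; exact if_pos ⟨h1, h2⟩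
        linarith
      · have : B e (Sum.inr e.2) ω = 1 := by rw [hB]; exact if_pos ⟨h1, h2⟩
        linarith
    · linarith
  rw [← hn, ← hP]
  calc ∑ ω : Om k S (u * t), (((los t u Λ D h0 o ω π).card : ℕ) : ℝ)
      ≤ ∑ ω : Om k S (u * t), ∑ e : Fin k × Fin k, (A e (Sum.inl e.1) ω + B e (Sum.inl e.1) ω +
        (A e (Sum.inr e.2) ω + B e (Sum.inr e.2) ω)) := Finset.sum_le_sum fun ω _ => hlos ω
    _ = ∑ e : Fin k × Fin k, ∑ ω : Om k S (u * t), (A e (Sum.inl e.1) ω + B e (Sum.inl e.1) ω +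
        (A e (Sum.inr e.2) ω + B e (Sum.inr e.2) ω)) := Finset.sum_comm
    _ ≤ ∑ _e : Fin k × Fin k, 4 * (n * (1 / 512 / P)) := by
        refine Finset.sum_le_sum fun e _ => ?_
        rw [Finset.sum_add_distrib, Finset.sum_add_distrib, Finset.sum_add_distrib]
        have m1 := hAs e (Sum.inl e.1)
        have m2 := hBs e (Sum.inl e.1) (Or.inl rfl)
        have m3 := hAs e (Sum.inr e.2)
        have m4 := hBs e (Sum.inr e.2) (Or.inr rfl)
        linarith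
    _ = n * ((k : ℝ) ^ 2 / 128 / P) := by
        rw [Finset.sum_const, Finset.card_univ, Fintype.card_prod, Fintype.card_fin, nsmul_eq_mul]
        push_cast
        ring

end Pool.Agent.T2h38.OG
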