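import Mathlib
import Pool.Agent.T2h38.OG.Stm
import Pool.Agent.T2h38.OG.T_WRO
import Pool.Agent.T2h38.OG.T_CRD

set_option autoImplicit false

namespace Pool.Agent.T2h38.OG

open Finset Pool.Agent.T2h38.JM

theorem load_pos_card {k S t : ℕ} (o : Fin k × Fin k → Finset (Fin S)) (ho : ∀ e, (o e).card ≤ t)
    (x : Blk k S) (h : 0 < load o x) : x.2.card ≤ t := by
  obtain ⟨v, B⟩ := x
  cases v with
  | none =>
    exact absurd h (by simp [load])
  | some v =>
    cases v with
    | inl i =>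
      unfold load at h
      obtain ⟨j, hj⟩ := Finset.card_pos.1 h
      rw [mem_filter] at hj
      exact (card_le_card hj.2).trans (ho _)
    | inr j =>
      unfold load at h
      obtain ⟨i, hi⟩ := Finset.card_pos.1 h
      rw [mem_filter] at hi
      exact (card_le_card hi.2).trans (ho _)

theorem hv_card {k S t u Λ : ℕ} (hSCA : S_SCA) (hΛ : 0 < Λ) (hk : k ≤ Λ * 2 ^ (u * t))
    (o : Fin k × Fin k → Finset (Fin S)) (ho : ∀ e, (o e).card ≤ t) (v : Fin k ⊕ Fin k)
    (x : Blk k S) (hx : x ∈ hv t u Λ o v) : x.2.card ≤ t := by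
  unfold hv at hx
  rw [mem_filter] at hx
  have h1 := (hSCA k S t u Λ hΛ hk o x).2.1 hx.2.2.2
  have h2 : 0 < Λ * 2 ^ (u * (t - x.2.card) + sca t u Λ o x) := by positivity
  exact load_pos_card o ho x (by omega)

theorem bcr_card {k S t u Λ : ℕ} (o : Fin k × Fin k → Finset (Fin S)) (x : Blk k S)
    (hx : x.2.card ≤ t) :
    (bcr t u Λ o x).card = u * x.2.card - sca t u Λ o x := by
  unfold bcr
  rw [card_image_of_injective _ (fun b b' h => (Prod.mk.inj (Sum.inl_injective h)).2)]
  exact CRD.card_lt ((Nat.sub_le _ _).trans (Nat.mul_le_mul_left _ hx))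

theorem pi_card {k S t u Λ : ℕ} (o : Fin k × Fin k → Finset (Fin S)) (ho : ∀ e, (o e).card ≤ t)
    (e : Fin k × Fin k) (π : Finset (Blk k S)) (hπ : Adm t u Λ o e π) : π.card ≤ t := by
  obtain ⟨h1, h2, h3⟩ := hπ
  have h4 : (π.biUnion Prod.snd).card = ∑ x ∈ π, x.2.card := by
    refine Finset.card_biUnion fun x hx y hy hxy => ?_
    exact h2 x hx y hy hxy
  have h5 : π.card ≤ ∑ x ∈ π, x.2.card := by
    rw [Finset.card_eq_sum_ones]
    refine Finset.sum_le_sum fun x hx => ?_
    rcases h1 x hx with h | h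
    · exact h.2.ge
    · exact Finset.card_pos.2 h.2.1
  have h6 := ho e
  rw [← h3, h4] at h6
  omega

open Classical in
theorem t_LSB : S_LSB := by
  intro hSCA hCRD hBLK k S t u Λ h0 hΛ hk o ho e π hπ v
  have hC := hCRD hSCA k S t u Λ hΛ hk o ho
  have hB := hBLK hSCA k S t u Λ hΛ hk o ho v
  set NΩ : ℝ := ((Fintype.card (Om k S (u * t)) : ℕ) : ℝ) with hNΩ
  have hN0 : 0 ≤ NΩ := Nat.cast_nonneg _
  have hp : (0 : ℝ) < 2 ^ (u * t) := by positivity
  have hz : ∀ s : Finset (Crd k S (u * t)), ∑ ω : Om k S (u * t),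
      (if zer s ω then (1 : ℝ) else 0) = NΩ / 2 ^ s.card := by
    intro s
    exact WRO_cz s s.card rfl (fun ω => zer s ω) (fun ω => Iff.rfl)
  have hpt : ∀ ω : Om k S (u * t),
      (h0 : ℝ) * (if zer (crd t u Λ o e π) ω ∧ h0 < (chs t u Λ o ω v).card then (1 : ℝ) else 0) ≤
      ∑ x ∈ hv t u Λ o v,
        (if zer (crd t u Λ o e π ∪ bcr t u Λ o x) ω then (1 : ℝ) else 0) := by
    intro ω
    by_cases h1 : zer (crd t u Λ o e π) ω ∧ h0 < (chs t u Λ o ω v).card
    · rw [if_pos h1, mul_one]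
      have h2 : (h0 : ℝ) ≤ ((chs t u Λ o ω v).card : ℝ) := by exact_mod_cast h1.2.le
      refine h2.trans (le_of_eq ?_)
      unfold chs
      rw [← Finset.sum_boole]
      refine Finset.sum_congr rfl fun x _ => ?_
      by_cases h3 : zer (bcr t u Λ o x) ω
      · have h4 : zer (crd t u Λ o e π ∪ bcr t u Λ o x) ω := by
          intro y hy
          rcases mem_union.1 hy with h6 | h6
          · exact h1.1 y h6
          · exact h3 y h6
        rw [if_pos h3, if_pos h4]
      · have h4 : ¬ zer (crd t u Λ o e π ∪ bcr t u Λ o x) ω := fun h =>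
          h3 fun y hy => h y (mem_union_right _ hy)
        rw [if_neg h3, if_neg h4]
    · rw [if_neg h1, mul_zero]
      refine Finset.sum_nonneg fun x _ => ?_
      split_ifs <;> norm_num
  rw [Finset.mul_sum]
  refine (Finset.sum_le_sum fun ω _ => hpt ω).trans ?_
  rw [Finset.sum_comm]
  have h5 : ∀ x ∈ hv t u Λ o v, ∑ ω : Om k S (u * t),
      (if zer (crd t u Λ o e π ∪ bcr t u Λ o x) ω then (1 : ℝ) else 0) ≤
      NΩ / 2 ^ (u * t) * (if x ∈ π then (1 : ℝ) else 0) +
      NΩ / 2 ^ (u * t) * ((2 : ℝ) ^ (u * (t - x.2.card) + sca t u Λ o x) / 2 ^ (u * t)) := by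
    intro x hx
    rw [hz]
    by_cases h6 : x ∈ π
    · rw [if_pos h6, mul_one]
      have h7 : 2 ^ (u * t) ≤ 2 ^ (crd t u Λ o e π ∪ bcr t u Λ o x).card := by
        refine Nat.pow_le_pow_right (by norm_num) ?_
        exact (hC e π hπ).ge.trans (card_le_card subset_union_left)
      have h8 : (2 : ℝ) ^ (u * t) ≤ 2 ^ (crd t u Λ o e π ∪ bcr t u Λ o x).card := by
        exact_mod_cast h7
      have h9 : NΩ / 2 ^ (crd t u Λ o e π ∪ bcr t u Λ o x).card ≤ NΩ / 2 ^ (u * t) :=
        div_le_div_of_nonneg_left hN0 hp h8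
      have h10 : 0 ≤ NΩ / 2 ^ (u * t) * ((2 : ℝ) ^ (u * (t - x.2.card) + sca t u Λ o x) /
        2 ^ (u * t)) := by positivity
      linarith
    · rw [if_neg h6, mul_zero, zero_add]
      have hxt := hv_card hSCA hΛ hk o ho v x hx
      have hdis : Disjoint (crd t u Λ o e π) (bcr t u Λ o x) := by
        rw [Finset.disjoint_left]
        intro y hy hy'
        unfold bcr at hy'
        obtain ⟨b, -, hb⟩ := mem_image.1 hy'
        unfold crd at hy
        rcases mem_union.1 hy with h7 | h7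
        · obtain ⟨x', hx', h8⟩ := mem_biUnion.1 h7
          unfold bcr at h8
          obtain ⟨b', -, hb'⟩ := mem_image.1 h8
          rw [← hb] at hb'
          have h9 := (Prod.mk.inj (Sum.inl_injective hb')).1
          rw [h9] at hx'
          exact h6 hx'
        · obtain ⟨b', -, hb'⟩ := mem_image.1 h7
          rw [← hb] at hb'
          exact absurd hb' (by simp)
      rw [card_union_of_disjoint hdis, hC e π hπ, bcr_card o x hxt]
      have hs := (hSCA k S t u Λ hΛ hk o x).2.2.1 hxt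
      have h11 : u * (t - x.2.card) + sca t u Λ o x + (u * x.2.card - sca t u Λ o x) = u * t := by
        have h12 : u * (t - x.2.card) + u * x.2.card = u * t := by
          rw [← mul_add, Nat.sub_add_cancel hxt]
        omega
      refine le_of_eq ?_
      have h13 : (2 : ℝ) ^ (u * t) = 2 ^ (u * (t - x.2.card) + sca t u Λ o x) *
          2 ^ (u * x.2.card - sca t u Λ o x) := by
        rw [← pow_add, h11]
      rw [pow_add]
      have hq1 : (0 : ℝ) < 2 ^ (u * (t - x.2.card) + sca t u Λ o x) := by positivity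
      have hq2 : (0 : ℝ) < 2 ^ (u * x.2.card - sca t u Λ o x) := by positivity
      have h14 : (2 : ℝ) ^ (u * (t - x.2.card) + sca t u Λ o x) / 2 ^ (u * t) =
          1 / 2 ^ (u * x.2.card - sca t u Λ o x) := by
        rw [h13]
        field_simp
      rw [h14]
      field_simp
  refine (Finset.sum_le_sum h5).trans ?_
  rw [Finset.sum_add_distrib, ← Finset.mul_sum, ← Finset.mul_sum, ← Finset.sum_div,
    Finset.sum_boole]
  have h6 : (((hv t u Λ o v).filter fun x => x ∈ π).card : ℝ) ≤ t := by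
    have h7 : ((hv t u Λ o v).filter fun x => x ∈ π).card ≤ π.card :=
      card_le_card fun x hx => (mem_filter.1 hx).2
    exact_mod_cast h7.trans (pi_card o ho e π hπ)
  have h7 : (∑ x ∈ hv t u Λ o v, (2 : ℝ) ^ (u * (t - x.2.card) + sca t u Λ o x)) /
      2 ^ (u * t) ≤ 2 ^ (t + 1) := by
    rw [div_le_iff₀ hp]
    exact_mod_cast hB
  have h8 : 0 ≤ NΩ / 2 ^ (u * t) := by positivity
  have h9 := mul_le_mul_of_nonneg_left h6 h8
  have h10 := mul_le_mul_of_nonneg_left h7 h8
  refine (add_le_add h9 h10).trans (le_of_eq ?_)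
  push_cast
  ring

end Pool.Agent.T2h38.OG
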