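import Mathlib
import Pool.Agent.T2h38.OG.Stm
import Pool.Agent.T2h38.OG.T_WRO

set_option autoImplicit false

namespace Pool.Agent.T2h38.OG

open Finset Pool.Agent.T2h38.JM

open Classical in
theorem lsd_core2 {k S t u Λ D : ℕ} {o : Fin k × Fin k → Finset (Fin S)}
    (hC : ∀ e π, Adm t u Λ o e π → (crd t u Λ o e π).card = u * t) (e : Fin k × Fin k)
    (π : Finset (Blk k S)) (hπ : Adm t u Λ o e π) (Ln : Finset (Fin k × Fin k)) (X : ℕ)
    (hX : ∑ e' ∈ Ln, ∑ π' ∈ adm t u Λ o e',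
      2 ^ (crd t u Λ o e π ∩ crd t u Λ o e' π').card ≤ X * 2 ^ (u * t))
    (sr : Om k S (u * t) → ℕ)
    (hsr : ∀ ω, (sr ω : ℝ) ≤ 1 + ∑ e' ∈ Ln, (if Sv t u Λ o ω e' then (1 : ℝ) else 0)) :
    (D : ℝ) * ∑ ω : Om k S (u * t),
      (if zer (crd t u Λ o e π) ω ∧ D < sr ω then (1 : ℝ) else 0) ≤
      (Fintype.card (Om k S (u * t)) : ℕ) * (((1 + X : ℕ) : ℝ) / 2 ^ (u * t)) := by
  set NΩ : ℝ := ((Fintype.card (Om k S (u * t)) : ℕ) : ℝ) with hNΩ
  have hN0 : 0 ≤ NΩ := Nat.cast_nonneg _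
  have hp : (0 : ℝ) < 2 ^ (u * t) := by positivity
  have hz : ∀ s : Finset (Crd k S (u * t)), ∑ ω : Om k S (u * t),
      (if zer s ω then (1 : ℝ) else 0) = NΩ / 2 ^ s.card := by
    intro s
    exact WRO_cz s s.card rfl (fun ω => zer s ω) (fun ω => Iff.rfl)
  have hpt : ∀ ω : Om k S (u * t),
      (D : ℝ) * (if zer (crd t u Λ o e π) ω ∧ D < sr ω then (1 : ℝ) else 0) ≤
      (if zer (crd t u Λ o e π) ω then (1 : ℝ) else 0) + ∑ e' ∈ Ln, ∑ π' ∈ adm t u Λ o e',
        (if zer (crd t u Λ o e π ∪ crd t u Λ o e' π') ω then (1 : ℝ) else 0) := by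
    intro ω
    by_cases h1 : zer (crd t u Λ o e π) ω
    · have h3 : ∀ e' ∈ Ln, (if Sv t u Λ o ω e' then (1 : ℝ) else 0) ≤
          ∑ π' ∈ adm t u Λ o e',
          (if zer (crd t u Λ o e π ∪ crd t u Λ o e' π') ω then (1 : ℝ) else 0) := by
        intro e' _
        by_cases h4 : Sv t u Λ o ω e'
        · rw [if_pos h4]
          obtain ⟨π', hA, hz'⟩ := h4
          have hmem : π' ∈ adm t u Λ o e' := mem_filter.2 ⟨mem_univ _, hA⟩
          refine le_trans (le_of_eq ?_) (Finset.single_le_sum (f := fun π' =>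
            (if zer (crd t u Λ o e π ∪ crd t u Λ o e' π') ω then (1 : ℝ) else 0)) ?_ hmem)
          · have h5 : zer (crd t u Λ o e π ∪ crd t u Λ o e' π') ω := by
              intro y hy
              rcases mem_union.1 hy with h6 | h6
              · exact h1 y h6
              · exact hz' y h6
            rw [if_pos h5]
          · intro π'' _
            split_ifs <;> norm_num
        · rw [if_neg h4]
          refine Finset.sum_nonneg fun π'' _ => ?_
          split_ifs <;> norm_num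
      have h4 := (hsr ω).trans (add_le_add_right (Finset.sum_le_sum h3) 1)
      rw [if_pos h1]
      by_cases h2 : D < sr ω
      · rw [if_pos ⟨h1, h2⟩, mul_one]
        have h5 : (D : ℝ) ≤ sr ω := by exact_mod_cast h2.le
        linarith
      · rw [if_neg (fun h => h2 h.2), mul_zero]
        have h5 : (0 : ℝ) ≤ sr ω := Nat.cast_nonneg _
        linarith
    · rw [if_neg (fun h => h1 h.1), if_neg h1, mul_zero, zero_add]
      refine Finset.sum_nonneg fun e' _ => Finset.sum_nonneg fun π'' _ => ?_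
      split_ifs <;> norm_num
  rw [Finset.mul_sum]
  refine (Finset.sum_le_sum fun ω _ => hpt ω).trans ?_
  rw [Finset.sum_add_distrib, hz, hC e π hπ, Finset.sum_comm]
  have h5 : ∀ e' ∈ Ln, ∑ ω : Om k S (u * t), ∑ π' ∈ adm t u Λ o e',
      (if zer (crd t u Λ o e π ∪ crd t u Λ o e' π') ω then (1 : ℝ) else 0) =
      ∑ π' ∈ adm t u Λ o e', NΩ * ((2 : ℝ) ^ (crd t u Λ o e π ∩ crd t u Λ o e' π').card /
        (2 ^ (u * t) * 2 ^ (u * t))) := by
    intro e' _
    rw [Finset.sum_comm]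
    refine Finset.sum_congr rfl fun π' hπ' => ?_
    rw [hz]
    have h6 := Finset.card_union_add_card_inter (crd t u Λ o e π) (crd t u Λ o e' π')
    rw [hC e π hπ, hC e' π' (mem_filter.1 hπ').2] at h6
    have h7 : (2 : ℝ) ^ (u * t) * 2 ^ (u * t) = 2 ^ (crd t u Λ o e π ∪ crd t u Λ o e' π').card *
        2 ^ (crd t u Λ o e π ∩ crd t u Λ o e' π').card := by
      rw [← pow_add, ← pow_add, h6]
    rw [h7]
    field_simp
  rw [Finset.sum_congr rfl h5]
  simp_rw [← Finset.mul_sum, ← Finset.sum_div]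
  have h8 : (∑ e' ∈ Ln, ∑ π' ∈ adm t u Λ o e',
      (2 : ℝ) ^ (crd t u Λ o e π ∩ crd t u Λ o e' π').card) ≤ X * 2 ^ (u * t) := by
    exact_mod_cast hX
  have h9 : NΩ * ((∑ e' ∈ Ln, ∑ π' ∈ adm t u Λ o e',
      (2 : ℝ) ^ (crd t u Λ o e π ∩ crd t u Λ o e' π').card) / (2 ^ (u * t) * 2 ^ (u * t))) ≤
      NΩ * (X / 2 ^ (u * t)) := by
    refine mul_le_mul_of_nonneg_left ?_ hN0
    rw [div_le_div_iff₀ (by positivity) hp]
    calc _ ≤ (X * 2 ^ (u * t)) * (2 : ℝ) ^ (u * t) := mul_le_mul_of_nonneg_right h8 hp.le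
      _ = _ := by ring
  refine (add_le_add_right h9 _).trans (le_of_eq ?_)
  push_cast
  ring

open Classical in
theorem t_LSD : S_LSD := by
  intro hSCA hNPI hCRD hINR hINC k S t u Λ D ht hΛ hk o ho e π hπ v hv
  have hC := hCRD hSCA k S t u Λ hΛ hk o ho
  rcases hv with hv | hv
  · subst hv
    refine lsd_core2 hC e π hπ.1 _ _ (hINR hSCA hNPI k S t u Λ ht hΛ hk o ho e π hπ) _ ?_
    intro ω
    have h1 : sur t u Λ o ω (Sum.inl e.1) ⊆ insert e
        ((univ.filter (fun e' : Fin k × Fin k => e'.1 = e.1 ∧ e' ≠ e)).filter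
          fun e' => Sv t u Λ o ω e') := by
      intro e' he'
      unfold sur at he'
      rw [mem_filter] at he'
      rw [mem_insert, mem_filter, mem_filter]
      by_cases h : e' = e
      · exact Or.inl h
      · exact Or.inr ⟨⟨mem_univ _, he'.2.1, h⟩, he'.2.2⟩
    have h2 := (Finset.card_le_card h1).trans (Finset.card_insert_le _ _)
    rw [Finset.sum_boole]
    have h3 : ((sur t u Λ o ω (Sum.inl e.1)).card : ℝ) ≤
      (((univ.filter (fun e' : Fin k × Fin k => e'.1 = e.1 ∧ e' ≠ e)).filter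
          fun e' => Sv t u Λ o ω e').card : ℝ) + 1 := by exact_mod_cast h2
    linarith
  · subst hv
    refine lsd_core2 hC e π hπ.1 _ _ (hINC hSCA hNPI k S t u Λ ht hΛ hk o ho e π hπ) _ ?_
    intro ω
    have h1 : sur t u Λ o ω (Sum.inr e.2) ⊆ insert e
        ((univ.filter (fun e' : Fin k × Fin k => e'.2 = e.2 ∧ e' ≠ e)).filter
          fun e' => Sv t u Λ o ω e') := by
      intro e' he'
      unfold sur at he'
      rw [mem_filter] at he'
      rw [mem_insert, mem_filter, mem_filter]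
      by_cases h : e' = e
      · exact Or.inl h
      · exact Or.inr ⟨⟨mem_univ _, he'.2.1, h⟩, he'.2.2⟩
    have h2 := (Finset.card_le_card h1).trans (Finset.card_insert_le _ _)
    rw [Finset.sum_boole]
    have h3 : ((sur t u Λ o ω (Sum.inr e.2)).card : ℝ) ≤
      (((univ.filter (fun e' : Fin k × Fin k => e'.2 = e.2 ∧ e' ≠ e)).filter
          fun e' => Sv t u Λ o ω e').card : ℝ) + 1 := by exact_mod_cast h2
    linarith

end Pool.Agent.T2h38.OG
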