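import Pool.Agent.T2h38.OG.Stm

/-!
# OG, task NPI (helper94): the number of the admissible decompositions
-/

set_option autoImplicit false

namespace Pool.Agent.T2h38.OG

open Finset Pool.Agent.T2h38.JM

namespace NPI

variable {k S : ℕ}

/-- the kind of a label -/
def kd : Lab k → Fin 3
  | none => 0
  | some (Sum.inl _) => 1
  | some (Sum.inr _) => 2

open Classical in
/-- the block of `c` -/
noncomputable def blk (π : Finset (Blk k S)) (c : Fin S) : Blk k S :=
  if h : ∃ x ∈ π, c ∈ x.2 then h.choose else (none, {c})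

open Classical in
/-- the least cell of a block -/
noncomputable def mn (B : Finset (Fin S)) (c : Fin S) : Fin S :=
  if h : B.Nonempty then B.min' h else c

theorem blk_spec {π : Finset (Blk k S)} {c : Fin S} (h : ∃ x ∈ π, c ∈ x.2) :
    blk π c ∈ π ∧ c ∈ (blk π c).2 := by
  rw [blk, dif_pos h]
  exact h.choose_spec

theorem mn_mem {B : Finset (Fin S)} (c : Fin S) (h : B.Nonempty) : mn B c ∈ B := by
  rw [mn, dif_pos h]
  exact B.min'_mem h

theorem mn_congr {B : Finset (Fin S)} (c c' : Fin S) (h : B.Nonempty) : mn B c = mn B c' := by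
  rw [mn, mn, dif_pos h, dif_pos h]

theorem blk_eq {π : Finset (Blk k S)} (hd : ∀ x ∈ π, ∀ y ∈ π, x ≠ y → Disjoint x.2 y.2) {x : Blk k S}
    (hx : x ∈ π) {c : Fin S} (hc : c ∈ x.2) : blk π c = x := by
  obtain ⟨h1, h2⟩ := blk_spec ⟨x, hx, hc⟩
  by_contra hne
  exact (Finset.disjoint_left.1 (hd _ h1 _ hx hne)) h2 hc

theorem label_eq {t u Λ : ℕ} {o : Fin k × Fin k → Finset (Fin S)} {e : Fin k × Fin k}
    {π π' : Finset (Blk k S)} (h : Adm t u Λ o e π) (h' : Adm t u Λ o e π') {x y : Blk k S}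
    (hx : x ∈ π) (hy : y ∈ π') (hk : kd x.1 = kd y.1) : x.1 = y.1 := by
  have h1 : x.1 = none ∨ x.1 = some (Sum.inl e.1) ∨ x.1 = some (Sum.inr e.2) := by
    rcases h.1 x hx with h1 | ⟨h1, -⟩
    · exact Or.inl h1.1
    · exact Or.inr h1
  have h2 : y.1 = none ∨ y.1 = some (Sum.inl e.1) ∨ y.1 = some (Sum.inr e.2) := by
    rcases h'.1 y hy with h1 | ⟨h1, -⟩
    · exact Or.inl h1.1
    · exact Or.inr h1
  rcases h1 with h1 | h1 | h1 <;> rcases h2 with h2 | h2 | h2 <;> rw [h1, h2] at hk ⊢ <;>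
    simp [kd] at hk

theorem nonempty {t u Λ : ℕ} {o : Fin k × Fin k → Finset (Fin S)} {e : Fin k × Fin k}
    {π : Finset (Blk k S)} (h : Adm t u Λ o e π) {x : Blk k S} (hx : x ∈ π) : x.2.Nonempty := by
  rcases h.1 x hx with h1 | ⟨-, h1, -⟩
  · exact Finset.card_pos.1 (by rw [h1.2]; exact one_pos)
  · exact h1

/-- the code determines the decomposition -/
theorem sub {t u Λ : ℕ} {o : Fin k × Fin k → Finset (Fin S)} {e : Fin k × Fin k}
    {π π' : Finset (Blk k S)} (h : Adm t u Λ o e π) (h' : Adm t u Λ o e π')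
    (hc : ∀ c ∈ o e, kd (blk π c).1 = kd (blk π' c).1 ∧ mn (blk π c).2 c = mn (blk π' c).2 c) :
    π ⊆ π' := by
  -- one inclusion of blocks
  have key : ∀ {ρ ρ' : Finset (Blk k S)}, Adm t u Λ o e ρ → Adm t u Λ o e ρ' →
      (∀ c ∈ o e, mn (blk ρ c).2 c = mn (blk ρ' c).2 c) → ∀ x ∈ ρ, ∀ x' ∈ ρ', ∀ c ∈ x.2, c ∈ x'.2 →
      x.2 ⊆ x'.2 := by
    intro ρ ρ' g g' gc x hx x' hx' c hcx hcx' c' hc'
    have hin : ∀ d ∈ x.2, d ∈ o e := by
      intro d hd
      rw [← g.2.2]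
      exact Finset.mem_biUnion.2 ⟨x, hx, hd⟩
    have e1 := gc c (hin c hcx)
    have e2 := gc c' (hin c' hc')
    rw [blk_eq g.2.1 hx hcx, blk_eq g'.2.1 hx' hcx'] at e1
    rw [blk_eq g.2.1 hx hc'] at e2
    have hex : ∃ y ∈ ρ', c' ∈ y.2 := by
      have h3 : c' ∈ ρ'.biUnion Prod.snd := by rw [g'.2.2]; exact hin c' hc'
      exact Finset.mem_biUnion.1 h3
    obtain ⟨h4, h5⟩ := blk_spec hex
    have e3 : mn (blk ρ' c').2 c' = mn x'.2 c := by
      rw [← e2, ← e1]
      exact mn_congr _ _ (nonempty g hx)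
    have h6 : blk ρ' c' = x' := by
      by_contra hne
      have h7 := Finset.disjoint_left.1 (g'.2.1 _ h4 _ hx' hne) (mn_mem c' ⟨c', h5⟩)
      rw [e3] at h7
      exact h7 (mn_mem c ⟨c, hcx'⟩)
    rw [← h6]
    exact h5
  intro x hx
  obtain ⟨c, hcx⟩ := nonempty h hx
  have hco : c ∈ o e := by
    rw [← h.2.2]
    exact Finset.mem_biUnion.2 ⟨x, hx, hcx⟩
  have hex : ∃ y ∈ π', c ∈ y.2 := by
    have h3 : c ∈ π'.biUnion Prod.snd := by rw [h'.2.2]; exact hco
    exact Finset.mem_biUnion.1 h3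
  obtain ⟨y, hy, hcy⟩ := hex
  have h1 : x.2 = y.2 := Finset.Subset.antisymm
    (key h h' (fun c hc' => (hc c hc').2) x hx y hy c hcx hcy)
    (key h' h (fun c hc' => (hc c hc').2.symm) y hy x hx c hcy hcx)
  have h2 := (hc c hco).1
  rw [blk_eq h.2.1 hx hcx, blk_eq h'.2.1 hy hcy] at h2
  have h3 : x.1 = y.1 := label_eq h h' hx hy h2
  have h4 : x = y := Prod.ext h3 h1
  rw [h4]
  exact hy

end NPI

theorem t_NPI : S_NPI := by
  intro k S t u Λ ht o ho e
  classical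
  have h1 : (adm t u Λ o e).card ≤
      (Fintype.piFinset fun _ : {c // c ∈ o e} => (univ : Finset (Fin 3)) ×ˢ (o e)).card := by
    refine Finset.card_le_card_of_injOn
      (fun π c => (NPI.kd (NPI.blk π c.1).1, NPI.mn (NPI.blk π c.1).2 c.1)) ?_ ?_
    · intro π hπ
      have hA : Adm t u Λ o e π := (Finset.mem_filter.1 (Finset.mem_coe.1 hπ)).2
      rw [Finset.mem_coe, Fintype.mem_piFinset]
      rintro ⟨c, hc⟩
      rw [Finset.mem_product]
      refine ⟨Finset.mem_univ _, ?_⟩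
      have hex : ∃ y ∈ π, c ∈ y.2 := by
        have h3 : c ∈ π.biUnion Prod.snd := by rw [hA.2.2]; exact hc
        exact Finset.mem_biUnion.1 h3
      obtain ⟨h4, h5⟩ := NPI.blk_spec hex
      have h6 : NPI.mn (NPI.blk π c).2 c ∈ π.biUnion Prod.snd :=
        Finset.mem_biUnion.2 ⟨_, h4, NPI.mn_mem c ⟨c, h5⟩⟩
      rw [hA.2.2] at h6
      exact h6
    · intro π hπ π' hπ' heq
      have hA : Adm t u Λ o e π := (Finset.mem_filter.1 (Finset.mem_coe.1 hπ)).2
      have hA' : Adm t u Λ o e π' := (Finset.mem_filter.1 (Finset.mem_coe.1 hπ')).2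
      have hc : ∀ c ∈ o e, NPI.kd (NPI.blk π c).1 = NPI.kd (NPI.blk π' c).1 ∧
          NPI.mn (NPI.blk π c).2 c = NPI.mn (NPI.blk π' c).2 c := by
        intro c hc
        have h2 := congrFun heq ⟨c, hc⟩
        exact ⟨congrArg Prod.fst h2, congrArg Prod.snd h2⟩
      exact Finset.Subset.antisymm (NPI.sub hA hA' hc)
        (NPI.sub hA' hA fun c hc' => ⟨(hc c hc').1.symm, (hc c hc').2.symm⟩)
  refine h1.trans ?_
  rw [Fintype.card_piFinset, Finset.prod_const, Finset.card_product, Finset.card_univ, Fintype.card_fin,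
    Finset.card_univ, Fintype.card_coe]
  have h2 := ho e
  calc (3 * (o e).card) ^ (o e).card ≤ (3 * t) ^ (o e).card :=
        Nat.pow_le_pow_left (Nat.mul_le_mul_left _ h2) _
    _ ≤ (3 * t) ^ t := Nat.pow_le_pow_right (by omega) h2

end Pool.Agent.T2h38.OG
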