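import Pool.Agent.T2h38.OG.Stm

/-! Project OG, task NUM (helper37): the numbers. -/

set_option autoImplicit false

namespace Pool.Agent.T2h38.OG

theorem t_NUM : S_NUM := by
  intro k w l S r Λ t u ht hk hkl hSl hΛ hΛu hmain
  have hy : 1 ≤ l + w + 1 := by omega
  have hΛ0 : 0 < Λ := lt_of_lt_of_le (by positivity) hΛ
  -- the exponent
  have hut : u * t ≤ t + l := by
    have h1 : 2 ^ (u * t) ≤ 2 ^ (t + l) := by
      calc 2 ^ (u * t) ≤ Λ * 2 ^ (u * t) := Nat.le_mul_of_pos_left _ hΛ0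
        _ ≤ 2 ^ t * k := hΛu
        _ ≤ 2 ^ t * 2 ^ l := Nat.mul_le_mul_left _ hkl
        _ = 2 ^ (t + l) := (pow_add _ _ _).symm
    exact (Nat.pow_le_pow_iff_right (by norm_num)).1 h1
  have hX : (S * 2 ^ w + 1) ^ t * (u * t + 1) + 1 ≤ 2 ^ (3 * t * (l + w + 1)) := by
    have h1 : S * 2 ^ w + 1 ≤ 2 ^ (l + w + 1) := by
      have h2 : S * 2 ^ w ≤ 2 ^ l * 2 ^ w := Nat.mul_le_mul_right _ hSl
      have h3 : 1 ≤ 2 ^ (l + w) := Nat.one_le_two_pow
      rw [← pow_add] at h2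
      rw [pow_succ]
      omega
    have h2 : (S * 2 ^ w + 1) ^ t ≤ 2 ^ ((l + w + 1) * t) := by
      rw [pow_mul]
      exact Nat.pow_le_pow_left h1 t
    have h3 : u * t + 1 ≤ 2 ^ (t + l) := by
      have := Nat.lt_two_pow_self (n := t + l)
      omega
    have h4 : (S * 2 ^ w + 1) ^ t * (u * t + 1) ≤ 2 ^ ((l + w + 1) * t + (t + l)) := by
      rw [pow_add]
      exact Nat.mul_le_mul h2 h3
    have h5 : 1 ≤ 2 ^ ((l + w + 1) * t + (t + l)) := Nat.one_le_two_pow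
    have h6 : 2 ^ ((l + w + 1) * t + (t + l) + 1) ≤ 2 ^ (3 * t * (l + w + 1)) := by
      apply Nat.pow_le_pow_right (by norm_num)
      nlinarith [Nat.mul_le_mul ht hy, Nat.mul_le_mul_left t hy, Nat.mul_le_mul_right (l + w + 1) ht]
    rw [pow_succ] at h6
    omega
  -- logarithms
  have hl2 : Real.log 2 < 0.6931471808 := Real.log_two_lt_d9
  have hl2p : 0 < Real.log 2 := Real.log_pos (by norm_num)
  have ha : 1 / 161 ≤ Real.log (1 + 1 / 160) := by
    have h1 := Real.one_sub_inv_le_log_of_pos (show (0 : ℝ) < 1 + 1 / 160 by norm_num)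
    refine le_trans ?_ h1
    norm_num
  have hlw : Real.log ((2 ^ w : ℕ) : ℝ) = w * Real.log 2 := by
    push_cast
    rw [Real.log_pow]
  have hlr : Real.log ((2 ^ r : ℕ) : ℝ) = r * Real.log 2 := by
    push_cast
    rw [Real.log_pow]
  set Yl : ℝ := Real.log (((S : ℝ) * ((2 ^ w : ℕ) : ℝ) + 1) ^ t * ((u : ℝ) * t + 1) + 1) with hYl
  have hY : Yl ≤ 3 * t * (l + w + 1) * Real.log 2 := by
    have h1 : ((S : ℝ) * ((2 ^ w : ℕ) : ℝ) + 1) ^ t * ((u : ℝ) * t + 1) + 1 ≤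
        (2 : ℝ) ^ (3 * t * (l + w + 1)) := by exact_mod_cast hX
    have h2 := Real.log_le_log (by positivity) h1
    rw [Real.log_pow] at h2
    have h3 : ((3 * t * (l + w + 1) : ℕ) : ℝ) = 3 * t * (l + w + 1) := by push_cast; ring
    rw [h3] at h2
    exact h2
  rw [hlw, hlr] at hmain
  have hE0 : (0 : ℝ) < 2 ^ (u * t) := by positivity
  set E : ℝ := (2 : ℝ) ^ (u * t) with hE
  set G : ℝ := (2 : ℝ) ^ (u * (t - 1)) with hG
  have hG0 : 0 < G := by positivity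
  have hK : (1 : ℝ) ≤ k := by exact_mod_cast hk
  have ht1 : (1 : ℝ) ≤ t := by exact_mod_cast ht
  have hEΛ : E * Λ ≤ 2 ^ t * k := by
    have h1 : ((Λ * 2 ^ (u * t) : ℕ) : ℝ) ≤ ((2 ^ t * k : ℕ) : ℝ) := by exact_mod_cast hΛu
    push_cast at h1
    rw [hE, mul_comm]
    exact h1
  set y : ℝ := (l : ℝ) + w + 1 with hyd
  have hy1 : 1 ≤ y := by
    have h1 : (0 : ℝ) ≤ l := Nat.cast_nonneg l
    have h2 : (0 : ℝ) ≤ w := Nat.cast_nonneg w
    rw [hyd]
    linarith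
  set Z : ℝ := 2 ^ t * t * y with hZ
  have h2t : (1 : ℝ) ≤ 2 ^ t := one_le_pow₀ (by norm_num)
  have hZ1 : 1 ≤ Z := by
    have h1 : 1 ≤ (2 : ℝ) ^ t * t := one_le_mul_of_one_le_of_one_le h2t ht1
    exact one_le_mul_of_one_le_of_one_le h1 hy1
  have hEZ : E * Z * 2 ^ 28 ≤ k := by
    have h1 : (2 : ℝ) ^ 28 * t * 4 ^ t * y ≤ Λ := by
      have h2 : ((2 ^ 28 * t * 4 ^ t * (l + w + 1) : ℕ) : ℝ) ≤ Λ := by exact_mod_cast hΛ
      push_cast at h2
      have h3 : (2 : ℝ) ^ 28 = 268435456 := by norm_num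
      rw [h3, hyd]
      exact h2
    have h2 : (2 : ℝ) ^ t * (E * Z * 2 ^ 28) ≤ 2 ^ t * k := by
      have h3 : (4 : ℝ) ^ t = 2 ^ t * 2 ^ t := by
        rw [← mul_pow]
        norm_num
      calc (2 : ℝ) ^ t * (E * Z * 2 ^ 28) = E * (2 ^ 28 * t * 4 ^ t * y) := by rw [hZ, h3]; ring
        _ ≤ E * Λ := mul_le_mul_of_nonneg_left h1 hE0.le
        _ ≤ 2 ^ t * k := hEΛ
    exact le_of_mul_le_mul_left h2 (by linarith)
  have hh0 : ((512 * (t + 2 ^ (t + 1)) : ℕ) : ℝ) ≤ 1536 * 2 ^ t := by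
    have h1 : 512 * (t + 2 ^ (t + 1)) ≤ 1536 * 2 ^ t := by
      have := Nat.lt_two_pow_self (n := t)
      rw [pow_succ]
      omega
    exact_mod_cast h1
  have hh00 : (0 : ℝ) ≤ ((512 * (t + 2 ^ (t + 1)) : ℕ) : ℝ) := Nat.cast_nonneg _
  set h0 : ℝ := ((512 * (t + 2 ^ (t + 1)) : ℕ) : ℝ) with hh0d
  have hrest : E * (Real.log 2 + 2 * (k * h0 * Yl) + 2 * k * Real.log 2) ≤ 0.00003 * (k : ℝ) ^ 2 := by
    have h1 : k * h0 * Yl ≤ k * (1536 * 2 ^ t) * (3 * t * y * Real.log 2) := by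
      have h2 : (k : ℝ) * h0 ≤ k * (1536 * 2 ^ t) := mul_le_mul_of_nonneg_left hh0 (by linarith)
      calc k * h0 * Yl ≤ k * h0 * (3 * t * y * Real.log 2) :=
            mul_le_mul_of_nonneg_left hY (by positivity)
        _ ≤ k * (1536 * 2 ^ t) * (3 * t * y * Real.log 2) :=
            mul_le_mul_of_nonneg_right h2 (by positivity)
    have h2 : Real.log 2 + 2 * (k * h0 * Yl) + 2 * k * Real.log 2 ≤ 6391 * (k * Z) := by
      have h3 : k * (1536 * 2 ^ t) * (3 * t * y * Real.log 2) = 4608 * (Real.log 2 * (k * Z)) := by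
        rw [hZ]
        ring
      have h4 : Real.log 2 ≤ Real.log 2 * (k * Z) := by
        have : 1 ≤ (k : ℝ) * Z := one_le_mul_of_one_le_of_one_le hK hZ1
        nlinarith
      have h5 : (k : ℝ) * Real.log 2 ≤ Real.log 2 * (k * Z) := by
        have : (k : ℝ) ≤ k * Z := le_mul_of_one_le_right (by linarith) hZ1
        nlinarith
      have h6 : 0 ≤ (k : ℝ) * Z := by positivity
      have h7 : Real.log 2 * (k * Z) ≤ 0.6931471808 * (k * Z) :=
        mul_le_mul_of_nonneg_right hl2.le h6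
      rw [h3] at h1
      linarith
    calc E * (Real.log 2 + 2 * (k * h0 * Yl) + 2 * k * Real.log 2) ≤ E * (6391 * (k * Z)) :=
          mul_le_mul_of_nonneg_left h2 hE0.le
      _ = 6391 / 2 ^ 28 * k * (E * Z * 2 ^ 28) := by ring
      _ ≤ 6391 / 2 ^ 28 * k * k := mul_le_mul_of_nonneg_left hEZ (by positivity)
      _ ≤ 0.00003 * (k : ℝ) ^ 2 := by
          have : 0 ≤ (k : ℝ) ^ 2 := sq_nonneg _
          norm_num
          nlinarith
  have hsum : 0.00122 * (k : ℝ) ^ 2 ≤ G * (S * (w * Real.log 2)) + E * (r * Real.log 2) := by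
    have h1 : E * (Real.log 2 + 2 * (k * h0 * Yl) + 2 * k * Real.log 2 + r * Real.log 2) =
        E * (Real.log 2 + 2 * (k * h0 * Yl) + 2 * k * Real.log 2) + E * (r * Real.log 2) := by ring
    rw [h1] at hmain
    have h2 : 0.00125 * (k : ℝ) ^ 2 ≤ (k : ℝ) ^ 2 * (Real.log (1 + 1 / 160) / 4 -
        (Real.log (1 + 1 / 160) + Real.log 2) / 200000 - 1 / 4000) -
        Real.log (1 + 1 / 160) / 128 * (k : ℝ) ^ 2 := by
      have h3 : 0 ≤ (k : ℝ) ^ 2 := sq_nonneg _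
      have h4 : 0.00125 ≤ (Real.log (1 + 1 / 160) / 4 -
        (Real.log (1 + 1 / 160) + Real.log 2) / 200000 - 1 / 4000) -
        Real.log (1 + 1 / 160) / 128 := by
        norm_num at ha hl2 ⊢
        linarith
      nlinarith
    linarith
  rcases le_total (0.00061 * (k : ℝ) ^ 2) (E * (r * Real.log 2)) with h | h
  · left
    have h1 : (k : ℝ) * Λ ≤ 1400 * 2 ^ t * r := by
      have h2 : 0.00061 * (k : ℝ) ^ 2 * Λ ≤ 2 ^ t * k * (r * Real.log 2) := by
        calc 0.00061 * (k : ℝ) ^ 2 * Λ ≤ E * (r * Real.log 2) * Λ :=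
              mul_le_mul_of_nonneg_right h (Nat.cast_nonneg _)
          _ = E * Λ * (r * Real.log 2) := by ring
          _ ≤ 2 ^ t * k * (r * Real.log 2) := mul_le_mul_of_nonneg_right hEΛ (by positivity)
      have h3 : (k : ℝ) * (0.00061 * (k * Λ)) ≤ k * (2 ^ t * r * Real.log 2) := by
        calc (k : ℝ) * (0.00061 * (k * Λ)) = 0.00061 * (k : ℝ) ^ 2 * Λ := by ring
          _ ≤ 2 ^ t * k * (r * Real.log 2) := h2
          _ = k * (2 ^ t * r * Real.log 2) := by ring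
      have h4 := le_of_mul_le_mul_left h3 (by linarith)
      have h5 : 2 ^ t * (r : ℝ) * Real.log 2 ≤ 2 ^ t * r * 0.6931471808 :=
        mul_le_mul_of_nonneg_left hl2.le (by positivity)
      have h6 : 0 ≤ (2 : ℝ) ^ t * r := by positivity
      linarith
    exact_mod_cast h1
  · right
    have h1 : 0.00061 * (k : ℝ) ^ 2 ≤ G * (S * (w * Real.log 2)) := by linarith
    have h2 : (k : ℝ) ^ 2 ≤ 1400 * (G * (S * w)) := by
      have h3 : G * (S * (w * Real.log 2)) = G * (S * w) * Real.log 2 := by ring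
      have h4 : 0 ≤ G * ((S : ℝ) * w) := by positivity
      have h5 : G * ((S : ℝ) * w) * Real.log 2 ≤ G * (S * w) * 0.6931471808 :=
        mul_le_mul_of_nonneg_left hl2.le h4
      rw [h3] at h1
      linarith
    have h3 : k ^ 2 ≤ 1400 * (2 ^ (u * (t - 1)) * (S * w)) := by
      rw [hG] at h2
      exact_mod_cast h2
    have h4 : (k ^ 2) ^ t ≤ (1400 * (2 ^ (u * (t - 1)) * (S * w))) ^ t := Nat.pow_le_pow_left h3 t
    obtain ⟨s, rfl⟩ : ∃ s, t = s + 1 := ⟨t - 1, by omega⟩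
    simp only [Nat.add_sub_cancel] at h4 ⊢
    have h5 : k ^ s * (k ^ (s + 1 + 1) * Λ ^ s) ≤ k ^ s * (1400 * 2 ^ (s + 1) * (S * w)) ^ (s + 1) := by
      calc k ^ s * (k ^ (s + 1 + 1) * Λ ^ s) = (k ^ 2) ^ (s + 1) * Λ ^ s := by ring
        _ ≤ (1400 * (2 ^ (u * s) * (S * w))) ^ (s + 1) * Λ ^ s := Nat.mul_le_mul_right _ h4
        _ = (1400 * (S * w)) ^ (s + 1) * (Λ * 2 ^ (u * (s + 1))) ^ s := by
            rw [mul_pow Λ, ← pow_mul, mul_pow 1400, mul_pow 1400, mul_pow (2 ^ (u * s)), ← pow_mul,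
              show u * (s + 1) * s = u * s * (s + 1) by ring]
            ring
        _ ≤ (1400 * (S * w)) ^ (s + 1) * (2 ^ (s + 1) * k) ^ s :=
            Nat.mul_le_mul_left _ (Nat.pow_le_pow_left hΛu s)
        _ = k ^ s * ((1400 * (S * w)) ^ (s + 1) * (2 ^ (s + 1)) ^ s) := by rw [mul_pow (2 ^ (s + 1))]; ring
        _ ≤ k ^ s * ((1400 * (S * w)) ^ (s + 1) * (2 ^ (s + 1)) ^ (s + 1)) := by
            apply Nat.mul_le_mul_left
            apply Nat.mul_le_mul_left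
            exact Nat.pow_le_pow_right (by positivity) (Nat.le_succ s)
        _ = k ^ s * (1400 * 2 ^ (s + 1) * (S * w)) ^ (s + 1) := by
            rw [← mul_pow]
            congr 2
            ring
    exact Nat.le_of_mul_le_mul_left h5 (by positivity)

end Pool.Agent.T2h38.OG
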