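import Pool.Agent.T2h38.OG.Stm

set_option autoImplicit false
set_option linter.all false

namespace Pool.Agent.T2h38.OG

open Finset Pool.Agent.T2h38.JM

theorem count_zero2 {U : Type} [Fintype U] [inst : Fintype (U → Fin 2)] (B : Finset U)
    (Q : (U → Fin 2) → Prop) [hdec : DecidablePred Q] (hQ : ∀ ω, Q ω ↔ ∀ y ∈ B, ω y = 0) :
    (∑ ω : U → Fin 2, (if Q ω then (1 : ℝ) else 0)) * 2 ^ B.card =
      (Fintype.card (U → Fin 2) : ℕ) := by
  classical
  obtain rfl : inst = Pi.instFintype := Subsingleton.elim _ _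
  have h := count_zero 1 B
  have h5 : ((1 : ℕ) : ℝ) + 1 = 2 := by norm_num
  rw [h5, mul_comm] at h
  have e1 : (∑ ω : U → Fin 2, (if Q ω then (1 : ℝ) else 0)) =
      ∑ ω : U → Fin 2, (if ∀ y ∈ B, ω y = 0 then (1 : ℝ) else 0) :=
    Finset.sum_congr rfl fun ω _ => if_congr (hQ ω) rfl rfl
  rw [e1]
  exact h

/-- the expected size of the global sample -/
theorem sample_sum {k S M : ℕ} (u : ℕ) (hu : u ≤ M) (P : Om k S M → Fin S → Prop)
    [∀ ω, DecidablePred (P ω)]
    (hP : ∀ ω c, P ω c ↔ ∀ b : Fin M, b.1 < u → ω (Sum.inl ((none, {c}), b)) = 0) :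
    (∑ ω : Om k S M, (((univ.filter (P ω)).card : ℕ) : ℝ)) * 2 ^ u =
      (Fintype.card (Om k S M) : ℕ) * (S : ℝ) := by
  have h1 : ∀ ω : Om k S M, (((univ.filter (P ω)).card : ℕ) : ℝ) =
      ∑ c : Fin S, if P ω c then (1 : ℝ) else 0 := by
    intro ω
    rw [Finset.sum_boole]
  simp_rw [h1]
  rw [Finset.sum_comm, Finset.sum_mul]
  have h2 : ∀ c : Fin S, (∑ ω : Om k S M, if P ω c then (1 : ℝ) else 0) * 2 ^ u =
      (Fintype.card (Om k S M) : ℕ) := by
    intro c
    set B : Finset (Crd k S M) := (univ.filter fun b : Fin M => b.1 < u).image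
      (fun b => Sum.inl ((none, {c}), b)) with hB
    have hcard : B.card = u := by
      rw [hB, Finset.card_image_of_injective]
      · rw [Fin.card_filter_val_lt, min_eq_right hu]
      · intro b b' h
        simpa using h
    have h5 : ∀ ω : Om k S M, P ω c ↔ ∀ y ∈ B, ω y = 0 := by
      intro ω
      rw [hP, hB]
      constructor
      · intro h y hy
        obtain ⟨b, hb, rfl⟩ := Finset.mem_image.1 hy
        exact h b (Finset.mem_filter.1 hb).2
      · intro h b hb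
        exact h _ (Finset.mem_image.2 ⟨b, Finset.mem_filter.2 ⟨Finset.mem_univ _, hb⟩, rfl⟩)
    have h3 := count_zero2 (U := Crd k S M) B (fun ω => P ω c) h5
    rw [hcard] at h3
    exact h3
  simp_rw [h2]
  rw [Finset.sum_const, Finset.card_univ, Fintype.card_fin, nsmul_eq_mul, mul_comm]

theorem key (X Vv nZ C lL K lV Sg T3 kk Q R : ℝ) (hC : 0 < C) (hQ : 0 < Q) (hR : 0 < R)
    (h : C * (X / (Q * R)) - nZ * (lL * (C * (kk / 128 / (Q * R)))) - C * (T3 * Vv / (Q * R)) ≤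
      nZ * (C * K + C * Sg / R * lV)) :
    X - T3 * Vv ≤ nZ * (lL / 128 * kk + Q * (Sg * lV) + Q * R * K) := by
  have h1 := mul_le_mul_of_nonneg_right h (show 0 ≤ Q * R / C by positivity)
  have e1 : (C * (X / (Q * R)) - nZ * (lL * (C * (kk / 128 / (Q * R)))) -
      C * (T3 * Vv / (Q * R))) * (Q * R / C) = X - nZ * (lL / 128 * kk) - T3 * Vv := by
    field_simp
  have e2 : nZ * (C * K + C * Sg / R * lV) * (Q * R / C) =
      nZ * (Q * (Sg * lV) + Q * R * K) := by
    field_simp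
    ring
  rw [e1, e2] at h1
  linarith

open Classical in
theorem t_ONE : S_ONE := by
  intro hSMP hGAI hWRO hLOS hEXM hSCA hNPI hCRD hINR hINC hBLK hLSB hLSD hADV hCOD hWGT
  intro α A _ _ k S V W r L ε hL hε d q a a' φ T t D v0 J hHSC u Λ h0 ht hΛ hk hk1 hh0 hD
  have hex : ∀ z e, ∃ π, Mx t u Λ (cc t q a a' φ T J z) e π := fun z e => hEXM k S t u Λ _ e
  choose π hπ using hex
  have hc : ∀ z e, (cc t q a a' φ T J z e).card ≤ t := by
    intro z e
    have h1 := run_card (J z) (a (φ z) e.1 (z.1 e.1)) (a' (φ z) e.2 (z.2 e.2))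
      (q (φ z) e.1 e.2) T t ∅
    rw [Finset.card_empty, zero_add] at h1
    exact h1
  have hs := hSMP hSCA hADV hCOD hWGT α A k S V W r L ε hL hε d q a a' φ T t D v0 J hHSC u Λ h0
    ht hΛ hk hk1 π (fun z e => (hπ z e).1)
  have hl : 0 < Real.log L := Real.log_pos hL
  have hl2 : 0 < Real.log 2 := Real.log_pos (by norm_num)
  have hgai := fun z => hGAI hSCA hCRD k S t u Λ hΛ hk (cc t q a a' φ T J z) (hc z) (π z)
    (fun e => (hπ z e).1) (fun e => if d (z.1 e.1) (z.2 e.2) = true then Real.log L else 0)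
  have hwro := fun z => hWRO hSCA hNPI hCRD k S t u Λ ht hΛ hk (cc t q a a' φ T J z) (hc z)
    (fun e => (if (oo t q a a' φ T J z e).1 ≠ some (!(d (z.1 e.1) (z.2 e.2))) then
        Real.log L + Real.log 2 else 0) + ε) (fun e => by split_ifs <;> linarith)
  have hlos := fun z => hLOS hSCA hNPI hCRD hINR hINC hBLK hLSB hLSD k S t u Λ D h0 ht hΛ hk hh0
    hD (cc t q a a' φ T J z) (hc z) (π z) (fun e => hπ z e)
  have hut : u ≤ u * t := Nat.le_mul_of_pos_right u (by omega)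
  have hG := sample_sum (k := k) (S := S) (M := u * t) u hut
    (fun ω c => ∀ b : Fin (u * t), b.1 < u → ω (Sum.inl ((none, {c}), b)) = 0)
    (fun ω c => Iff.rfl)
  -- sum over the samples
  have h1 := Finset.sum_le_sum fun (ω : Om k S (u * t)) (_ : ω ∈ univ) => hs ω
  rw [Finset.sum_comm] at h1
  have hC : (0 : ℝ) < (Fintype.card (Om k S (u * t)) : ℕ) := by
    have h2 : 0 < Fintype.card (Om k S (u * t)) := Fintype.card_pos
    exact_mod_cast h2
  set C : ℝ := ((Fintype.card (Om k S (u * t)) : ℕ) : ℝ) with hCdef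
  set nZ : ℝ := ((Fintype.card ((Fin k → α) × (Fin k → α)) : ℕ) : ℝ) with hnZ
  have hnZ0 : 0 ≤ nZ := Nat.cast_nonneg _
  have h2 : ∀ z : (Fin k → α) × (Fin k → α),
      C * ((∑ e : Fin k × Fin k, if d (z.1 e.1) (z.2 e.2) = true then Real.log L else 0) /
        2 ^ (u * t)) - Real.log L * (C * ((k : ℝ) ^ 2 / 128 / 2 ^ (u * t))) -
      C * ((3 * (t : ℝ)) ^ t * (∑ e : Fin k × Fin k,
        ((if (oo t q a a' φ T J z e).1 ≠ some (!(d (z.1 e.1) (z.2 e.2))) then
        Real.log L + Real.log 2 else 0) + ε)) / 2 ^ (u * t)) ≤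
      ∑ ω : Om k S (u * t), (∑ e ∈ sup t u Λ (cc t q a a' φ T J z) ω (π z),
      (if d (z.1 e.1) (z.2 e.2) = true then Real.log L else 0) -
    Real.log L * (((los t u Λ D h0 (cc t q a a' φ T J z) ω (π z)).card : ℕ) : ℝ) -
    ∑ e ∈ sal t u Λ (cc t q a a' φ T J z) ω,
      ((if (oo t q a a' φ T J z e).1 ≠ some (!(d (z.1 e.1) (z.2 e.2))) then
        Real.log L + Real.log 2 else 0) + ε)) := by
    intro z
    rw [Finset.sum_sub_distrib, Finset.sum_sub_distrib, ← Finset.mul_sum, hgai z]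
    have h3 := mul_le_mul_of_nonneg_left (hlos z) hl.le
    have h4 := hwro z
    linarith
  have h3 := (Finset.sum_le_sum fun (z : (Fin k → α) × (Fin k → α)) (_ : z ∈ univ) => h2 z).trans h1
  simp only [Finset.sum_sub_distrib, ← Finset.mul_sum, ← Finset.sum_div, Finset.sum_const,
    Finset.card_univ, nsmul_eq_mul, Finset.sum_add_distrib, ← Finset.sum_mul] at h3 ⊢
  have hR : (0 : ℝ) < 2 ^ u := by positivity
  have hQ : (0 : ℝ) < 2 ^ (u * (t - 1)) := by positivity
  have hQR : (2 : ℝ) ^ (u * t) = 2 ^ (u * (t - 1)) * 2 ^ u := by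
    rw [← pow_add]
    congr 1
    obtain ⟨j, rfl⟩ : ∃ j, t = j + 1 := ⟨t - 1, by omega⟩
    rw [Nat.add_sub_cancel]
    ring
  have hG' := (eq_div_iff hR.ne').2 hG
  rw [← hCdef, ← hnZ, hG', hQR] at h3
  rw [← hnZ, hQR]
  refine key _ _ nZ C (Real.log L) _ (Real.log V) S _ ((k : ℝ) ^ 2) _ _ hC hQ hR ?_
  refine le_trans (le_of_eq ?_) (h3.trans (le_of_eq ?_))
  · ring
  · ring

end Pool.Agent.T2h38.OG
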