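import Pool.Agent.T2h38.OG.Stm

/-! # SCA: properties of the scale -/

set_option autoImplicit false

namespace Pool.Agent.T2h38.OG

open Finset Pool.Agent.T2h38.JM

namespace SCA

variable {k S : ℕ}

theorem load_le (o : Fin k × Fin k → Finset (Fin S)) (x : Blk k S) : load o x ≤ k := by
  obtain ⟨l, B⟩ := x
  rcases l with _ | l
  · exact Nat.zero_le _
  · rcases l with i | j
    · show (univ.filter fun j => B ⊆ o (i, j)).card ≤ k
      refine (card_filter_le _ _).trans ?_
      rw [card_univ, Fintype.card_fin]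
    · show (univ.filter fun i => B ⊆ o (i, j)).card ≤ k
      refine (card_filter_le _ _).trans ?_
      rw [card_univ, Fintype.card_fin]

end SCA

open SCA in
theorem t_SCA : S_SCA := by
  intro k S t u Λ hΛ hk o x
  have hne : {a | load o x ≤ Λ * 2 ^ (u * (t - x.2.card) + a)}.Nonempty := by
    refine ⟨load o x, ?_⟩
    show load o x ≤ Λ * 2 ^ (u * (t - x.2.card) + load o x)
    have h1 : load o x < 2 ^ load o x := Nat.lt_two_pow_self
    have h2 : 2 ^ load o x ≤ 2 ^ (u * (t - x.2.card) + load o x) :=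
      Nat.pow_le_pow_right (by norm_num) (Nat.le_add_left _ _)
    have h3 : 1 * 2 ^ (u * (t - x.2.card) + load o x) ≤ Λ * 2 ^ (u * (t - x.2.card) + load o x) :=
      Nat.mul_le_mul_right _ hΛ
    omega
  refine ⟨?_, ?_, ?_, ?_⟩
  · exact Nat.sInf_mem hne
  · intro hpos
    have h1 : sca t u Λ o x - 1 ∉ {a | load o x ≤ Λ * 2 ^ (u * (t - x.2.card) + a)} :=
      Nat.notMem_of_lt_sInf (show sca t u Λ o x - 1 < sca t u Λ o x by omega)
    have h2 : Λ * 2 ^ (u * (t - x.2.card) + (sca t u Λ o x - 1)) < load o x := by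
      by_contra hcon
      exact h1 (not_lt.1 hcon)
    have h3 : Λ * 2 ^ (u * (t - x.2.card) + sca t u Λ o x) =
        2 * (Λ * 2 ^ (u * (t - x.2.card) + (sca t u Λ o x - 1))) := by
      obtain ⟨m, hm⟩ : ∃ m, sca t u Λ o x = m + 1 := ⟨sca t u Λ o x - 1, by omega⟩
      rw [hm, Nat.add_sub_cancel, ← Nat.add_assoc, pow_succ]
      ring
    omega
  · intro hx
    refine Nat.sInf_le ?_
    show load o x ≤ Λ * 2 ^ (u * (t - x.2.card) + u * x.2.card)
    rw [← Nat.mul_add, Nat.sub_add_cancel hx]
    exact (load_le o x).trans hk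
  · intro hx
    have h1 : load o x = 0 := by
      obtain ⟨l, B⟩ := x
      subst hx
      rfl
    have h2 : sca t u Λ o x ≤ 0 := by
      refine Nat.sInf_le ?_
      show load o x ≤ _
      rw [h1]
      exact Nat.zero_le _
    omega

end Pool.Agent.T2h38.OG
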