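import Mathlib
import Pool.Agent.T2h38.OG.Stm

set_option autoImplicit false

namespace Pool.Agent.T2h38.OG

open Finset Pool.Agent.T2h38.JM

/-- The bound for all simulations, with the number of the subsets of the universe. -/
theorem t_SCQ : S_SCQ := by
  intro A k S V W Q n T t D b hQ1 hn hW hWT hb hD hk hkn q a a' P ρ H' E
  set L : ℝ := 1 + 1 / 160 with hLdef
  set ε : ℝ := 1 / (4000 * (Q : ℝ)) with hε
  have hQ0 : (0 : ℝ) < Q := by exact_mod_cast hQ1
  have hε0 : 0 < ε := by rw [hε]; positivity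
  have hy0 : 0 ≤ (n : ℝ) / Q := by positivity
  have hL1 : 1 < L := by rw [hLdef]; norm_num
  set p : ℝ := 1 + 1 / (n : ℝ) with hp
  have hn0 : (0 : ℝ) < n := by exact_mod_cast hn
  have hp1 : 1 < p := by
    rw [hp]
    have : 0 < 1 / (n : ℝ) := by positivity
    linarith
  have : Nonempty (Fin n → Fin n) := ⟨id⟩
  set QQ : ℝ := ((Fintype.card (Fin n → Fin n) : ℕ) : ℝ) with hQQdef
  have hQQ : 0 < QQ := by
    rw [hQQdef]
    exact_mod_cast Fintype.card_pos
  set κ : ℝ := QQ ^ (2 - 2 / p) with hκ
  have hκ0 : 0 ≤ κ := by positivity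
  have hδ : 1 - 1 / p = 1 / ((n : ℝ) + 1) := by
    rw [hp]
    field_simp
    ring
  have hdk : (fun x y : Fin n → Fin n => if dj x y then (1 : ℝ) else 0) =
      fun x y : Fin n → Fin n => if ∀ i, x i ≠ y i then (1 : ℝ) else 0 := by
    funext x y
    simp [dj]
  have hkB : ∀ o : Option Bool, Bd p κ (kk L (1 / 2) (dj (n := n)) o) := by
    intro o
    refine kk_bd p κ (Real.exp (-1 / 80)) L (1 / 2) (by norm_num) (by norm_num) hL1.le
      weight_num hκ0 dj (Bd.one p hp1.le) ?_ o
    rw [hdk]
    exact disj_bd n hn p hp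
  have hkk0 : ∀ (o : Option Bool) (x y : Fin n → Fin n), 0 ≤ kk L (1 / 2) dj o x y := by
    intro o x y
    unfold kk
    split_ifs <;> linarith
  have hkkL : ∀ (o : Option Bool) (x y : Fin n → Fin n), kk L (1 / 2) dj o x y ≤ L := by
    intro o x y
    unfold kk
    split_ifs <;> linarith
  have he1 : Real.exp (-ε) ≤ 1 := by
    rw [Real.exp_le_one_iff]
    linarith
  set C : ℝ := ((W : ℝ) ^ (1 - 1 / p)) ^ T * Real.exp (-ε) with hC
  have hC0 : 0 ≤ C := by positivity
  have hB : ∀ i j, BdS p (C * QQ ^ (2 - 2 / p)) (sg q a a' T t P ρ H' i j)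
      (kg L ε dj q a a' T t P ρ H' i j) := by
    intro i j
    have h1 := tree_bdS p hp1.le (Real.exp (-ε) * κ) (by positivity) hW ρ (a i) (a' j)
      (fun acc => P (i, j) H' acc) (fun o x y => Real.exp (-ε) * kk L (1 / 2) dj o x y)
      (fun o => (hkB o).smul _ (Real.exp_pos _).le) (q i j) T t ∅
    intro f g hf hg
    refine le_trans (le_of_eq ?_) ((h1 f g hf hg).trans (le_of_eq ?_))
    · refine Finset.sum_congr rfl fun x _ => Finset.sum_congr rfl fun y _ => ?_
      unfold sg kg sg
      split_ifs with h2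
      · rfl
      · rfl
    · rw [hC, hκ]
      congr 1
      ring
  set ζ : ℝ := 2 ^ b * Real.exp (-(ε * (n + 1))) * (L ^ D * L ^ D) with hζ
  have hζ1 : C ^ (1 / (1 - 1 / p)) * (L ^ D * L ^ D) ≤ ζ := by
    rw [hζ]
    refine mul_le_mul_of_nonneg_right ?_ (by positivity)
    rw [hC, Real.mul_rpow (by positivity) (Real.exp_pos _).le, hδ, one_div_one_div]
    have e1 : (((W : ℝ) ^ (1 / ((n : ℝ) + 1))) ^ T) ^ ((n : ℝ) + 1) = (W : ℝ) ^ T := by
      rw [← Real.rpow_natCast ((W : ℝ) ^ (1 / ((n : ℝ) + 1))), ← Real.rpow_mul (by positivity),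
        ← Real.rpow_mul (by positivity), ← Real.rpow_natCast]
      congr 1
      field_simp
    have e2 : Real.exp (-ε) ^ ((n : ℝ) + 1) = Real.exp (-(ε * (n + 1))) := by
      rw [← Real.exp_mul]
      congr 1
      ring
    rw [e1, e2]
    refine mul_le_mul_of_nonneg_right ?_ (Real.exp_pos _).le
    exact_mod_cast hWT
  have hbound := SC_bound D (sg q a a' T t P ρ H') (kg L ε dj q a a' T t P ρ H')
    (by
      intro i j x y
      unfold kg
      split_ifs
      · exact mul_nonneg (Real.exp_pos _).le (hkk0 _ _ _)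
      · exact zero_le_one)
    L hL1.le
    (by
      intro i j x y
      unfold kg
      split_ifs
      · calc Real.exp (-ε) * kk L (1 / 2) dj _ x y ≤ 1 * L :=
            mul_le_mul he1 (hkkL _ _ _) (hkk0 _ _ _) zero_le_one
          _ = L := one_mul L
      · exact hL1.le)
    (by
      intro i j x y h
      unfold kg
      rw [h]
      simp)
    p C hp1 hC0 hB ζ hζ1 (by positivity) (k * k) E
    (by
      have := Finset.card_le_univ E
      rw [Fintype.card_prod, Fintype.card_fin] at this
      exact this)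
    (by
      rw [hζ]
      have hk1 : (1 : ℝ) ≤ k := by exact_mod_cast hk
      have hlogL : Real.log L ≤ 1 / 160 := by
        have := Real.log_le_sub_one_of_pos (show (0 : ℝ) < L by linarith)
        rw [hLdef] at this ⊢
        linarith
      have hlog2 := Real.log_two_lt_d9
      have e1 : (2 : ℝ) ^ b = Real.exp (b * Real.log 2) := by
        rw [Real.exp_nat_mul, Real.exp_log (by norm_num)]
      have e2 : L ^ D = Real.exp (D * Real.log L) := by
        rw [Real.exp_nat_mul, Real.exp_log (by linarith)]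
      have e3 : ((k * k : ℕ) : ℝ) * 2 = Real.exp (Real.log (2 * (k : ℝ) ^ 2)) := by
        rw [Real.exp_log (by positivity)]
        push_cast
        ring
      have e4 : ((k * k : ℕ) : ℝ) * (2 * (2 ^ b * Real.exp (-(ε * (n + 1))) * (L ^ D * L ^ D))) =
          Real.exp (Real.log (2 * (k : ℝ) ^ 2) + b * Real.log 2 + -(ε * (n + 1)) +
            (D * Real.log L + D * Real.log L)) := by
        rw [Real.exp_add, Real.exp_add, Real.exp_add, Real.exp_add, ← e3, ← e1, ← e2]
        ring
      rw [e4, Real.exp_le_one_iff]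
      have hb' : 20000 * (b : ℝ) ≤ n / Q := by
        rw [le_div_iff₀ hQ0]
        have : ((20000 * Q * b : ℕ) : ℝ) ≤ n := by exact_mod_cast hb
        push_cast at this
        linarith
      have hD' : 200 * (D : ℝ) ≤ n / Q := by
        rw [le_div_iff₀ hQ0]
        have : ((200 * Q * D : ℕ) : ℝ) ≤ n := by exact_mod_cast hD
        push_cast at this
        linarith
      have hk' : 8000 * Real.log (2 * (k : ℝ) ^ 2) ≤ n / Q := by
        rw [le_div_iff₀ hQ0]
        linarith
      have hεn : (n : ℝ) / Q / 4000 ≤ ε * (n + 1) := by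
        have : ε * (n + 1) = (n : ℝ) / Q / 4000 + ε := by
          rw [hε]
          field_simp
        linarith
      have hb0 : (0 : ℝ) ≤ b := by positivity
      have hD0 : (0 : ℝ) ≤ D := by positivity
      have f1 : (b : ℝ) * Real.log 2 ≤ b * (7 / 10) :=
        mul_le_mul_of_nonneg_left (by linarith) hb0
      have f2 : (D : ℝ) * Real.log L ≤ D * (1 / 160) := mul_le_mul_of_nonneg_left hlogL hD0
      generalize (n : ℝ) / Q = y at *
      generalize ε * ((n : ℝ) + 1) = z at *
      generalize Real.log (2 * (k : ℝ) ^ 2) = l1 at *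
      generalize (b : ℝ) * Real.log 2 = l2 at *
      generalize (D : ℝ) * Real.log L = l3 at *
      linarith only [hb', hD', hk', hεn, f1, f2, hy0])
  refine hbound.trans ?_
  have hcard : ((Fintype.card ((Fin k → (Fin n → Fin n)) × (Fin k → (Fin n → Fin n))) : ℕ) : ℝ) =
      QQ ^ k * QQ ^ k := by
    rw [Fintype.card_prod, Fintype.card_fun, Fintype.card_fin, hQQdef]
    push_cast
    rfl
  rw [hcard, ← hQQdef]
  refine mul_le_mul_of_nonneg_right ?_ (by positivity)
  have hlast : ((k * k : ℕ) : ℝ) * (2 * ζ) ≤ 1 := by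
    rw [hζ]
    have hk1 : (1 : ℝ) ≤ k := by exact_mod_cast hk
    have hlogL : Real.log L ≤ 1 / 160 := by
      have := Real.log_le_sub_one_of_pos (show (0 : ℝ) < L by linarith)
      rw [hLdef] at this ⊢
      linarith
    have hlog2 := Real.log_two_lt_d9
    have e1 : (2 : ℝ) ^ b = Real.exp (b * Real.log 2) := by
      rw [Real.exp_nat_mul, Real.exp_log (by norm_num)]
    have e2 : L ^ D = Real.exp (D * Real.log L) := by
      rw [Real.exp_nat_mul, Real.exp_log (by linarith)]
    have e3 : ((k * k : ℕ) : ℝ) * 2 = Real.exp (Real.log (2 * (k : ℝ) ^ 2)) := by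
      rw [Real.exp_log (by positivity)]
      push_cast
      ring
    have e4 : ((k * k : ℕ) : ℝ) * (2 * (2 ^ b * Real.exp (-(ε * (n + 1))) * (L ^ D * L ^ D))) =
        Real.exp (Real.log (2 * (k : ℝ) ^ 2) + b * Real.log 2 + -(ε * (n + 1)) +
          (D * Real.log L + D * Real.log L)) := by
      rw [Real.exp_add, Real.exp_add, Real.exp_add, Real.exp_add, ← e3, ← e1, ← e2]
      ring
    rw [e4, Real.exp_le_one_iff]
    have hb' : 20000 * (b : ℝ) ≤ n / Q := by
      rw [le_div_iff₀ hQ0]
      have : ((20000 * Q * b : ℕ) : ℝ) ≤ n := by exact_mod_cast hb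
      push_cast at this
      linarith
    have hD' : 200 * (D : ℝ) ≤ n / Q := by
      rw [le_div_iff₀ hQ0]
      have : ((200 * Q * D : ℕ) : ℝ) ≤ n := by exact_mod_cast hD
      push_cast at this
      linarith
    have hk' : 8000 * Real.log (2 * (k : ℝ) ^ 2) ≤ n / Q := by
      rw [le_div_iff₀ hQ0]
      linarith
    have hεn : (n : ℝ) / Q / 4000 ≤ ε * (n + 1) := by
      have : ε * (n + 1) = (n : ℝ) / Q / 4000 + ε := by
        rw [hε]
        field_simp
      linarith
    have hb0 : (0 : ℝ) ≤ b := by positivity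
    have hD0 : (0 : ℝ) ≤ D := by positivity
    have f1 : (b : ℝ) * Real.log 2 ≤ b * (7 / 10) :=
      mul_le_mul_of_nonneg_left (by linarith) hb0
    have f2 : (D : ℝ) * Real.log L ≤ D * (1 / 160) := mul_le_mul_of_nonneg_left hlogL hD0
    generalize (n : ℝ) / Q = y at *
    generalize ε * ((n : ℝ) + 1) = z at *
    generalize Real.log (2 * (k : ℝ) ^ 2) = l1 at *
    generalize (b : ℝ) * Real.log 2 = l2 at *
    generalize (D : ℝ) * Real.log L = l3 at *
    linarith only [hb', hD', hk', hεn, f1, f2, hy0]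
  linarith

end Pool.Agent.T2h38.OG
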