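import Pool.Agent.T2h38.OG.Stm

/-! Project OG (owner helper38), task SMP (helper18): the inequality for one sample. -/

set_option autoImplicit false

namespace Pool.Agent.T2h38.OG

open Finset Pool.Agent.T2h38.JM

namespace SMPx

variable {k S : ℕ}

open Classical in
/-- the chosen heavy blocks with their scales, truncated -/
noncomputable def AA (t u Λ h0 : ℕ) (o : Fin k × Fin k → Finset (Fin S)) (ω : Om k S (u * t))
    (v : Fin k ⊕ Fin k) : Finset (Finset (Fin S) × ℕ) :=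
  if ((chs t u Λ o ω v).image fun x => (x.2, sca t u Λ o x)).card ≤ h0 then
    (chs t u Λ o ω v).image fun x => (x.2, sca t u Λ o x) else ∅

theorem AA_card (t u Λ h0 : ℕ) (o : Fin k × Fin k → Finset (Fin S)) (ω : Om k S (u * t))
    (v : Fin k ⊕ Fin k) : (AA t u Λ h0 o ω v).card ≤ h0 := by
  unfold AA
  split_ifs with h
  · exact h
  · simp

theorem AA_mem {t u Λ h0 : ℕ} {o : Fin k × Fin k → Finset (Fin S)} {ω : Om k S (u * t)}
    {v : Fin k ⊕ Fin k} {y : Finset (Fin S) × ℕ} (h : y ∈ AA t u Λ h0 o ω v) :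
    ∃ x : Blk k S, x.1 = some v ∧ x.2.Nonempty ∧ 0 < sca t u Λ o x ∧ zer (bcr t u Λ o x) ω ∧
      y = (x.2, sca t u Λ o x) := by
  classical
  unfold AA at h
  split_ifs at h with h1
  · rw [mem_image] at h
    obtain ⟨x, hx, rfl⟩ := h
    unfold chs hv at hx
    simp only [mem_filter, mem_univ, true_and] at hx
    exact ⟨x, hx.1.1, hx.1.2.1, hx.1.2.2, hx.2, rfl⟩
  · simp at h

theorem mem_AA {t u Λ h0 : ℕ} {o : Fin k × Fin k → Finset (Fin S)} {ω : Om k S (u * t)}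
    {v : Fin k ⊕ Fin k} (hc : (chs t u Λ o ω v).card ≤ h0) (x : Blk k S) (h1 : x.1 = some v)
    (h2 : x.2.Nonempty) (h3 : 0 < sca t u Λ o x) (h4 : zer (bcr t u Λ o x) ω) :
    (x.2, sca t u Λ o x) ∈ AA t u Λ h0 o ω v := by
  classical
  unfold AA
  rw [if_pos (card_image_le.trans hc)]
  refine mem_image.2 ⟨x, ?_, rfl⟩
  unfold chs hv
  simp only [mem_filter, mem_univ, true_and]
  exact ⟨⟨h1, h2, h3⟩, h4⟩

theorem zer_bcr {t u Λ : ℕ} {o : Fin k × Fin k → Finset (Fin S)} {ω : Om k S (u * t)}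
    {x : Blk k S} : zer (bcr t u Λ o x) ω ↔
      ∀ b : Fin (u * t), b.1 < u * x.2.card - sca t u Λ o x → ω (Sum.inl (x, b)) = 0 := by
  constructor
  · intro h b hb
    refine h _ ?_
    unfold bcr
    exact mem_image.2 ⟨b, by simpa using hb, rfl⟩
  · intro h y hy
    unfold bcr at hy
    obtain ⟨b, hb, rfl⟩ := mem_image.1 hy
    exact h b (by simpa using hb)

theorem zer_crd {t u Λ : ℕ} {o : Fin k × Fin k → Finset (Fin S)} {ω : Om k S (u * t)}
    {e : Fin k × Fin k} {π : Finset (Blk k S)} : zer (crd t u Λ o e π) ω ↔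
      (∀ x ∈ π, zer (bcr t u Λ o x) ω) ∧ ∀ b : Fin (u * t),
        b.1 < tot t u Λ o π + u * (t - (o e).card) → ω (Sum.inr (e, b)) = 0 := by
  constructor
  · intro h
    refine ⟨fun x hx y hy => h y ?_, fun b hb => h _ ?_⟩
    · unfold crd
      exact mem_union_left _ (mem_biUnion.2 ⟨x, hx, hy⟩)
    · unfold crd
      exact mem_union_right _ (mem_image.2 ⟨b, by simpa using hb, rfl⟩)
  · rintro ⟨h1, h2⟩ y hy
    unfold crd at hy
    rcases mem_union.1 hy with hy | hy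
    · obtain ⟨x, hx, hy⟩ := mem_biUnion.1 hy
      exact h1 x hx y hy
    · obtain ⟨b, hb, rfl⟩ := mem_image.1 hy
      exact h2 b (by simpa using hb)

/-- the condition of the selection -/
def QQ (t u : ℕ) (ω : Om k S (u * t)) (G : Finset (Fin S))
    (γ : (Fin k → Finset (Finset (Fin S) × ℕ)) × (Fin k → Finset (Finset (Fin S) × ℕ)))
    (e : Fin k × Fin k) (acc : Finset (Fin S)) : Prop :=
  ∃ (π : Finset (Blk k S)) (s : Blk k S → ℕ),
    (∀ x ∈ π, (x.1 = none ∧ x.2.card = 1 ∧ (∀ c ∈ x.2, c ∈ G) ∧ s x = 0) ∨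
      (x.1 = some (Sum.inl e.1) ∧ x.2.Nonempty ∧ (x.2, s x) ∈ γ.1 e.1 ∧ 0 < s x) ∨
      (x.1 = some (Sum.inr e.2) ∧ x.2.Nonempty ∧ (x.2, s x) ∈ γ.2 e.2 ∧ 0 < s x)) ∧
    (∀ x ∈ π, ∀ y ∈ π, x ≠ y → Disjoint x.2 y.2) ∧ π.biUnion Prod.snd = acc ∧
    ∀ b : Fin (u * t), b.1 < ∑ x ∈ π, s x + u * (t - acc.card) → ω (Sum.inr (e, b)) = 0

open Classical in
/-- the selection -/
noncomputable def PP (t u : ℕ) (ω : Om k S (u * t)) (G : Finset (Fin S))
    (γ : (Fin k → Finset (Finset (Fin S) × ℕ)) × (Fin k → Finset (Finset (Fin S) × ℕ)))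
    (e : Fin k × Fin k) (acc : Finset (Fin S)) : Bool := decide (QQ t u ω G γ e acc)

theorem PP_iff {t u : ℕ} {ω : Om k S (u * t)} {G : Finset (Fin S)}
    {γ : (Fin k → Finset (Finset (Fin S) × ℕ)) × (Fin k → Finset (Finset (Fin S) × ℕ))}
    {e : Fin k × Fin k} {acc : Finset (Fin S)} : PP t u ω G γ e acc = true ↔ QQ t u ω G γ e acc := by
  classical
  unfold PP
  exact decide_eq_true_iff

theorem PP_sound {t u : ℕ} {ω : Om k S (u * t)} {G : Finset (Fin S)}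
    {γ : (Fin k → Finset (Finset (Fin S) × ℕ)) × (Fin k → Finset (Finset (Fin S) × ℕ))}
    {e : Fin k × Fin k} {acc : Finset (Fin S)} (h : PP t u ω G γ e acc = true) :
    ∀ c ∈ acc, c ∈ G ∨ (∃ i, ∃ x ∈ γ.1 i, c ∈ x.1) ∨ (∃ i, ∃ x ∈ γ.2 i, c ∈ x.1) := by
  obtain ⟨π, s, h1, -, h3, -⟩ := PP_iff.1 h
  intro c hc
  rw [← h3] at hc
  obtain ⟨x, hx, hcx⟩ := mem_biUnion.1 hc
  rcases h1 x hx with h | h | h
  · exact Or.inl (h.2.2.1 c hcx)
  · exact Or.inr (Or.inl ⟨e.1, _, h.2.2.1, hcx⟩)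
  · exact Or.inr (Or.inr ⟨e.2, _, h.2.2.1, hcx⟩)

/-- the side information -/
noncomputable def gm (t u Λ h0 : ℕ) (o : Fin k × Fin k → Finset (Fin S)) (ω : Om k S (u * t)) :
    (Fin k → Finset (Finset (Fin S) × ℕ)) × (Fin k → Finset (Finset (Fin S) × ℕ)) :=
  (fun i => AA t u Λ h0 o ω (Sum.inl i), fun j => AA t u Λ h0 o ω (Sum.inr j))

theorem P_imp (hSCA : S_SCA) {t u Λ h0 : ℕ} (hΛ : 0 < Λ) (hk : k ≤ Λ * 2 ^ (u * t))
    (o : Fin k × Fin k → Finset (Fin S)) (ω : Om k S (u * t)) (G : Finset (Fin S))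
    (hG : ∀ c, c ∈ G ↔ ∀ b : Fin (u * t), b.1 < u → ω (Sum.inl ((none, {c}), b)) = 0)
    (e : Fin k × Fin k) (h : PP t u ω G (gm t u Λ h0 o ω) e (o e) = true) : Sv t u Λ o ω e := by
  obtain ⟨π, s, h1, h2, h3, h4⟩ := PP_iff.1 h
  have key : ∀ x ∈ π, s x = sca t u Λ o x ∧ zer (bcr t u Λ o x) ω ∧
      ((x.1 = none ∧ x.2.card = 1) ∨
    ((x.1 = some (Sum.inl e.1) ∨ x.1 = some (Sum.inr e.2)) ∧ x.2.Nonempty ∧
      0 < sca t u Λ o x)) := by
    intro x hx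
    have hs := hSCA k S t u Λ hΛ hk o x
    rcases h1 x hx with ⟨a1, a2, a3, a4⟩ | ⟨a1, a2, a3, a4⟩ | ⟨a1, a2, a3, a4⟩
    · have h0 : sca t u Λ o x = 0 := hs.2.2.2 a1
      refine ⟨a4.trans h0.symm, ?_, Or.inl ⟨a1, a2⟩⟩
      rw [zer_bcr]
      intro b hb
      rw [h0, a2, mul_one, Nat.sub_zero] at hb
      obtain ⟨c, hc⟩ := card_eq_one.1 a2
      have hcG : c ∈ G := a3 c (by rw [hc]; exact mem_singleton_self c)
      have hx' : x = (none, {c}) := Prod.ext a1 hc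
      rw [hx']
      exact (hG c).1 hcG b hb
    · obtain ⟨y, b1, b2, b3, b4, b5⟩ := AA_mem (show (x.2, s x) ∈ AA t u Λ h0 o ω (Sum.inl e.1) from a3)
      have hxy : y = x := Prod.ext (b1.trans a1.symm) (congrArg Prod.fst b5).symm
      have hsx : s x = sca t u Λ o y := congrArg Prod.snd b5
      subst hxy
      exact ⟨hsx, b4, Or.inr ⟨Or.inl a1, a2, b3⟩⟩
    · obtain ⟨y, b1, b2, b3, b4, b5⟩ := AA_mem (show (x.2, s x) ∈ AA t u Λ h0 o ω (Sum.inr e.2) from a3)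
      have hxy : y = x := Prod.ext (b1.trans a1.symm) (congrArg Prod.fst b5).symm
      have hsx : s x = sca t u Λ o y := congrArg Prod.snd b5
      subst hxy
      exact ⟨hsx, b4, Or.inr ⟨Or.inr a1, a2, b3⟩⟩
  refine ⟨π, ⟨fun x hx => (key x hx).2.2, h2, h3⟩, ?_⟩
  rw [zer_crd]
  refine ⟨fun x hx => (key x hx).2.1, ?_⟩
  have hsum : tot t u Λ o π = ∑ x ∈ π, s x :=
    Finset.sum_congr rfl fun x hx => ((key x hx).1).symm
  rw [hsum]
  exact h4

theorem imp_P (hSCA : S_SCA) {t u Λ h0 : ℕ} (hΛ : 0 < Λ) (hk : k ≤ Λ * 2 ^ (u * t))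
    (o : Fin k × Fin k → Finset (Fin S)) (ω : Om k S (u * t)) (G : Finset (Fin S))
    (hG : ∀ c, c ∈ G ↔ ∀ b : Fin (u * t), b.1 < u → ω (Sum.inl ((none, {c}), b)) = 0)
    (e : Fin k × Fin k) (h1 : (chs t u Λ o ω (Sum.inl e.1)).card ≤ h0)
    (h2 : (chs t u Λ o ω (Sum.inr e.2)).card ≤ h0) (h : Sv t u Λ o ω e) :
    PP t u ω G (gm t u Λ h0 o ω) e (o e) = true := by
  obtain ⟨π, ⟨a1, a2, a3⟩, a4⟩ := h
  rw [zer_crd] at a4
  refine PP_iff.2 ⟨π, sca t u Λ o, fun x hx => ?_, a2, a3, a4.2⟩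
  have hs := hSCA k S t u Λ hΛ hk o x
  rcases a1 x hx with ⟨b1, b2⟩ | ⟨b1 | b1, b2, b3⟩
  · left
    refine ⟨b1, b2, fun c hc => ?_, hs.2.2.2 b1⟩
    rw [hG]
    intro b hb
    have hz := zer_bcr.1 (a4.1 x hx) b
    obtain ⟨c', hc'⟩ := card_eq_one.1 b2
    rw [hc', mem_singleton] at hc
    subst hc
    have hx' : x = (none, {c}) := Prod.ext b1 hc'
    rw [hs.2.2.2 b1, b2, mul_one, Nat.sub_zero, hx'] at hz
    exact hz hb
  · right; left
    exact ⟨b1, b2, mem_AA h1 x b1 b2 b3 (a4.1 x hx), b3⟩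
  · right; right
    exact ⟨b1, b2, mem_AA h2 x b1 b2 b3 (a4.1 x hx), b3⟩

open Classical in
/-- good rows -/
noncomputable def Rg (t u Λ D h0 : ℕ) (o : Fin k × Fin k → Finset (Fin S)) (ω : Om k S (u * t)) :
    Finset (Fin k) := univ.filter fun i => Gd t u Λ D h0 o ω (Sum.inl i)

open Classical in
/-- good columns -/
noncomputable def Cg (t u Λ D h0 : ℕ) (o : Fin k × Fin k → Finset (Fin S)) (ω : Om k S (u * t)) :
    Finset (Fin k) := univ.filter fun j => Gd t u Λ D h0 o ω (Sum.inr j)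

open Classical in
theorem one (hSCA : S_SCA) {t u Λ D h0 : ℕ} (hΛ : 0 < Λ) (hk : k ≤ Λ * 2 ^ (u * t))
    (o : Fin k × Fin k → Finset (Fin S)) (ω : Om k S (u * t)) (G : Finset (Fin S))
    (hG : ∀ c, c ∈ G ↔ ∀ b : Fin (u * t), b.1 < u → ω (Sum.inl ((none, {c}), b)) = 0)
    (π : Fin k × Fin k → Finset (Blk k S)) (hπ : ∀ e, Adm t u Λ o e (π e))
    (x v y : Fin k × Fin k → ℝ) (ℓ : ℝ) (hx0 : ∀ e, 0 ≤ x e) (hxℓ : ∀ e, x e ≤ ℓ) (hv0 : ∀ e, 0 ≤ v e)
    (hxy : ∀ e, x e - v e ≤ y e) :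
    ∑ e ∈ sup t u Λ o ω π, x e - ℓ * (((los t u Λ D h0 o ω π).card : ℕ) : ℝ) -
      ∑ e ∈ sal t u Λ o ω, v e ≤
    ∑ e ∈ (Rg t u Λ D h0 o ω ×ˢ Cg t u Λ D h0 o ω).filter
      (fun e => PP t u ω G (gm t u Λ h0 o ω) e (o e) = true), y e := by
  obtain ⟨T, hT⟩ : ∃ T : Finset (Fin k × Fin k), T = (Rg t u Λ D h0 o ω ×ˢ Cg t u Λ D h0 o ω).filter
      (fun e => PP t u ω G (gm t u Λ h0 o ω) e (o e) = true) := ⟨_, rfl⟩
  have hTm : ∀ e, e ∈ T ↔ (Gd t u Λ D h0 o ω (Sum.inl e.1) ∧ Gd t u Λ D h0 o ω (Sum.inr e.2)) ∧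
      Sv t u Λ o ω e := by
    intro e
    rw [hT, mem_filter, mem_product]
    unfold Rg Cg
    rw [mem_filter, mem_filter]
    constructor
    · rintro ⟨⟨⟨-, h1⟩, -, h2⟩, h3⟩
      exact ⟨⟨h1, h2⟩, P_imp hSCA hΛ hk o ω G hG e h3⟩
    · rintro ⟨⟨h1, h2⟩, h3⟩
      exact ⟨⟨⟨mem_univ _, h1⟩, mem_univ _, h2⟩, imp_P hSCA hΛ hk o ω G hG e h1.1 h2.1 h3⟩
  rw [← hT]
  have e1 : ∑ e ∈ T, x e - ∑ e ∈ T, v e ≤ ∑ e ∈ T, y e := by
    rw [← Finset.sum_sub_distrib]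
    exact Finset.sum_le_sum fun e _ => hxy e
  have e2 : ∑ e ∈ T, v e ≤ ∑ e ∈ sal t u Λ o ω, v e := by
    refine Finset.sum_le_sum_of_subset_of_nonneg ?_ fun e _ _ => hv0 e
    intro e he
    unfold sal
    rw [mem_filter]
    exact ⟨mem_univ _, ((hTm e).1 he).2⟩
  have e3 : ∑ e ∈ sup t u Λ o ω π, x e ≤ ∑ e ∈ T, x e +
      ℓ * (((los t u Λ D h0 o ω π).card : ℕ) : ℝ) := by
    rw [← Finset.sum_filter_add_sum_filter_not (sup t u Λ o ω π) (fun e =>
      ¬ (Gd t u Λ D h0 o ω (Sum.inl e.1) ∧ Gd t u Λ D h0 o ω (Sum.inr e.2))), add_comm]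
    refine add_le_add ?_ ?_
    · refine Finset.sum_le_sum_of_subset_of_nonneg ?_ fun e _ _ => hx0 e
      intro e he
      rw [mem_filter, not_not] at he
      rw [hTm]
      refine ⟨he.2, π e, hπ e, ?_⟩
      have h5 := he.1
      unfold sup at h5
      rw [mem_filter] at h5
      exact h5.2
    · have h6 : ∑ e ∈ (sup t u Λ o ω π).filter (fun e =>
          ¬ (Gd t u Λ D h0 o ω (Sum.inl e.1) ∧ Gd t u Λ D h0 o ω (Sum.inr e.2))), x e ≤
          ∑ _e ∈ (sup t u Λ o ω π).filter (fun e =>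
          ¬ (Gd t u Λ D h0 o ω (Sum.inl e.1) ∧ Gd t u Λ D h0 o ω (Sum.inr e.2))), ℓ :=
        Finset.sum_le_sum fun e _ => hxℓ e
      refine h6.trans (le_of_eq ?_)
      rw [Finset.sum_const, nsmul_eq_mul, mul_comm]
      rfl
  linarith

/-- the number of the advices, its logarithm -/
theorem log_num (k V r h0 c0 X : ℕ) (hV : 0 < V) (hr : 0 < r) :
    Real.log (2 * (((V ^ c0 * ((X + 1) ^ (k * h0) * (X + 1) ^ (k * h0)) * (2 ^ k * 2 ^ k) : ℕ) : ℝ) * r)) =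
      Real.log 2 + c0 * Real.log V + 2 * (k * h0 * Real.log ((X : ℝ) + 1)) + 2 * k * Real.log 2 +
        Real.log r := by
  have hV' : (0 : ℝ) < V := by exact_mod_cast hV
  have hr' : (0 : ℝ) < r := by exact_mod_cast hr
  push_cast
  rw [Real.log_mul (by norm_num) (by positivity), Real.log_mul (by positivity) (by positivity),
    Real.log_mul (by positivity) (by positivity), Real.log_mul (by positivity) (by positivity),
    Real.log_mul (by positivity) (by positivity), Real.log_mul (by positivity) (by positivity),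
    Real.log_pow, Real.log_pow, Real.log_pow]
  push_cast
  ring

theorem AA_prop (hSCA : S_SCA) {t u Λ h0 : ℕ} (hΛ : 0 < Λ) (hk : k ≤ Λ * 2 ^ (u * t))
    (o : Fin k × Fin k → Finset (Fin S)) (ho : ∀ e, (o e).card ≤ t) (ω : Om k S (u * t))
    (v : Fin k ⊕ Fin k) : ∀ y ∈ AA t u Λ h0 o ω v, y.1.card ≤ t ∧ y.2 ≤ u * t := by
  intro y hy
  obtain ⟨x, b1, b2, b3, b4, rfl⟩ := AA_mem hy
  have hs := hSCA k S t u Λ hΛ hk o x
  have hl : 0 < load o x := by
    have h1 := hs.2.1 b3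
    have h2 : 0 < Λ * 2 ^ (u * (t - x.2.card) + sca t u Λ o x) := by positivity
    omega
  have hc : x.2.card ≤ t := by
    obtain ⟨l, B⟩ := x
    simp only at b1
    subst b1
    rcases v with i | j
    · simp only [load] at hl
      obtain ⟨j, hj⟩ := card_pos.1 hl
      rw [mem_filter] at hj
      exact (card_le_card hj.2).trans (ho _)
    · simp only [load] at hl
      obtain ⟨i, hi⟩ := card_pos.1 hl
      rw [mem_filter] at hi
      exact (card_le_card hi.2).trans (ho _)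
  exact ⟨hc, (hs.2.2.1 hc).trans (Nat.mul_le_mul_left _ hc)⟩

theorem img_le {Z Y : Type} [Fintype Z] (i1 i2 : DecidableEq Y) (f : Z → Y) (n : ℕ)
    (h : (@Finset.image Z Y i1 f univ).card ≤ n) : (@Finset.image Z Y i2 f univ).card ≤ n := by
  have h1 : i1 = i2 := Subsingleton.elim _ _
  subst h1
  exact h

end SMPx

open SMPx in
open Classical in
theorem t_SMP : S_SMP := by
  intro hSCA hADV hCOD hWGT α A _ _ k S V W r L ε hL hε d q a a' φ T t D v0 J hH u Λ h0 ht hΛ hk hk1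
    π hπ ω
  obtain ⟨G, hG⟩ : ∃ G : Finset (Fin S), G = univ.filter fun c : Fin S => ∀ b : Fin (u * t), b.1 < u →
          ω (Sum.inl ((none, {c}), b)) = 0 := ⟨_, rfl⟩
  have hGm : ∀ c, c ∈ G ↔ ∀ b : Fin (u * t), b.1 < u → ω (Sum.inl ((none, {c}), b)) = 0 := by
    intro c
    rw [hG, mem_filter]
    exact ⟨fun h => h.2, fun h => ⟨mem_univ _, h⟩⟩
  rw [← hG]
  have hV : 0 < V := lt_of_le_of_lt (Nat.zero_le _) v0.2
  have hr : 0 < r := by
    have z0 : (Fin k → α) × (Fin k → α) := Classical.arbitrary _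
    exact lt_of_le_of_lt (Nat.zero_le _) (φ z0).2
  have ho : ∀ z e, (cc t q a a' φ T J z e).card ≤ t := by
    intro z e
    have := run_card (J z) (a (φ z) e.1 (z.1 e.1)) (a' (φ z) e.2 (z.2 e.2)) (q (φ z) e.1 e.2) T t ∅
    rw [Finset.card_empty, zero_add] at this
    exact this
  have hX : ((((S * V + 1) ^ t * (u * t + 1) : ℕ) : ℝ)) = ((S : ℝ) * V + 1) ^ t * ((u : ℝ) * t + 1) := by
    push_cast
    ring
  rw [← hX, ← log_num k V r h0 G.card ((S * V + 1) ^ t * (u * t + 1)) hV hr]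
  have hl : 0 < Real.log L := Real.log_pos hL
  have hl2 : 0 < Real.log 2 := Real.log_pos (by norm_num)
  refine le_trans (Finset.sum_le_sum fun z _ => one hSCA hΛ hk (cc t q a a' φ T J z) ω G hGm (π z)
    (hπ z) (fun e => if d (z.1 e.1) (z.2 e.2) = true then Real.log L else 0)
    (fun e => (if (oo t q a a' φ T J z e).1 ≠ some (!(d (z.1 e.1) (z.2 e.2))) then
        Real.log L + Real.log 2 else 0) + ε)
    (fun e => Real.log (Real.exp (-ε) *
      kk L (1 / 2) d (oo t q a a' φ T J z e).1 (z.1 e.1) (z.2 e.2))) (Real.log L)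
    (fun e => ?_) (fun e => ?_) (fun e => ?_) (fun e => ?_)) ?_
  · split_ifs
    · exact hl.le
    · exact le_rfl
  · split_ifs
    · exact le_rfl
    · exact hl.le
  · split_ifs
    · linarith
    · linarith
  · exact hWGT α L ε hL hε d (z.1 e.1) (z.2 e.2) (oo t q a a' φ T J z e).1
  have hcount := hCOD ((Fin k → α) × (Fin k → α)) k S V h0 t (u * t) v0 J G
    (fun z => (gm t u Λ h0 (cc t q a a' φ T J z) ω).1)
    (fun z => (gm t u Λ h0 (cc t q a a' φ T J z) ω).2)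
    (fun z i => AA_card _ _ _ _ _ _ _) (fun z i => AA_card _ _ _ _ _ _ _)
    (fun z i => AA_prop hSCA hΛ hk _ (ho z) ω _) (fun z i => AA_prop hSCA hΛ hk _ (ho z) ω _)
    (fun z => Rg t u Λ D h0 (cc t q a a' φ T J z) ω) (fun z => Cg t u Λ D h0 (cc t q a a' φ T J z) ω)
  have hadv := hADV α A ((Fin k → Finset (Finset (Fin S) × ℕ)) × (Fin k → Finset (Finset (Fin S) × ℕ)))
    k S V W r L ε hL.le d q a a' φ T t D J hH (PP t u ω G)
    (fun z => ((fun c => if c ∈ G ∨ (∃ i, ∃ x ∈ (gm t u Λ h0 (cc t q a a' φ T J z) ω).1 i, c ∈ x.1) ∨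
      (∃ i, ∃ x ∈ (gm t u Λ h0 (cc t q a a' φ T J z) ω).2 i, c ∈ x.1) then J z c else v0),
      gm t u Λ h0 (cc t q a a' φ T J z) ω,
      Rg t u Λ D h0 (cc t q a a' φ T J z) ω, Cg t u Λ D h0 (cc t q a a' φ T J z) ω))
    (V ^ G.card * ((((S * V + 1) ^ t * (u * t + 1) + 1) ^ (k * h0)) *
      (((S * V + 1) ^ t * (u * t + 1) + 1) ^ (k * h0))) * (2 ^ k * 2 ^ k))
    (img_le _ _ _ _ hcount)
    (by
      intro z e acc hacc c hc
      exact if_pos (PP_sound hacc c hc))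
    (by
      intro z i hi
      have h1 : i ∈ Rg t u Λ D h0 (cc t q a a' φ T J z) ω := hi
      rw [Rg, mem_filter] at h1
      refine le_trans (Finset.card_le_card ?_) h1.2.2
      intro e he
      rw [mem_filter] at he
      have h2 := P_imp hSCA hΛ hk (cc t q a a' φ T J z) ω G hGm e he.2.2
      show e ∈ univ.filter fun e => e.1 = i ∧ Sv t u Λ (cc t q a a' φ T J z) ω e
      rw [mem_filter]
      exact ⟨mem_univ _, he.2.1, h2⟩)
    (by
      intro z i hi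
      have h1 : i ∈ Cg t u Λ D h0 (cc t q a a' φ T J z) ω := hi
      rw [Cg, mem_filter] at h1
      refine le_trans (Finset.card_le_card ?_) h1.2.2
      intro e he
      rw [mem_filter] at he
      have h2 := P_imp hSCA hΛ hk (cc t q a a' φ T J z) ω G hGm e he.2.2
      show e ∈ univ.filter fun e => e.2 = i ∧ Sv t u Λ (cc t q a a' φ T J z) ω e
      rw [mem_filter]
      exact ⟨mem_univ _, he.2.1, h2⟩)
  exact hadv

end Pool.Agent.T2h38.OG
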