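import Pool.Agent.T2h38.OG.Stm

set_option autoImplicit false
set_option linter.all false

namespace Pool.Agent.T2h38.OG

open Finset Pool.Agent.T2h38.JM

theorem t_WGT : S_WGT := by
  intro α L ε hL hε d x y b
  have hl : 0 < Real.log L := Real.log_pos hL
  have hl2 : 0 < Real.log 2 := Real.log_pos (by norm_num)
  have hL0 : L ≠ 0 := by linarith
  unfold kk
  by_cases hg : b = some (!(d x y))
  · rw [if_pos hg, if_neg (not_not.2 hg)]
    by_cases hd : d x y = true
    · rw [if_pos hd, if_pos hd, Real.log_mul (Real.exp_pos _).ne' hL0, Real.log_exp]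
      linarith
    · rw [if_neg hd, if_neg hd, mul_one, Real.log_exp]
      linarith
  · rw [if_neg hg, if_pos hg, Real.log_mul (Real.exp_pos _).ne' (by norm_num), Real.log_exp]
    have h2 : Real.log (1 / 2) = - Real.log 2 := by rw [one_div, Real.log_inv]
    rw [h2]
    split_ifs <;> linarith

end Pool.Agent.T2h38.OG
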