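import Pool.Agent.T2h38.OG.Stm

/-! (COD): the number of advices (helper62, after helper54's CNR). -/

set_option autoImplicit false

namespace Pool.Agent.T2h38.OG

open Finset

namespace COD

/-- a finite set with at most `h` elements as a list of length `h` of options -/
theorem lst {A : Type} [DecidableEq A] (H : Finset A) (h : ℕ) (hH : H.card ≤ h) :
    ∃ l : Fin h → Option A, ∀ c, c ∈ H ↔ ∃ i, l i = some c := by
  classical
  refine ⟨fun i => if hi : i.1 < H.card then some (H.equivFin.symm ⟨i.1, hi⟩).1 else none, ?_⟩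
  intro c
  constructor
  · intro hc
    set m := H.equivFin ⟨c, hc⟩ with hm
    refine ⟨⟨m.1, lt_of_lt_of_le m.2 hH⟩, ?_⟩
    simp only
    rw [dif_pos m.2]
    have : H.equivFin.symm ⟨m.1, m.2⟩ = ⟨c, hc⟩ := by
      rw [show (⟨m.1, m.2⟩ : Fin H.card) = m from rfl, hm, Equiv.symm_apply_apply]
    rw [this]
  · rintro ⟨i, hi⟩
    simp only at hi
    split_ifs at hi with h2
    rw [Option.some.injEq] at hi
    rw [← hi]
    exact (H.equivFin.symm ⟨i.1, h2⟩).2

/-- the image of `g` has at most as many elements as a type from which `g` can be decoded -/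
theorem card_image_le_code {Z X Y : Type} [Fintype Z] [Fintype X] [DecidableEq Y] (g : Z → Y)
    (dec : X → Y) (h : ∀ z, ∃ x, dec x = g z) : (univ.image g).card ≤ Fintype.card X := by
  calc (univ.image g).card ≤ (univ.image dec).card := by
        refine Finset.card_le_card ?_
        intro y hy
        rw [mem_image] at hy
        obtain ⟨z, _, rfl⟩ := hy
        obtain ⟨x, hx⟩ := h z
        rw [← hx]
        exact mem_image_of_mem _ (mem_univ _)
    _ ≤ Fintype.card X := by
        rw [← Finset.card_univ]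
        exact Finset.card_image_le

/-- entries of the code -/
abbrev En (S V t M : ℕ) : Type := (Fin t → Option (Fin S × Fin V)) × Fin (M + 1)

/-- the code -/
abbrev Cd (k S V h0 t M : ℕ) (G : Finset (Fin S)) : Type :=
  (G → Fin V) × ((Fin k → Fin h0 → Option (En S V t M)) ×
      (Fin k → Fin h0 → Option (En S V t M))) × (Finset (Fin k) × Finset (Fin k))

instance (k S V h0 t M : ℕ) (G : Finset (Fin S)) : Fintype (Cd k S V h0 t M G) :=
  @instFintypeProd _ _ inferInstance (@instFintypeProd _ _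
    (@instFintypeProd _ _ inferInstance inferInstance) inferInstance)

theorem card_list (k S V h0 t M : ℕ) : Fintype.card (Fin k → Fin h0 → Option (En S V t M)) =
    ((S * V + 1) ^ t * (M + 1) + 1) ^ (k * h0) := by
  simp only [Fintype.card_prod, Fintype.card_pi, Finset.prod_const, Finset.card_univ,
    Fintype.card_fin, Fintype.card_option]
  rw [← pow_mul, Nat.mul_comm h0 k]

theorem card_code (k S V h0 t M : ℕ) (G : Finset (Fin S)) :
    Fintype.card (Cd k S V h0 t M G) = V ^ G.card * ((((S * V + 1) ^ t * (M + 1) + 1) ^ (k * h0)) *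
      (((S * V + 1) ^ t * (M + 1) + 1) ^ (k * h0))) * (2 ^ k * 2 ^ k) := by
  have h1 : Nat.card (G → Fin V) = V ^ G.card := by
    rw [Nat.card_eq_fintype_card]
    simp only [Fintype.card_pi, Finset.prod_const, Finset.card_univ, Fintype.card_fin,
      Fintype.card_coe]
  have h2 : Nat.card (Finset (Fin k)) = 2 ^ k := by
    rw [Nat.card_eq_fintype_card]
    simp only [Fintype.card_fin, Fintype.card_finset]
  have h3 := Nat.card_eq_fintype_card (α := Fin k → Fin h0 → Option (En S V t M))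
  rw [card_list] at h3
  rw [← Nat.card_eq_fintype_card, Nat.card_prod, Nat.card_prod, Nat.card_prod, Nat.card_prod, h1,
    h2, h3]
  ring

open Classical in
/-- the block of an entry -/
noncomputable def blk {S V t M : ℕ} (e : En S V t M) : Finset (Fin S) × ℕ :=
  (univ.filter fun c => ∃ m v, e.1 m = some (c, v), e.2.1)

open Classical in
/-- the blocks of a code -/
noncomputable def decA {k S V h0 t M : ℕ} (l : Fin k → Fin h0 → Option (En S V t M)) :
    Fin k → Finset (Finset (Fin S) × ℕ) :=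
  fun i => (univ.filter fun e : En S V t M => ∃ j, l i j = some e).image blk

/-- the cell `c` with the content `v` occurs in the code -/
def Occ {k S V h0 t M : ℕ} (l : Fin k → Fin h0 → Option (En S V t M)) (c : Fin S) (v : Fin V) :
    Prop := ∃ i j e, l i j = some e ∧ ∃ m, e.1 m = some (c, v)

theorem side {k S V h0 t M : ℕ} (J : Fin S → Fin V) (A : Fin k → Finset (Finset (Fin S) × ℕ))
    (hA : ∀ i, (A i).card ≤ h0) (hx : ∀ i, ∀ x ∈ A i, x.1.card ≤ t ∧ x.2 ≤ M) :
    ∃ l : Fin k → Fin h0 → Option (En S V t M), decA l = A ∧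
      ∀ c v, Occ l c v ↔ ((∃ i, ∃ x ∈ A i, c ∈ x.1) ∧ v = J c) := by
  classical
  have h1 : ∀ x : Finset (Fin S) × ℕ, ∃ w : Fin t → Option (Fin S × Fin V), x.1.card ≤ t →
      ∀ c v, (∃ m, w m = some (c, v)) ↔ (c ∈ x.1 ∧ v = J c) := by
    intro x
    by_cases hc : x.1.card ≤ t
    · obtain ⟨w, hw⟩ := lst (x.1.image fun c => (c, J c)) t (Finset.card_image_le.trans hc)
      refine ⟨w, fun _ c v => ?_⟩
      rw [← hw (c, v), mem_image]
      constructor
      · rintro ⟨c', hc', h⟩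
        rw [Prod.mk.injEq] at h
        obtain ⟨rfl, rfl⟩ := h
        exact ⟨hc', rfl⟩
      · rintro ⟨h1, rfl⟩
        exact ⟨c, h1, rfl⟩
    · exact ⟨fun _ => none, fun h => absurd h hc⟩
  choose w hw using h1
  obtain ⟨enc, henc⟩ : ∃ enc : Finset (Fin S) × ℕ → En S V t M, enc = fun x =>
    (w x, ⟨min x.2 M, Nat.lt_succ_of_le (min_le_right _ _)⟩) := ⟨_, rfl⟩
  choose l hl using fun i => lst ((A i).image enc) h0 (Finset.card_image_le.trans (hA i))
  have hl' : ∀ i e, (∃ j, l i j = some e) ↔ ∃ x ∈ A i, enc x = e := by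
    intro i e
    rw [← hl i e, mem_image]
  have hb : ∀ i, ∀ x ∈ A i, blk (enc x) = x := by
    intro i x hxi
    obtain ⟨h2, h3⟩ := hx i x hxi
    rw [henc]
    refine Prod.ext ?_ ?_
    · ext c
      simp only [blk, mem_filter, mem_univ, true_and]
      constructor
      · rintro ⟨m, v, hm⟩
        exact ((hw x h2 c v).1 ⟨m, hm⟩).1
      · intro hc
        obtain ⟨m, hm⟩ := (hw x h2 c (J c)).2 ⟨hc, rfl⟩
        exact ⟨m, _, hm⟩
    · exact min_eq_left h3
  refine ⟨l, ?_, ?_⟩
  · funext i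
    ext x
    simp only [decA, mem_image, mem_filter, mem_univ, true_and]
    constructor
    · rintro ⟨e, he, rfl⟩
      obtain ⟨y, hy, rfl⟩ := (hl' i e).1 he
      rw [hb i y hy]
      exact hy
    · intro hxi
      exact ⟨enc x, (hl' i _).2 ⟨x, hxi, rfl⟩, hb i x hxi⟩
  · intro c v
    constructor
    · rintro ⟨i, j, e, he, m, hm⟩
      obtain ⟨x, hxi, rfl⟩ := (hl' i e).1 ⟨j, he⟩
      obtain ⟨h2, h3⟩ := hx i x hxi
      rw [henc] at hm
      have h4 := (hw x h2 c v).1 ⟨m, hm⟩
      exact ⟨⟨i, x, hxi, h4.1⟩, h4.2⟩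
    · rintro ⟨⟨i, x, hxi, hc⟩, hv⟩
      obtain ⟨h2, h3⟩ := hx i x hxi
      obtain ⟨j, hj⟩ := (hl' i (enc x)).2 ⟨x, hxi, rfl⟩
      obtain ⟨m, hm⟩ := (hw x h2 c v).2 ⟨hc, hv⟩
      refine ⟨i, j, enc x, hj, m, ?_⟩
      rw [henc]
      exact hm

end COD

open Classical COD in
theorem t_COD : S_COD := by
  intro Z _ k S V h0 t M v0 J G A A' hA hA' hx hx' R R'
  have key := COD.card_image_le_code
    (X := Cd k S V h0 t M G)
    (fun z => ((fun c => if c ∈ G ∨ (∃ i, ∃ x ∈ A z i, c ∈ x.1) ∨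
      (∃ i, ∃ x ∈ A' z i, c ∈ x.1) then J z c else v0 : Fin S → Fin V), (A z, A' z), R z,
        R' z))
    (fun x => ((fun c => if h : ∃ v, (∃ hc : c ∈ G, x.1 ⟨c, hc⟩ = v) ∨ Occ x.2.1.1 c v ∨
      Occ x.2.1.2 c v then h.choose else v0),
      (decA x.2.1.1, decA x.2.1.2), x.2.2.1, x.2.2.2)) ?_
  · exact key.trans (card_code k S V h0 t M G).le
  · intro z
    obtain ⟨l, hl1, hl2⟩ := side (V := V) (J z) (A z) (hA z) (hx z)
    obtain ⟨l', hl1', hl2'⟩ := side (V := V) (J z) (A' z) (hA' z) (hx' z)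
    refine ⟨(fun c => J z c.1, (l, l'), (R z, R' z)), ?_⟩
    simp only [Prod.mk.injEq, and_true, hl1, hl1']
    funext c
    by_cases h1 : c ∈ G ∨ (∃ i, ∃ x ∈ A z i, c ∈ x.1) ∨ (∃ i, ∃ x ∈ A' z i, c ∈ x.1)
    · have h2 : ∃ v, (∃ _ : c ∈ G, J z c = v) ∨ Occ l c v ∨ Occ l' c v := by
        refine ⟨J z c, ?_⟩
        rcases h1 with h | h | h
        · exact Or.inl ⟨h, rfl⟩
        · exact Or.inr (Or.inl ((hl2 c _).2 ⟨h, rfl⟩))
        · exact Or.inr (Or.inr ((hl2' c _).2 ⟨h, rfl⟩))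
      rw [dif_pos h2, if_pos h1]
      rcases h2.choose_spec with h | h | h
      · obtain ⟨_, h⟩ := h
        exact h.symm
      · exact ((hl2 c _).1 h).2
      · exact ((hl2' c _).1 h).2
    · have h2 : ¬ ∃ v, (∃ _ : c ∈ G, J z c = v) ∨ Occ l c v ∨ Occ l' c v := by
        rintro ⟨v, h | h | h⟩
        · exact h1 (Or.inl h.1)
        · exact h1 (Or.inr (Or.inl ((hl2 c _).1 h).1))
        · exact h1 (Or.inr (Or.inr ((hl2' c _).1 h).1))
      rw [dif_neg h2, if_neg h1]

end Pool.Agent.T2h38.OG
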